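import Mathlib

/-!
MP_b12e0e_ag (helper93): the real part of a product of `k` complex numbers is a combination of
`k` products of real parts.
-/

set_option autoImplicit false

open Finset

open scoped ComplexConjugate

namespace Pool.Agent.H93.TR

/-- `exp (π i / k)` -/
noncomputable def ze (k : ℕ) : ℂ := Complex.exp (Real.pi * Complex.I / k)

theorem ze_pow {k : ℕ} (hk : 0 < k) : ze k ^ k = -1 := by
  unfold ze
  rw [← Complex.exp_nat_mul, mul_div_cancel₀ _ (by exact_mod_cast hk.ne'), Complex.exp_pi_mul_I]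

theorem ze_sq {k : ℕ} (hk : 0 < k) : IsPrimitiveRoot (ze k ^ 2) k := by
  have h := Complex.isPrimitiveRoot_exp k hk.ne'
  have : ze k ^ 2 = Complex.exp (2 * Real.pi * Complex.I / k) := by
    unfold ze
    rw [← Complex.exp_nat_mul]
    congr 1
    push_cast
    ring
  rwa [this]

theorem ze_mul_conj (k : ℕ) : ze k * conj (ze k) = 1 := by
  unfold ze
  rw [← Complex.exp_conj, ← Complex.exp_add]
  have : (Real.pi * Complex.I / k : ℂ) + conj (Real.pi * Complex.I / k : ℂ) = 0 := by
    simp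
    ring
  rw [this, Complex.exp_zero]

theorem geom {k : ℕ} (hk : 0 < k) (n : ℕ) (hn : n ≤ k) :
    ∑ j ∈ range k, (ze k ^ 2) ^ (j * n) = if n = 0 ∨ n = k then (k : ℂ) else 0 := by
  have h := ze_sq hk
  split_ifs with h1
  · rcases h1 with rfl | rfl
    · simp
    · have : ∀ j ∈ range n, (ze n ^ 2) ^ (j * n) = 1 := fun j _ => by
        rw [mul_comm, pow_mul, h.pow_eq_one, one_pow]
      rw [sum_congr rfl this]
      simp
  · push Not at h1
    have hne : (ze k ^ 2) ^ n ≠ 1 := by
      intro h2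
      have := (h.pow_eq_one_iff_dvd n).1 h2
      exact h1.2 (le_antisymm hn (Nat.le_of_dvd (Nat.pos_of_ne_zero h1.1) this))
    have h3 : ((ze k ^ 2) ^ n - 1) * ∑ j ∈ range k, ((ze k ^ 2) ^ n) ^ j = 0 := by
      rw [mul_geom_sum, ← pow_mul, mul_comm n k, pow_mul, h.pow_eq_one, one_pow, sub_self]
    have h4 := (mul_eq_zero.1 h3).resolve_left (sub_ne_zero.2 hne)
    rw [← h4]
    exact sum_congr rfl fun j _ => by rw [mul_comm, pow_mul]

theorem re_prod {ι : Type} [Fintype ι] [DecidableEq ι] {k : ℕ} (hk : Fintype.card ι = k)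
    (hk0 : 0 < k) (z : ι → ℂ) :
    (2 : ℝ) ^ k * ∑ j ∈ range k, (-1) ^ j * ∏ i, (ze k ^ j * z i).re =
      2 * k * (∏ i, z i).re := by
  have key : ((2 : ℂ) ^ k * ∑ j ∈ range k, (-1) ^ j * ∏ i, ((ze k ^ j * z i).re : ℂ)) =
      k * (∏ i, z i + conj (∏ i, z i)) := by
    have h1 : ∀ j ∈ range k, (2 : ℂ) ^ k * ((-1) ^ j * ∏ i, ((ze k ^ j * z i).re : ℂ)) =
        ∑ t ∈ (univ : Finset ι).powerset, (ze k ^ 2) ^ (j * t.card) *
          ((∏ i ∈ t, z i) * ∏ i ∈ univ \ t, conj (z i)) := by
      intro j _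
      have h2 : (2 : ℂ) ^ k * ∏ i, ((ze k ^ j * z i).re : ℂ) =
          ∏ i, (ze k ^ j * z i + conj (ze k) ^ j * conj (z i)) := by
        rw [← hk, ← card_univ, ← prod_const, ← prod_mul_distrib]
        refine prod_congr rfl fun i _ => ?_
        rw [Complex.re_eq_add_conj, mul_div_cancel₀ _ two_ne_zero, map_mul, map_pow]
      rw [mul_left_comm, h2, prod_add, mul_sum]
      refine sum_congr rfl fun t ht => ?_
      rw [prod_mul_distrib, prod_mul_distrib, prod_const, prod_const]
      have hc : t.card + (univ \ t).card = k := by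
        rw [← hk, ← card_univ, card_sdiff_of_subset (mem_powerset.1 ht)]
        have := card_le_card (mem_powerset.1 ht)
        omega
      have h3 : (-1 : ℂ) ^ j = ze k ^ (j * k) := by
        rw [mul_comm, pow_mul, ze_pow hk0]
      have h4 : ze k ^ (j * k) * ((ze k ^ j) ^ t.card * (conj (ze k) ^ j) ^ (univ \ t).card) =
          (ze k ^ 2) ^ (j * t.card) := by
        have h5 : ze k ^ (j * k) = ze k ^ (j * t.card) * ze k ^ (j * (univ \ t).card) := by
          rw [← pow_add, ← mul_add, hc]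
        have h6 : ze k ^ (j * (univ \ t).card) * conj (ze k) ^ (j * (univ \ t).card) = 1 := by
          rw [← mul_pow, ze_mul_conj, one_pow]
        rw [← pow_mul, ← pow_mul, h5, ← pow_mul]
        calc ze k ^ (j * t.card) * ze k ^ (j * (univ \ t).card) *
            (ze k ^ (j * t.card) * conj (ze k) ^ (j * (univ \ t).card))
            = ze k ^ (j * t.card) * ze k ^ (j * t.card) *
              (ze k ^ (j * (univ \ t).card) * conj (ze k) ^ (j * (univ \ t).card)) := by ring
          _ = ze k ^ (2 * (j * t.card)) := by rw [h6, mul_one, ← pow_add, ← two_mul]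
      rw [h3, ← h4]
      ring
    rw [mul_sum, sum_congr rfl h1, sum_comm]
    have h7 : ∀ t ∈ (univ : Finset ι).powerset, ∑ j ∈ range k, (ze k ^ 2) ^ (j * t.card) *
        ((∏ i ∈ t, z i) * ∏ i ∈ univ \ t, conj (z i)) =
        if t = ∅ ∨ t = univ then (k : ℂ) * ((∏ i ∈ t, z i) * ∏ i ∈ univ \ t, conj (z i))
          else 0 := by
      intro t _
      have hle : t.card ≤ k := by rw [← hk]; exact card_le_univ t
      rw [← sum_mul, geom hk0 _ hle]
      have h8 : (t.card = 0 ∨ t.card = k) ↔ (t = ∅ ∨ t = univ) := by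
        rw [card_eq_zero, ← hk, card_eq_iff_eq_univ]
      by_cases h9 : t = ∅ ∨ t = univ
      · rw [if_pos (h8.2 h9), if_pos h9]
      · rw [if_neg (fun h => h9 (h8.1 h)), if_neg h9, zero_mul]
    rw [sum_congr rfl h7, ← sum_filter]
    have h10 : (univ : Finset ι).powerset.filter (fun t => t = ∅ ∨ t = univ) = {∅, univ} := by
      ext t
      simp
    have hne : (∅ : Finset ι) ≠ univ := by
      intro h
      have : Fintype.card ι = 0 := by rw [← card_univ, ← h, card_empty]
      omega
    rw [h10, sum_pair hne]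
    simp
    ring
  have h11 := congrArg Complex.re key
  have h12 : ((2 : ℂ) ^ k * ∑ j ∈ range k, (-1) ^ j * ∏ i, ((ze k ^ j * z i).re : ℂ)) =
      (((2 : ℝ) ^ k * ∑ j ∈ range k, (-1) ^ j * ∏ i, (ze k ^ j * z i).re : ℝ) : ℂ) := by
    push_cast
    rfl
  rw [h12, Complex.ofReal_re] at h11
  rw [h11]
  have h13 : (k : ℂ) * (∏ i, z i + conj (∏ i, z i)) =
      ((k * (2 * (∏ i, z i).re) : ℝ) : ℂ) := by
    rw [Complex.add_conj]
    push_cast
    ring
  rw [h13, Complex.ofReal_re]
  ring

end Pool.Agent.H93.TR
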