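import Pool.Agent.H93.TR.Upper
import Pool.Agent.H93.TR.Char

/-!
MP_b12e0e_ag (helper93): the code of a finite abelian group covered by subgroups.
-/

set_option autoImplicit false

open Set Function Module

open scoped ComplexConjugate

namespace Pool.Agent.H93.TR

open Pool.Agent.H19.TR

section
variable {G : Type} [AddCommGroup G] [Fintype G] [DecidableEq G] {ι : Type} [Fintype ι]
  [DecidableEq ι] (H : ι → AddSubgroup G) [∀ i, Fintype (H i)]

/-- index types of the factors -/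
abbrev Al (i : ι) : Type := H i

/-- the sum of the coordinates -/
def tot (x : (i : ι) → Al H i) : G := ∑ i, (x i : G)

/-- the codewords -/
abbrev Code : Type := {x : (i : ι) → Al H i // tot H x = 0}

omit [Fintype G] [DecidableEq G] [∀ i, Fintype (H i)] in
theorem tot_update (x : (i : ι) → Al H i) (i : ι) (a : Al H i) :
    tot H (update x i a) = tot H x - x i + a := by
  unfold tot
  rw [← Finset.add_sum_erase _ _ (Finset.mem_univ i),
    ← Finset.add_sum_erase Finset.univ (fun i => (x i : G)) (Finset.mem_univ i), update_self]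
  have : ∑ l ∈ Finset.univ.erase i, ((update x i a l : Al H l) : G) =
      ∑ l ∈ Finset.univ.erase i, (x l : G) :=
    Finset.sum_congr rfl fun l hl => by rw [update_of_ne (Finset.ne_of_mem_erase hl)]
  rw [this]
  abel

omit [Fintype G] [DecidableEq G] [∀ i, Fintype (H i)] in
theorem cover (hH : ∀ g : G, ∃ i, g ∈ H i) (x : (i : ι) → Al H i) :
    ∃ (l : Code H) (i : ι) (a : Al H i), x = update l.1 i a := by
  obtain ⟨i, hi⟩ := hH (tot H x)
  refine ⟨⟨update x i (x i - ⟨tot H x, hi⟩), ?_⟩, i, x i, ?_⟩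
  · rw [tot_update, AddSubgroup.coe_sub]
    abel
  · simp

omit [Fintype G] in
theorem sum_code (x : (i : ι) → Al H i) :
    (∑ l : Code H, sg (bs l.1) : Ten (Al H)) x = if tot H x = 0 then 1 else 0 := by
  rw [Finset.sum_apply]
  simp only [sg_bs_apply]
  split_ifs with h
  · rw [Finset.sum_eq_single (⟨x, h⟩ : Code H)]
    · simp
    · intro l _ hl
      rw [if_neg]
      intro h'
      exact hl (Subtype.ext h')
    · simp
  · refine Finset.sum_eq_zero fun l _ => ?_
    rw [if_neg]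
    intro h'
    exact h (h' ▸ l.2)

/-- The number of codewords. -/
theorem card_code (hH : ∀ g : G, ∃ i, g ∈ H i) :
    Fintype.card (Code H) * Fintype.card G = ∏ i, Fintype.card (H i) := by
  let S : ((i : ι) → Al H i) →+ G :=
    { toFun := tot H
      map_zero' := by simp [tot]
      map_add' := fun x y => by simp [tot, Finset.sum_add_distrib] }
  have hS : Surjective S := by
    intro g
    obtain ⟨i, hi⟩ := hH g
    refine ⟨update 0 i ⟨g, hi⟩, ?_⟩
    show tot H _ = g
    rw [tot_update]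
    simp [tot]
  have h1 := AddSubgroup.card_eq_card_quotient_mul_card_addSubgroup S.ker
  have h2 : Nat.card (((i : ι) → Al H i) ⧸ S.ker) = Nat.card G :=
    Nat.card_congr (QuotientAddGroup.quotientKerEquivOfSurjective S hS).toEquiv
  have h3 : Nat.card S.ker = Fintype.card (Code H) := by
    rw [← Nat.card_eq_fintype_card]
    rfl
  rw [h2, h3, Nat.card_eq_fintype_card, Nat.card_eq_fintype_card, Fintype.card_pi] at h1
  rw [h1, mul_comm]

omit [Fintype G] [DecidableEq G] [Fintype ι] [DecidableEq ι] [∀ i, Fintype (H i)] in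
theorem char_sum (ψ : AddChar G ℂ) (s : Finset ι) (f : ι → G) :
    ψ (∑ i ∈ s, f i) = ∏ i ∈ s, ψ (f i) := by
  classical
  induction s using Finset.induction_on with
  | empty => simp
  | insert i s hi ih => rw [Finset.sum_insert hi, Finset.prod_insert hi,
      AddChar.map_add_eq_mul, ih]

omit [Fintype G] [DecidableEq G] [DecidableEq ι] [∀ i, Fintype (H i)] in
theorem char_tot (ψ : AddChar G ℂ) (x : (i : ι) → Al H i) : ψ (tot H x) = ∏ i, ψ (x i) :=
  char_sum ψ _ _

theorem delta_eq (s : G) : (if s = 0 then (1 : ℝ) else 0) =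
    ∑ ψ : AddChar G ℂ, (Fintype.card G : ℝ)⁻¹ * (ψ s).re := by
  have h := congrArg Complex.re (AddChar.sum_apply_eq_ite (α := G) s)
  rw [Complex.re_sum] at h
  rw [← Finset.mul_sum, h]
  have hG : (Fintype.card G : ℝ) ≠ 0 := by exact_mod_cast Fintype.card_ne_zero
  split_ifs
  · simp [hG]
  · simp

omit [Fintype G] in
/-- the general upper bound -/
theorem upper_gen (hH : ∀ g : G, ∃ i, g ∈ H i) (Q : Finset (AddChar G ℂ)) (b w : ℝ)
    (hb : b ≠ 0) (hQ : ∀ s : G, (if s = 0 then (1 : ℝ) else 0) = b + ∑ ψ ∈ Q, w * (ψ s).re)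
    (T : Ten (Al H)) :
    T ∈ Sums (Al H) (Fintype.card (Code H) + Q.card * Fintype.card ι) := by
  have hι : Nonempty ι := ⟨(hH 0).choose⟩
  have hk : 0 < Fintype.card ι := Fintype.card_pos
  set k := Fintype.card ι with hkdef
  have hk' : (k : ℝ) ≠ 0 := by exact_mod_cast hk.ne'
  let v : Q × Fin k → Par (Al H) := fun p i a => (ze k ^ (p.2 : ℕ) * p.1.1 (a : G)).re
  let c : Q × Fin k → ℝ := fun p => w * (2 ^ k / (2 * k)) * (-1) ^ (p.2 : ℕ)
  have hS := sum_smul_mem_Sums (α := Al H) c v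
  rw [Fintype.card_prod, Fintype.card_coe, Fintype.card_fin] at hS
  refine all_mem (fun l : Code H => l.1) (cover H hH) hb hS ?_ T
  funext x
  rw [sum_code, hQ, Pi.add_apply, Pi.smul_apply, Finset.sum_apply]
  congr 1
  · simp [sg]
  · rw [Fintype.sum_prod_type, ← Finset.sum_coe_sort Q]
    refine Finset.sum_congr rfl fun ψ _ => ?_
    have h1 := re_prod (ι := ι) rfl hk (fun i => ψ.1 (x i : G))
    rw [← char_tot H ψ.1 x, ← hkdef] at h1
    have h2 : (ψ.1 (tot H x)).re = (2 ^ k / (2 * k)) * ∑ j ∈ Finset.range k, (-1) ^ j *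
        ∏ i, (ze k ^ j * ψ.1 (x i : G)).re := by
      field_simp
      linarith
    rw [h2, Finset.sum_range, Finset.mul_sum, Finset.mul_sum]
    refine Finset.sum_congr rfl fun j _ => ?_
    show _ = c (ψ, j) * ∏ i, (ze k ^ (j : ℕ) * ψ.1 (x i : G)).re
    simp only [c]
    ring

omit [Fintype G] [DecidableEq G] in
theorem zero_re (s : G) : ((0 : AddChar G ℂ) s).re = 1 := by simp

/-- all finite abelian groups -/
theorem upper_all (hH : ∀ g : G, ∃ i, g ∈ H i) (T : Ten (Al H)) :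
    T ∈ Sums (Al H) (Fintype.card (Code H) + (Fintype.card G - 1) * Fintype.card ι) := by
  have hG : (Fintype.card G : ℝ) ≠ 0 := by exact_mod_cast Fintype.card_ne_zero
  have hc : (Finset.univ.erase (0 : AddChar G ℂ)).card = Fintype.card G - 1 := by
    rw [Finset.card_erase_of_mem (Finset.mem_univ _), Finset.card_univ, AddChar.card_eq]
  rw [← hc]
  refine upper_gen H hH (Finset.univ.erase 0) (Fintype.card G : ℝ)⁻¹ (Fintype.card G : ℝ)⁻¹
    (inv_ne_zero hG) (fun s => ?_) T
  rw [delta_eq, ← Finset.add_sum_erase _ _ (Finset.mem_univ (0 : AddChar G ℂ)), zero_re, mul_one]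

/-- groups of odd order: characters come in pairs -/
theorem upper_odd (hodd : Odd (Fintype.card G)) (hH : ∀ g : G, ∃ i, g ∈ H i)
    (T : Ten (Al H)) :
    T ∈ Sums (Al H) (Fintype.card (Code H) + (Fintype.card G - 1) / 2 * Fintype.card ι) := by
  classical
  have hG : (Fintype.card G : ℝ) ≠ 0 := by exact_mod_cast Fintype.card_ne_zero
  let e := Fintype.equivFin (AddChar G ℂ)
  set P : Finset (AddChar G ℂ) := (Finset.univ.erase 0).filter fun ψ => e ψ < e ψ⁻¹ with hP
  set P' : Finset (AddChar G ℂ) := (Finset.univ.erase 0).filter fun ψ => ¬ e ψ < e ψ⁻¹ with hP'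
  have hinv : ∀ ψ : AddChar G ℂ, ψ ≠ 0 → ψ⁻¹ ≠ ψ := by
    intro ψ h0 h
    apply h0
    ext g
    have h1 : ψ (g + g) = 1 := by
      rw [AddChar.map_add_eq_mul]
      have h2 : ψ⁻¹ g * ψ g = 1 := by
        rw [AddChar.inv_apply, ← AddChar.map_add_eq_mul, neg_add_cancel, AddChar.map_zero_eq_one]
      rwa [h] at h2
    obtain ⟨n, hn⟩ := hodd
    have h3 : ψ g ^ Fintype.card G = 1 := by
      rw [← AddChar.map_nsmul_eq_pow, card_nsmul_eq_zero, AddChar.map_zero_eq_one]
    have h4 : ψ g ^ 2 = 1 := by rw [sq, ← AddChar.map_add_eq_mul, h1]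
    rw [hn, pow_add, pow_mul, h4, one_pow, one_mul, pow_one] at h3
    rw [h3]
    simp
  have hne0 : ∀ ψ : AddChar G ℂ, ψ ≠ 0 → ψ⁻¹ ≠ 0 := by
    intro ψ h0 h
    apply h0
    have h1 : ψ⁻¹⁻¹ = (0 : AddChar G ℂ)⁻¹ := by rw [h]
    rw [inv_inv] at h1
    rw [h1]
    ext g
    simp
  have hsum : ∀ F : AddChar G ℂ → ℝ, (∀ ψ, F ψ⁻¹ = F ψ) →
      ∑ ψ ∈ Finset.univ.erase 0, F ψ = 2 * ∑ ψ ∈ P, F ψ := by
    intro F hF
    rw [← Finset.sum_filter_add_sum_filter_not (Finset.univ.erase 0) (fun ψ => e ψ < e ψ⁻¹) F,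
      two_mul]
    congr 1
    refine Finset.sum_bij (fun ψ _ => ψ⁻¹) ?_ ?_ ?_ ?_
    · intro ψ hψ
      rw [Finset.mem_filter, Finset.mem_erase] at hψ
      rw [hP, Finset.mem_filter, Finset.mem_erase]
      refine ⟨⟨hne0 ψ hψ.1.1, Finset.mem_univ _⟩, ?_⟩
      rw [inv_inv]
      have h1 : e ψ⁻¹ ≤ e ψ := not_lt.1 hψ.2
      refine lt_of_le_of_ne h1 fun h => hinv ψ hψ.1.1 (e.injective h)
    · intro a _ b _ h
      exact inv_injective h
    · intro ψ hψ
      rw [hP, Finset.mem_filter, Finset.mem_erase] at hψ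
      refine ⟨ψ⁻¹, ?_, inv_inv ψ⟩
      rw [Finset.mem_filter, Finset.mem_erase]
      refine ⟨⟨hne0 ψ hψ.1.1, Finset.mem_univ _⟩, ?_⟩
      rw [inv_inv]
      exact not_lt.2 hψ.2.le
    · intro ψ _
      rw [hF]
  have hc : P.card = (Fintype.card G - 1) / 2 := by
    have h1 := hsum (fun _ => 1) fun _ => rfl
    rw [Finset.sum_const, Finset.sum_const, Finset.card_erase_of_mem (Finset.mem_univ _),
      Finset.card_univ, AddChar.card_eq, nsmul_eq_mul, nsmul_eq_mul, mul_one, mul_one] at h1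
    have h2 : Fintype.card G - 1 = 2 * P.card := by exact_mod_cast h1
    omega
  rw [← hc]
  refine upper_gen H hH P (Fintype.card G : ℝ)⁻¹ (2 * (Fintype.card G : ℝ)⁻¹)
    (inv_ne_zero hG) (fun s => ?_) T
  rw [delta_eq, ← Finset.add_sum_erase _ _ (Finset.mem_univ (0 : AddChar G ℂ)), zero_re, mul_one,
    hsum (fun ψ => (Fintype.card G : ℝ)⁻¹ * (ψ s).re), Finset.mul_sum]
  · congr 1
    exact Finset.sum_congr rfl fun ψ _ => by ring
  · intro ψ
    rw [AddChar.inv_apply', AddChar.inv_apply_eq_conj, Complex.conj_re]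

/-- groups of exponent two: the characters are real -/
theorem upper_two (h2 : ∀ g : G, g + g = 0) (hH : ∀ g : G, ∃ i, g ∈ H i) (T : Ten (Al H)) :
    T ∈ Sums (Al H) (Fintype.card (Code H) + (Fintype.card G - 1)) := by
  classical
  have hι : Nonempty ι := ⟨(hH 0).choose⟩
  have hG : (Fintype.card G : ℝ) ≠ 0 := by exact_mod_cast Fintype.card_ne_zero
  have hre : ∀ (ψ : AddChar G ℂ) (g : G), ψ g = ((ψ g).re : ℂ) := by
    intro ψ g
    have h1 : ψ g * ψ g = 1 := by
      rw [← AddChar.map_add_eq_mul, h2, AddChar.map_zero_eq_one]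
    rcases mul_self_eq_one_iff.1 h1 with h | h <;> simp [h]
  let κ := {ψ : AddChar G ℂ // ψ ≠ 0}
  have hc : Fintype.card κ = Fintype.card G - 1 := by
    rw [Fintype.card_subtype_compl, Fintype.card_subtype_eq, AddChar.card_eq]
  let v : κ → Par (Al H) := fun ψ i a => (ψ.1 (a : G)).re
  have hS := sum_smul_mem_Sums (α := Al H) (fun _ : κ => (Fintype.card G : ℝ)⁻¹) v
  rw [hc] at hS
  refine all_mem (fun l : Code H => l.1) (cover H hH) (inv_ne_zero hG) hS ?_ T
  funext x
  rw [sum_code, delta_eq, Pi.add_apply, Pi.smul_apply, Finset.sum_apply,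
    ← Finset.add_sum_erase _ _ (Finset.mem_univ (0 : AddChar G ℂ)), zero_re]
  congr 1
  · simp [sg]
  · have h4 : ∑ l : κ, ((Fintype.card G : ℝ)⁻¹ • sg (v l) : Ten (Al H)) x =
        ∑ ψ ∈ Finset.univ.erase (0 : AddChar G ℂ),
          (Fintype.card G : ℝ)⁻¹ * ∏ i, (ψ (x i : G)).re :=
      (Finset.sum_subtype (Finset.univ.erase (0 : AddChar G ℂ)) (p := fun ψ => ψ ≠ 0) (by simp)
        (fun ψ => (Fintype.card G : ℝ)⁻¹ * ∏ i, (ψ (x i : G)).re)).symm
    rw [h4]
    refine Finset.sum_congr rfl fun ψ _ => ?_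
    congr 1
    rw [char_tot H ψ x]
    have h3 : (∏ i, ψ (x i : G)) = ((∏ i, (ψ (x i : G)).re : ℝ) : ℂ) := by
      rw [Complex.ofReal_prod]
      exact Finset.prod_congr rfl fun i _ => hre ψ _
    rw [h3, Complex.ofReal_re]

end

end Pool.Agent.H93.TR
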