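import Pool.Agent.H93.TR.Main

/-!
MP_b12e0e_ag (helper93): transport along equivalences, estimates.
-/

set_option autoImplicit false

open Set Function Module

namespace Pool.Agent.H93.TR

open Pool.Agent.H19.TR

/-- transport of an upper bound along an equivalence of the index types -/
theorem Sums_equiv {ι κ : Type} [Fintype ι] [Fintype κ] (α : ι → Type) (e : κ ≃ ι) {R : ℕ}
    (h : ∀ T : Ten (fun j => α (e j)), T ∈ Sums (fun j => α (e j)) R) (T : Ten α) :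
    T ∈ Sums α R := by
  obtain ⟨v, hv⟩ := h fun y => T (Equiv.piCongrLeft α e y)
  refine ⟨fun k => Equiv.piCongrLeft (fun i => α i → ℝ) e (v k), ?_⟩
  funext x
  have h1 := congrFun hv fun j => x (e j)
  have h2 : Equiv.piCongrLeft α e (fun j => x (e j)) = x :=
    (Equiv.piCongrLeft α e).apply_symm_apply x
  have h3 : T (Equiv.piCongrLeft α e fun j => x (e j)) =
      (∑ k, sg (v k) : Ten fun j => α (e j)) fun j => x (e j) := h1
  rw [h2] at h3
  rw [h3, Finset.sum_apply, Finset.sum_apply]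
  refine Finset.sum_congr rfl fun k _ => ?_
  unfold sg
  rw [← e.prod_comp fun i => Equiv.piCongrLeft (fun i => α i → ℝ) e (v k) i (x i)]
  refine Finset.prod_congr rfl fun j _ => ?_
  rw [Equiv.piCongrLeft_apply_apply]

/-- the trivial bound -/
theorem triv_mem_Sums {ι : Type} [Fintype ι] [DecidableEq ι] [Nonempty ι] {α : ι → Type}
    [∀ i, Fintype (α i)] [∀ i, DecidableEq (α i)] (T : Ten α) :
    T ∈ Sums α (Fintype.card ((i : ι) → α i)) := by
  have h1 : T = ∑ x, T x • sg (bs x) := by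
    funext y
    simp [Finset.sum_apply, sg_bs_apply]
  rw [h1]
  exact sum_smul_mem_Sums T bs

theorem two_pow_ge (P : ℕ) (hP : 4 ≤ P) : P ≤ 2 ^ (P - 2) := by
  induction P, hP using Nat.le_induction with
  | base => norm_num
  | succ k hk ih =>
    have : k + 1 - 2 = (k - 2) + 1 := by omega
    rw [this, pow_succ]
    omega

/-- the estimate of the second error term -/
theorem est_nat (P n m t : ℕ) (hP : P = 2 ∨ 4 ≤ P) (hm : 1 ≤ m) (hmn : m = n / P)
    (hn : n = m + t) : P * t * 2 ^ m ≤ (n + 1) * 2 ^ t := by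
  have hPpos : 0 < P := by omega
  have h1 : P * m ≤ n := by rw [hmn]; exact Nat.mul_div_le n P
  have h2 : n < P * (m + 1) := by rw [hmn]; exact Nat.lt_mul_div_succ n hPpos
  rcases hP with rfl | hP
  · have h3 : 2 * t ≤ n + 1 := by omega
    have h4 : m ≤ t := by omega
    exact Nat.mul_le_mul h3 (Nat.pow_le_pow_right (by norm_num) h4)
  · have h3 : P - 2 ≤ t - m := by
      have h5 : (P - 2) * 1 ≤ (P - 2) * m := Nat.mul_le_mul_left _ hm
      have h6 : (P - 2) * m = P * m - 2 * m := Nat.sub_mul _ _ _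
      omega
    have hmt : m ≤ t := by
      have : 4 * m ≤ P * m := Nat.mul_le_mul_right _ hP
      omega
    have h4 : P ≤ 2 ^ (t - m) :=
      (two_pow_ge P hP).trans (Nat.pow_le_pow_right (by norm_num) h3)
    calc P * t * 2 ^ m = t * (P * 2 ^ m) := by ring
      _ ≤ (n + 1) * (2 ^ (t - m) * 2 ^ m) :=
        Nat.mul_le_mul (by omega) (Nat.mul_le_mul_right _ h4)
      _ = (n + 1) * 2 ^ t := by rw [← pow_add, Nat.sub_add_cancel hmt]

theorem est_real (P n m t N₁ N₂ s A r : ℕ) (hP : P = 2 ∨ 4 ≤ P) (hm : 1 ≤ m)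
    (hmn : m = n / P) (hn : n = m + t) (hN₁ : 2 ^ m ≤ N₁) (hN₂ : 2 ^ t ≤ N₂)
    (hr : r * (1 + s) ≤ N₁ + s) (hA : A ≤ P * t) :
    ((r * N₂ + N₁ * A : ℕ) : ℝ) ≤ (N₁ * N₂ : ℝ) / (s + 1) + (n + 2) * (N₁ * N₂) / 2 ^ m := by
  have hs : (0 : ℝ) < s + 1 := by positivity
  have h2m : (0 : ℝ) < 2 ^ m := by positivity
  have h1 : (r : ℝ) ≤ N₁ / (s + 1) + 1 := by
    rw [div_add_one hs.ne', le_div_iff₀ hs]
    have : ((r * (1 + s) : ℕ) : ℝ) ≤ ((N₁ + s : ℕ) : ℝ) := by exact_mod_cast hr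
    push_cast at this
    linarith
  have h2 : (N₂ : ℝ) ≤ N₁ * N₂ / 2 ^ m := by
    rw [le_div_iff₀ h2m, mul_comm]
    have : ((2 ^ m : ℕ) : ℝ) ≤ N₁ := by exact_mod_cast hN₁
    push_cast at this
    exact mul_le_mul_of_nonneg_right this (Nat.cast_nonneg _)
  have h3 : (N₁ : ℝ) * A ≤ (n + 1) * (N₁ * N₂) / 2 ^ m := by
    rw [le_div_iff₀ h2m]
    have h4 : A * 2 ^ m ≤ (n + 1) * N₂ :=
      calc A * 2 ^ m ≤ P * t * 2 ^ m := Nat.mul_le_mul_right _ hA
        _ ≤ (n + 1) * 2 ^ t := est_nat P n m t hP hm hmn hn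
        _ ≤ (n + 1) * N₂ := Nat.mul_le_mul_left _ hN₂
    have h5 : ((A * 2 ^ m : ℕ) : ℝ) ≤ (((n + 1) * N₂ : ℕ) : ℝ) := by exact_mod_cast h4
    push_cast at h5
    calc (N₁ : ℝ) * A * 2 ^ m = N₁ * (A * 2 ^ m) := by ring
      _ ≤ N₁ * ((n + 1) * N₂) := mul_le_mul_of_nonneg_left h5 (Nat.cast_nonneg _)
      _ = (n + 1) * (N₁ * N₂) := by ring
  push_cast
  have h6 : (r : ℝ) * N₂ ≤ (N₁ / (s + 1) + 1) * N₂ :=
    mul_le_mul_of_nonneg_right h1 (Nat.cast_nonneg _)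
  have h7 : ((N₁ : ℝ) / (s + 1) + 1) * N₂ = N₁ * N₂ / (s + 1) + N₂ := by ring
  have h8 : ((n : ℝ) + 2) * (N₁ * N₂) / 2 ^ m =
      (n + 1) * (N₁ * N₂) / 2 ^ m + N₁ * N₂ / 2 ^ m := by ring
  rw [h8]
  linarith

/-- the error term is small for large `n` -/
theorem lim_est (P : ℕ) (hP : 0 < P) (Q ε : ℝ) (hQ : 0 ≤ Q) (hε : 0 < ε) :
    ∃ n₀ : ℕ, ∀ n ≥ n₀, ((n : ℝ) + 2) * (n * Q + 1) ≤ ε * 2 ^ (n / P) := by
  set C : ℝ := (2 * P + 2) * (2 * P * Q + 1) with hC
  have hPr : (0 : ℝ) < P := by exact_mod_cast hP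
  have hCpos : 0 < C := by positivity
  have h1 := tendsto_pow_const_div_const_pow_of_one_lt 2 (one_lt_two (α := ℝ))
  have h2 := h1.eventually (ge_mem_nhds (div_pos hε hCpos))
  obtain ⟨m₀, hm₀⟩ := Filter.eventually_atTop.1 h2
  refine ⟨P * (m₀ + 1), fun n hn => ?_⟩
  have h3 : m₀ + 1 ≤ n / P := (Nat.le_div_iff_mul_le hP).2 (by rw [mul_comm]; exact hn)
  have h4 : n < P * (n / P + 1) := Nat.lt_mul_div_succ n hP
  generalize n / P = m at h3 h4 ⊢
  have hm1 : (1 : ℝ) ≤ m := by exact_mod_cast (by omega : 1 ≤ m)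
  have h5 : (n : ℝ) ≤ 2 * P * m := by
    have : (n : ℝ) ≤ P * (m + 1) := by exact_mod_cast h4.le
    nlinarith
  have h6 : ((n : ℝ) + 2) ≤ (2 * P + 2) * m := by nlinarith
  have h7 : ((n : ℝ) * Q + 1) ≤ (2 * P * Q + 1) * m := by
    have := mul_le_mul_of_nonneg_right h5 hQ
    nlinarith
  have h8 : (m : ℝ) ^ 2 / 2 ^ m ≤ ε / C := hm₀ m (by omega)
  rw [div_le_div_iff₀ (by positivity) hCpos] at h8
  have h9 : (0 : ℝ) ≤ (n : ℝ) * Q + 1 := by positivity
  calc ((n : ℝ) + 2) * (n * Q + 1) ≤ ((2 * P + 2) * m) * ((2 * P * Q + 1) * m) :=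
        mul_le_mul h6 h7 h9 (by positivity)
    _ = (m : ℝ) ^ 2 * C := by rw [hC]; ring
    _ ≤ ε * 2 ^ m := h8

/-- the upper bound for a format whose factors are numbered by `Fin m ⊕ Fin t` -/
theorem upper_split (e m t : ℕ) (he : 1 ≤ e) (hm : 1 ≤ m)
    (hmn : m = (m + t) / (2 ^ e * (2 ^ e - 1))) (d : Fin (m + t) → ℕ)
    (hd : ∀ i, 2 ≤ d i ∧ d i ≤ 2 ^ e) :
    ∃ R : ℕ, (R : ℝ) ≤ (∏ i, (d i : ℝ)) / (∑ i, ((d i : ℝ) - 1) + 1) +
        ((m + t : ℕ) + 2) * (∏ i, (d i : ℝ)) / 2 ^ m ∧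
      ∀ T : Ten (fun i => Fin (d i)), T ∈ Sums (fun i => Fin (d i)) R := by
  classical
  set P : ℕ := 2 ^ e * (2 ^ e - 1) with hPdef
  have hP : P = 2 ∨ 4 ≤ P := by
    rcases he.eq_or_lt with rfl | he
    · left
      norm_num [hPdef]
    · right
      have h4 : 4 ≤ 2 ^ e := by
        calc 4 = 2 ^ 2 := by norm_num
          _ ≤ 2 ^ e := Nat.pow_le_pow_right (by norm_num) he
      calc 4 = 4 * 1 := by norm_num
        _ ≤ 2 ^ e * (2 ^ e - 1) := Nat.mul_le_mul h4 (by omega)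
  have hPm : P * m ≤ m + t := by
    conv_lhs => rw [hmn]
    exact Nat.mul_div_le _ P
  have ht : 1 ≤ t := by
    have : 2 * m ≤ P * m := Nat.mul_le_mul_right _ (by omega)
    omega
  have : Nonempty (Fin m) := ⟨⟨0, hm⟩⟩
  have : Nonempty (Fin t) := ⟨⟨0, ht⟩⟩
  let α : Fin m ⊕ Fin t → Type := fun i => Fin (d (finSumFinEquiv i))
  have hα : ∀ i, Fintype.card (α i) ≤ 2 ^ e := fun i => by
    rw [Fintype.card_fin]
    exact (hd _).2
  obtain ⟨A₁, _, _, φ₁, -, hA₁, hF⟩ := exists_lab e he (fun i : Fin m => α (Sum.inl i)) fun i => hα _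
  obtain ⟨A, _, _, φ, h2, hA, hφ⟩ := exists_lab e he (fun i : Fin t => α (Sum.inr i)) fun i => hα _
  rw [Fintype.card_fin, ← hPdef] at hA hA₁
  set N₁ := Fintype.card ((i : Fin m) → α (Sum.inl i)) with hN₁
  set N₂ := Fintype.card ((i : Fin t) → α (Sum.inr i)) with hN₂
  set s := sdim α with hs
  -- cardinalities
  have h2N₁ : 2 ^ m ≤ N₁ := by
    rw [hN₁, Fintype.card_pi]
    calc 2 ^ m = ∏ _i : Fin m, 2 := by simp
      _ ≤ _ := Finset.prod_le_prod (fun _ _ => by norm_num) fun i _ => by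
        rw [Fintype.card_fin]
        exact (hd _).1
  have h2N₂ : 2 ^ t ≤ N₂ := by
    rw [hN₂, Fintype.card_pi]
    calc 2 ^ t = ∏ _i : Fin t, 2 := by simp
      _ ≤ _ := Finset.prod_le_prod (fun _ _ => by norm_num) fun i _ => by
        rw [Fintype.card_fin]
        exact (hd _).1
  have hprod : (∏ i, (d i : ℝ)) = N₁ * N₂ := by
    rw [← finSumFinEquiv.prod_comp, Fintype.prod_sum_type, hN₁, hN₂, Fintype.card_pi,
      Fintype.card_pi]
    push_cast
    congr 1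
    · exact Finset.prod_congr rfl fun i _ => by rw [Fintype.card_fin]
    · exact Finset.prod_congr rfl fun i _ => by rw [Fintype.card_fin]
  have hsum : (∑ i, ((d i : ℝ) - 1)) = s := by
    rw [← finSumFinEquiv.sum_comp, hs]
    unfold sdim
    rw [Nat.cast_sum]
    refine Finset.sum_congr rfl fun i _ => ?_
    rw [Fintype.card_fin, Nat.cast_sub (by have := (hd (finSumFinEquiv i)).1; omega)]
    simp
  have hns : m + t ≤ s := by
    rw [hs]
    unfold sdim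
    calc m + t = ∑ _i : Fin m ⊕ Fin t, 1 := by simp
      _ ≤ _ := Finset.sum_le_sum fun i _ => by
        rw [Fintype.card_fin]
        have := (hd (finSumFinEquiv i)).1
        omega
  -- the number of products
  set r := (N₁ + s) / (1 + s) with hr
  have hr1 : r * (1 + s) ≤ N₁ + s := Nat.div_mul_le_self _ _
  have hr2 : N₁ ≤ r * (1 + s) := by
    have := Nat.lt_div_mul_add (a := N₁ + s) (b := 1 + s) (by omega)
    rw [← hr] at this
    omega
  refine ⟨r * N₂ + N₁ * Fintype.card A, ?_, ?_⟩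
  · rw [hprod, hsum]
    exact est_real P (m + t) m t N₁ N₂ s (Fintype.card A) r hP hm hmn rfl h2N₁ h2N₂ hr1 hA
  · intro T
    refine Sums_equiv (fun i => Fin (d i)) finSumFinEquiv (fun T' => ?_) T
    exact main_upper (α := α) hF h2 φ hφ (hA₁.trans (by omega)) hr1 hr2 T'

end Pool.Agent.H93.TR
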