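import Pool.Agent.H93.TR.Greedy
import Pool.Agent.H93.TR.Asym

/-!
MP_b12e0e_ag (helper93): the upper bound for formats with large products.
-/

set_option autoImplicit false

open Set Function Module

namespace Pool.Agent.H93.TR

open Pool.Agent.H19.TR

theorem est_greedy (N₁ s₁ s x : ℝ) (r : ℕ) (hN : 0 < N₁) (hs₁ : 0 ≤ 1 + s₁) (hs : 0 < 1 + s)
    (hx0 : 0 ≤ x) (hx : x ≤ 1 / 2) (hx' : 1 + s₁ ≤ x * (1 + s)) (h8 : 8 * (1 + s) ≤ N₁)
    (hr1 : (1 + x ^ 2) * N₁ / (1 + s) ≤ r) (hr2 : r ≤ (1 + x ^ 2) * N₁ / (1 + s) + 1) :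
    N₁ + (r * (1 + s₁)) ^ 2 / (2 * N₁) ≤ r * (1 + s) := by
  have hr0 : (0 : ℝ) ≤ r := Nat.cast_nonneg r
  have h1 : (1 + x ^ 2) * N₁ ≤ r * (1 + s) := by rwa [div_le_iff₀ hs] at hr1
  have h2 : r * (1 + s) ≤ (1 + x ^ 2) * N₁ + (1 + s) := by
    rw [div_add_one hs.ne', le_div_iff₀ hs] at hr2
    exact hr2
  have hx2 : x ^ 2 ≤ 1 / 4 := by nlinarith
  have h3 : r * (1 + s) ≤ 11 / 8 * N₁ := by nlinarith
  have h4 : r * (1 + s₁) ≤ x * (r * (1 + s)) := by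
    calc r * (1 + s₁) ≤ r * (x * (1 + s)) := mul_le_mul_of_nonneg_left hx' hr0
      _ = x * (r * (1 + s)) := by ring
  have h5 : r * (1 + s₁) ≤ x * (11 / 8 * N₁) := h4.trans (mul_le_mul_of_nonneg_left h3 hx0)
  have h6 : (r * (1 + s₁)) ^ 2 ≤ (x * (11 / 8 * N₁)) ^ 2 :=
    pow_le_pow_left₀ (mul_nonneg hr0 hs₁) h5 2
  have h7 : (r * (1 + s₁)) ^ 2 / (2 * N₁) ≤ x ^ 2 * N₁ := by
    rw [div_le_iff₀ (by positivity)]
    refine h6.trans ?_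
    have : 0 ≤ x ^ 2 * N₁ ^ 2 := by positivity
    nlinarith
  linarith

/-- the explicit bound for a format whose factors are split into two parts -/
theorem greedy_equiv {ι₁ ι₂ ι : Type} [Fintype ι₁] [DecidableEq ι₁] [Nonempty ι₁] [Fintype ι₂]
    [DecidableEq ι₂] [Nonempty ι₂] [Fintype ι] (e₀ : ι₁ ⊕ ι₂ ≃ ι) (e : ℕ) (he : 1 ≤ e)
    (d : ι → ℕ) (hd : ∀ i, 1 ≤ d i ∧ d i ≤ 2 ^ e) (x : ℝ) (hx0 : 0 ≤ x) (hx : x ≤ 1 / 2)
    (P₁ P₂ S₁ S : ℝ) (hP₁ : P₁ = ∏ i : ι₁, (d (e₀ (Sum.inl i)) : ℝ))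
    (hP₂ : P₂ = ∏ i : ι₂, (d (e₀ (Sum.inr i)) : ℝ))
    (hS₁ : S₁ = ∑ i : ι₁, ((d (e₀ (Sum.inl i)) : ℝ) - 1)) (hS : S = ∑ i, ((d i : ℝ) - 1))
    (hx' : 1 + S₁ ≤ x * (1 + S)) (h8 : 8 * (1 + S) ≤ P₁) :
    ∃ R : ℕ, (R : ℝ) ≤ (1 + x ^ 2) * (P₁ * P₂) / (1 + S) + P₂ +
        P₁ * (2 ^ e * (2 ^ e - 1) * Fintype.card ι₂ : ℕ) ∧
      ∀ T : Ten (fun i => Fin (d i)), T ∈ Sums (fun i => Fin (d i)) R := by
  classical
  let α : ι₁ ⊕ ι₂ → Type := fun i => Fin (d (e₀ i))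
  have hne : ∀ i, Nonempty (α i) := fun i => ⟨⟨0, (hd _).1⟩⟩
  have hα : ∀ i, Fintype.card (α i) ≤ 2 ^ e := fun i => by
    rw [Fintype.card_fin]
    exact (hd _).2
  obtain ⟨A, _, _, φ, h2, hA, hφ⟩ := exists_lab e he (fun i : ι₂ => α (Sum.inr i)) fun i => hα _
  set N₁ := Fintype.card ((i : ι₁) → α (Sum.inl i)) with hN₁
  set N₂ := Fintype.card ((i : ι₂) → α (Sum.inr i)) with hN₂
  have hN₁r : P₁ = N₁ := by
    rw [hP₁, hN₁, Fintype.card_pi]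
    push_cast
    exact Finset.prod_congr rfl fun i _ => by rw [Fintype.card_fin]
  have hN₂r : P₂ = N₂ := by
    rw [hP₂, hN₂, Fintype.card_pi]
    push_cast
    exact Finset.prod_congr rfl fun i _ => by rw [Fintype.card_fin]
  have hsum : S = sdim α := by
    rw [hS, ← e₀.sum_comp]
    unfold sdim
    rw [Nat.cast_sum]
    refine Finset.sum_congr rfl fun i _ => ?_
    rw [Fintype.card_fin, Nat.cast_sub (hd (e₀ i)).1]
    simp
  have hsum₁ : S₁ = sdim fun i : ι₁ => α (Sum.inl i) := by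
    rw [hS₁]
    unfold sdim
    rw [Nat.cast_sum]
    refine Finset.sum_congr rfl fun i _ => ?_
    rw [Fintype.card_fin, Nat.cast_sub (hd (e₀ (Sum.inl i))).1]
    simp
  rw [hsum, hsum₁] at hx'
  rw [hsum, hN₁r] at h8
  rw [hsum, hN₁r, hN₂r]
  set s := sdim α with hs
  set s₁ := sdim fun i : ι₁ => α (Sum.inl i) with hs₁
  have hspos : (0 : ℝ) < 1 + s := by positivity
  have hN₁pos : (0 : ℝ) < N₁ := by exact_mod_cast Fintype.card_pos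
  set r := ⌈(1 + x ^ 2) * N₁ / (1 + s)⌉₊ with hr
  have hr1 : (1 + x ^ 2) * N₁ / (1 + s) ≤ r := Nat.le_ceil _
  have hr2 : (r : ℝ) ≤ (1 + x ^ 2) * N₁ / (1 + s) + 1 := (Nat.ceil_lt_add_one (by positivity)).le
  have hcond := est_greedy N₁ s₁ s x r hN₁pos (by positivity) hspos hx0 hx hx' h8 hr1 hr2
  refine ⟨r * N₂ + N₁ * Fintype.card A, ?_, ?_⟩
  · push_cast
    have h3 : (r : ℝ) * N₂ ≤ ((1 + x ^ 2) * N₁ / (1 + s) + 1) * N₂ :=
      mul_le_mul_of_nonneg_right hr2 (Nat.cast_nonneg _)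
    have h4 : ((1 + x ^ 2) * (N₁ : ℝ) / (1 + s) + 1) * N₂ =
        (1 + x ^ 2) * (N₁ * N₂) / (1 + s) + N₂ := by ring
    have h5 : (N₁ : ℝ) * Fintype.card A ≤ N₁ * (2 ^ e * (2 ^ e - 1) * Fintype.card ι₂ : ℕ) :=
      mul_le_mul_of_nonneg_left (by exact_mod_cast hA) (Nat.cast_nonneg _)
    push_cast at h5
    linarith
  · intro T
    refine Sums_equiv (fun i => Fin (d i)) e₀ (fun T' => ?_) T
    exact greedy_upper (α := α) h2 φ hφ hcond T'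

/-- a subset with product at least `M ^ 3` and less than `M ^ 4` -/
theorem exists_min {ι : Type} [DecidableEq ι] (d : ι → ℕ) (M : ℕ) (hM : 2 ≤ M) (U : Finset ι)
    (hd : ∀ i ∈ U, d i ≤ M) (h : M ^ 3 ≤ ∏ i ∈ U, d i) :
    ∃ I ⊆ U, M ^ 3 ≤ ∏ i ∈ I, d i ∧ ∏ i ∈ I, d i < M ^ 4 := by
  induction U using Finset.strongInduction with
  | H U ih =>
    by_cases h4 : ∏ i ∈ U, d i < M ^ 4
    · exact ⟨U, Finset.Subset.refl U, h, h4⟩
    · push Not at h4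
      have hne : U.Nonempty := by
        rw [Finset.nonempty_iff_ne_empty]
        rintro rfl
        rw [Finset.prod_empty] at h
        have : 1 < M ^ 3 := Nat.one_lt_pow (by norm_num) (by omega)
        omega
      obtain ⟨i, hi⟩ := hne
      have h5 : M ^ 3 ≤ ∏ j ∈ U.erase i, d j := by
        have h6 : d i * ∏ j ∈ U.erase i, d j = ∏ j ∈ U, d j := Finset.mul_prod_erase U d hi
        have h7 : M * M ^ 3 ≤ M * ∏ j ∈ U.erase i, d j := by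
          calc M * M ^ 3 = M ^ 4 := by ring
            _ ≤ ∏ j ∈ U, d j := h4
            _ = d i * ∏ j ∈ U.erase i, d j := h6.symm
            _ ≤ M * ∏ j ∈ U.erase i, d j := Nat.mul_le_mul_right _ (hd i hi)
        exact Nat.le_of_mul_le_mul_left h7 (by omega)
      obtain ⟨I, hI, h8⟩ := ih (U.erase i) (Finset.erase_ssubset hi)
        (fun j hj => hd j (Finset.mem_of_mem_erase hj)) h5
      exact ⟨I, hI.trans (Finset.erase_subset i U), h8⟩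

/-- a subset with product at least `M ^ 3`, less than `M ^ 4`, and small sum -/
theorem exists_part {ι : Type} [DecidableEq ι] (d : ι → ℕ) (M : ℕ) (hM : 2 ≤ M) (k : ℕ)
    (U : Finset ι) (hd : ∀ i ∈ U, d i ≤ M) (h : M ^ (4 * (k + 1)) ≤ ∏ i ∈ U, d i) :
    ∃ I ⊆ U, M ^ 3 ≤ ∏ i ∈ I, d i ∧ ∏ i ∈ I, d i < M ^ 4 ∧
      (k + 1) * ∑ i ∈ I, (d i - 1) ≤ ∑ i ∈ U, (d i - 1) := by
  induction k generalizing U with
  | zero =>
    obtain ⟨I, hI, h1, h2⟩ := exists_min d M hM U hd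
      ((Nat.pow_le_pow_right (by omega) (by norm_num)).trans h)
    refine ⟨I, hI, h1, h2, ?_⟩
    rw [zero_add, one_mul]
    exact Finset.sum_le_sum_of_subset hI
  | succ k ih =>
    obtain ⟨I, hI, h1, h2⟩ := exists_min d M hM U hd
      ((Nat.pow_le_pow_right (by omega) (by omega)).trans h)
    by_cases h3 : (k + 1 + 1) * ∑ i ∈ I, (d i - 1) ≤ ∑ i ∈ U, (d i - 1)
    · exact ⟨I, hI, h1, h2, h3⟩
    · push Not at h3
      have h4 : M ^ (4 * (k + 1)) ≤ ∏ i ∈ U \ I, d i := by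
        have h5 : (∏ i ∈ U \ I, d i) * ∏ i ∈ I, d i = ∏ i ∈ U, d i := Finset.prod_sdiff hI
        have h6 : M ^ 4 * M ^ (4 * (k + 1)) ≤ M ^ 4 * ∏ i ∈ U \ I, d i := by
          calc M ^ 4 * M ^ (4 * (k + 1)) = M ^ (4 * (k + 1 + 1)) := by rw [← pow_add]; congr 1; ring
            _ ≤ ∏ i ∈ U, d i := h
            _ = (∏ i ∈ I, d i) * ∏ i ∈ U \ I, d i := by rw [← h5, mul_comm]
            _ ≤ M ^ 4 * ∏ i ∈ U \ I, d i := Nat.mul_le_mul_right _ h2.le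
        exact Nat.le_of_mul_le_mul_left h6 (by positivity)
      obtain ⟨J, hJ, h7, h8, h9⟩ := ih (U \ I)
        (fun i hi => hd i (Finset.mem_sdiff.1 hi).1) h4
      refine ⟨J, hJ.trans Finset.sdiff_subset, h7, h8, ?_⟩
      have h10 : ∑ i ∈ U \ I, (d i - 1) + ∑ i ∈ I, (d i - 1) = ∑ i ∈ U, (d i - 1) :=
        Finset.sum_sdiff hI
      nlinarith

theorem prod_le_two_pow {ι : Type} [Fintype ι] (d : ι → ℕ) (hd : ∀ i, 2 ≤ d i) :
    ∏ i, d i ≤ 2 ^ ∑ i, (d i - 1) := by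
  rw [← Finset.prod_pow_eq_pow_sum]
  refine Finset.prod_le_prod (fun _ _ => Nat.zero_le _) fun i _ => ?_
  have h1 := hd i
  have h2 : d i - 1 < 2 ^ (d i - 1) := Nat.lt_two_pow_self
  omega

/-- the upper bound for formats with large products -/
theorem many {n k : ℕ} (hk : 4 ≤ k) (hn : 1 ≤ n) (d : Fin n → ℕ) (hd : ∀ i, 2 ≤ d i)
    (h : (1 + ∑ i, (d i - 1)) ^ (4 * k) ≤ ∏ i, d i) :
    ∃ R : ℕ, (R : ℝ) ≤ (1 + 2 / (k : ℝ) ^ 2) *
        ((∏ i, (d i : ℝ)) / (∑ i, ((d i : ℝ) - 1) + 1)) ∧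
      ∀ T : Ten (fun i => Fin (d i)), T ∈ Sums (fun i => Fin (d i)) R := by
  classical
  obtain ⟨s, hs⟩ : ∃ s, s = ∑ i, (d i - 1) := ⟨_, rfl⟩
  obtain ⟨M, hMdef⟩ : ∃ M, M = 1 + s := ⟨_, rfl⟩
  rw [← hs, ← hMdef] at h
  have hns : n ≤ s := by
    rw [hs]
    calc n = ∑ _i : Fin n, 1 := by simp
      _ ≤ _ := Finset.sum_le_sum fun i _ => by have := hd i; omega
  have hM2 : 2 ≤ M := by omega
  have hdM : ∀ i, d i ≤ M := by
    intro i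
    have h1 : d i - 1 ≤ ∑ i, (d i - 1) :=
      Finset.single_le_sum (f := fun i => d i - 1) (fun _ _ => Nat.zero_le _) (Finset.mem_univ i)
    omega
  -- `4 k ≤ s`
  have hks : 4 * k ≤ s := by
    have h1 : 2 ^ (4 * k) ≤ 2 ^ s := by
      calc 2 ^ (4 * k) ≤ M ^ (4 * k) := Nat.pow_le_pow_left hM2 _
        _ ≤ ∏ i, d i := h
        _ ≤ 2 ^ s := by rw [hs]; exact prod_le_two_pow d hd
    exact (Nat.pow_le_pow_iff_right (by norm_num)).1 h1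
  obtain ⟨k', rfl⟩ : ∃ k', k = k' + 1 := ⟨k - 1, by omega⟩
  obtain ⟨I, -, hI3, hI4, hIs⟩ := exists_part d M hM2 k' Finset.univ (fun i _ => hdM i) h
  set k := k' + 1 with hkdef
  have hIne : Nonempty {i // i ∈ I} := by
    by_contra hcon
    have h1 : I = ∅ := by
      rw [Finset.eq_empty_iff_forall_notMem]
      intro i hi
      exact hcon ⟨⟨i, hi⟩⟩
    rw [h1, Finset.prod_empty] at hI3
    have : 1 < M ^ 3 := Nat.one_lt_pow (by norm_num) (by omega)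
    omega
  have hJne : Nonempty {i // ¬ i ∈ I} := by
    by_contra hcon
    have h1 : I = Finset.univ := by
      rw [Finset.eq_univ_iff_forall]
      intro i
      by_contra hi
      exact hcon ⟨⟨i, hi⟩⟩
    rw [h1] at hI4
    have h2 : M ^ 4 ≤ M ^ (4 * k) := Nat.pow_le_pow_right (by omega) (by omega)
    omega
  set P₁ : ℝ := ∏ i : {i // i ∈ I}, (d i : ℝ) with hP₁
  set P₂ : ℝ := ∏ i : {i // ¬ i ∈ I}, (d i : ℝ) with hP₂
  set S₁ : ℝ := ∑ i : {i // i ∈ I}, ((d i : ℝ) - 1) with hS₁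
  set S : ℝ := ∑ i, ((d i : ℝ) - 1) with hS
  have hP₁I : P₁ = ((∏ i ∈ I, d i : ℕ) : ℝ) := by
    rw [hP₁, Nat.cast_prod]
    exact Finset.prod_coe_sort I fun i => (d i : ℝ)
  have hS₁I : S₁ = ((∑ i ∈ I, (d i - 1) : ℕ) : ℝ) := by
    rw [hS₁, Nat.cast_sum, Finset.sum_coe_sort I fun i => ((d i : ℝ) - 1)]
    exact Finset.sum_congr rfl fun i _ => by
      rw [Nat.cast_sub (by have := hd i; omega), Nat.cast_one]
  have hSs : S = s := by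
    rw [hS, hs, Nat.cast_sum]
    exact Finset.sum_congr rfl fun i _ => by
      rw [Nat.cast_sub (by have := hd i; omega), Nat.cast_one]
  have hP : (∏ i, (d i : ℝ)) = P₁ * P₂ := by
    rw [← (Equiv.sumCompl fun i => i ∈ I).prod_comp, Fintype.prod_sum_type]
    rfl
  have hMr : (M : ℝ) = 1 + S := by rw [hSs, hMdef]; push_cast; rfl
  have hM4k : 4 * (k : ℝ) + 1 ≤ M := by exact_mod_cast (by omega : 4 * k + 1 ≤ M)
  have hkr : (4 : ℝ) ≤ k := by exact_mod_cast hk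
  have hMpos : (0 : ℝ) < M := by linarith
  have hM16 : 16 * (k : ℝ) ^ 2 ≤ (M : ℝ) ^ 2 := by nlinarith
  have hP₁M : (M : ℝ) ^ 3 ≤ P₁ := by rw [hP₁I]; exact_mod_cast hI3
  have hP₁M' : P₁ ≤ (M : ℝ) ^ 4 := by rw [hP₁I]; exact_mod_cast hI4.le
  have hP₁0 : 0 < P₁ := lt_of_lt_of_le (by positivity) hP₁M
  have hPM : (M : ℝ) ^ (4 * k) ≤ P₁ * P₂ := by
    rw [← hP]
    exact_mod_cast h
  have hP₂M : (M : ℝ) ^ 12 ≤ P₂ := by
    have hP₂0 : 0 ≤ P₂ := Finset.prod_nonneg fun i _ => Nat.cast_nonneg _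
    have h1 : (M : ℝ) ^ 16 ≤ (M : ℝ) ^ (4 * k) :=
      pow_le_pow_right₀ (by linarith) (by omega)
    have h2 : (M : ℝ) ^ 4 * (M : ℝ) ^ 12 ≤ (M : ℝ) ^ 4 * P₂ := by
      calc (M : ℝ) ^ 4 * (M : ℝ) ^ 12 = (M : ℝ) ^ 16 := by ring
        _ ≤ P₁ * P₂ := h1.trans hPM
        _ ≤ (M : ℝ) ^ 4 * P₂ := mul_le_mul_of_nonneg_right hP₁M' hP₂0
    exact le_of_mul_le_mul_left h2 (by positivity)
  have hP₂0 : 0 < P₂ := lt_of_lt_of_le (by positivity) hP₂M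
  -- the power of two
  set e := Nat.clog 2 M with he
  have hMe : M ≤ 2 ^ e := Nat.le_pow_clog (by norm_num) M
  have he1 : 1 ≤ e := Nat.clog_pos (by norm_num) hM2
  have heM : 2 ^ e ≤ 2 * M := by
    have h1 : 2 ^ (e - 1) < M := Nat.pow_pred_clog_lt_self (by norm_num) (by omega)
    calc 2 ^ e = 2 * 2 ^ (e - 1) := by rw [← pow_succ', Nat.sub_add_cancel he1]
      _ ≤ 2 * M := Nat.mul_le_mul_left _ h1.le
  have hx' : 1 + S₁ ≤ 5 / (4 * k) * (1 + S) := by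
    have h1 : (k : ℝ) * S₁ ≤ S := by
      rw [hS₁I, hSs, hs]
      exact_mod_cast hIs
    have h2 : 4 * (k : ℝ) ≤ S := by
      rw [hSs]
      exact_mod_cast hks
    rw [div_mul_eq_mul_div, le_div_iff₀ (by positivity)]
    nlinarith
  have h8 : 8 * (1 + S) ≤ P₁ := by
    rw [← hMr]
    refine le_trans ?_ hP₁M
    nlinarith
  obtain ⟨R, hR, hT⟩ := greedy_equiv (Equiv.sumCompl fun i => i ∈ I) e he1 d
    (fun i => ⟨by have := hd i; omega, (hdM i).trans hMe⟩) (5 / (4 * k)) (by positivity)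
    (by rw [div_le_div_iff₀ (by positivity) (by norm_num)]; linarith) P₁ P₂ S₁ S rfl rfl rfl hS
    hx' h8
  refine ⟨R, hR.trans ?_, hT⟩
  rw [hP, add_comm S 1, ← hMr]
  set L : ℝ := P₁ * P₂ / M with hL
  have hL0 : 0 < L := by positivity
  have e1 : (1 + (5 / (4 * (k : ℝ))) ^ 2) * (P₁ * P₂) / M = (1 + 25 / (16 * k ^ 2)) * L := by
    rw [hL, div_pow, mul_pow]
    norm_num
    ring
  have e2 : P₂ ≤ 1 / (16 * k ^ 2) * L := by
    rw [hL, div_mul_div_comm, one_mul, le_div_iff₀ (by positivity)]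
    have h1 : 16 * (k : ℝ) ^ 2 * M ≤ P₁ := by
      calc 16 * (k : ℝ) ^ 2 * M ≤ (M : ℝ) ^ 2 * M := mul_le_mul_of_nonneg_right hM16 hMpos.le
        _ = (M : ℝ) ^ 3 := by ring
        _ ≤ P₁ := hP₁M
    nlinarith
  have e3 : P₁ * (2 ^ e * (2 ^ e - 1) * Fintype.card {i // ¬ i ∈ I} : ℕ) ≤
      1 / (16 * k ^ 2) * L := by
    have h1 : 2 ^ e * (2 ^ e - 1) * Fintype.card {i // ¬ i ∈ I} ≤ 4 * M ^ 3 := by
      have h2 : Fintype.card {i // ¬ i ∈ I} ≤ M := by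
        have h3 := Fintype.card_subtype_le fun i => ¬ i ∈ I
        rw [Fintype.card_fin] at h3
        omega
      calc 2 ^ e * (2 ^ e - 1) * Fintype.card {i // ¬ i ∈ I} ≤ (2 * M) * (2 * M) * M :=
            Nat.mul_le_mul (Nat.mul_le_mul heM (by omega)) h2
        _ = 4 * M ^ 3 := by ring
    have h2 : ((2 ^ e * (2 ^ e - 1) * Fintype.card {i // ¬ i ∈ I} : ℕ) : ℝ) ≤
        4 * (M : ℝ) ^ 3 := by exact_mod_cast h1
    rw [hL, div_mul_div_comm, one_mul, le_div_iff₀ (by positivity)]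
    have h3 : 4 * (M : ℝ) ^ 3 * (16 * (k : ℝ) ^ 2 * M) ≤ P₂ := by
      calc 4 * (M : ℝ) ^ 3 * (16 * (k : ℝ) ^ 2 * M) ≤ 4 * (M : ℝ) ^ 3 * ((M : ℝ) ^ 2 * M) := by
            gcongr
        _ = 4 * (M : ℝ) ^ 6 := by ring
        _ ≤ (M : ℝ) ^ 6 * (M : ℝ) ^ 6 := by
          have h5 : (4 : ℝ) ≤ (M : ℝ) ^ 6 := by
            calc (4 : ℝ) ≤ M := by linarith
              _ ≤ (M : ℝ) ^ 6 := le_self_pow₀ (by linarith) (by norm_num)
          exact mul_le_mul_of_nonneg_right h5 (by positivity)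
        _ = (M : ℝ) ^ 12 := by ring
        _ ≤ P₂ := hP₂M
    calc P₁ * (2 ^ e * (2 ^ e - 1) * Fintype.card {i // ¬ i ∈ I} : ℕ) * (16 * k ^ 2 * M)
        ≤ P₁ * (4 * (M : ℝ) ^ 3) * (16 * k ^ 2 * M) := by gcongr
      _ = P₁ * (4 * (M : ℝ) ^ 3 * (16 * (k : ℝ) ^ 2 * M)) := by ring
      _ ≤ P₁ * P₂ := mul_le_mul_of_nonneg_left h3 hP₁0.le
  rw [e1]
  have hk2 : (0 : ℝ) < (k : ℝ) ^ 2 := by positivity
  have h9 : (25 / (16 * (k : ℝ) ^ 2)) + 1 / (16 * (k : ℝ) ^ 2) + 1 / (16 * (k : ℝ) ^ 2) ≤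
      2 / (k : ℝ) ^ 2 := by
    rw [← add_div, ← add_div, div_le_div_iff₀ (by positivity) hk2]
    nlinarith
  calc (1 + 25 / (16 * (k : ℝ) ^ 2)) * L + P₂ +
        P₁ * (2 ^ e * (2 ^ e - 1) * Fintype.card {i // ¬ i ∈ I} : ℕ)
      ≤ (1 + 25 / (16 * (k : ℝ) ^ 2)) * L + 1 / (16 * k ^ 2) * L + 1 / (16 * k ^ 2) * L := by
        linarith
    _ = (1 + (25 / (16 * (k : ℝ) ^ 2) + 1 / (16 * (k : ℝ) ^ 2) + 1 / (16 * (k : ℝ) ^ 2))) * L := by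
        ring
    _ ≤ (1 + 2 / (k : ℝ) ^ 2) * L := by
        refine mul_le_mul_of_nonneg_right ?_ hL0.le
        linarith

end Pool.Agent.H93.TR
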