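import Pool.Agent.H93.TR.Bal
import Pool.Agent.H93.TR.Many
import Pool.Agent.H43.TR.EstBal

/-!
MP_b12e0e_ag (helper93): the upper bound for balanced formats.
-/

set_option autoImplicit false

open Set Function Module

namespace Pool.Agent.H93.TR

open Pool.Agent.H19.TR

/-- all tensors of the format `d` are sums of at most `c` products -/
def Bdd (n : ℕ) (d : Fin n → ℕ) (c : ℝ) : Prop :=
  ∃ R : ℕ, (R : ℝ) ≤ c ∧ ∀ T : Ten (fun i => Fin (d i)), T ∈ Sums (fun i => Fin (d i)) R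

/-- the smallest possible value of a typical rank -/
noncomputable def lwd (n : ℕ) (d : Fin n → ℕ) : ℝ :=
  (∏ i, (d i : ℝ)) / (∑ i, ((d i : ℝ) - 1) + 1)

theorem lwd_nonneg (n : ℕ) (d : Fin n → ℕ) (hd : ∀ i, 1 ≤ d i) : 0 ≤ lwd n d := by
  unfold lwd
  refine div_nonneg (Finset.prod_nonneg fun i _ => Nat.cast_nonneg _) ?_
  have : (0 : ℝ) ≤ ∑ i, ((d i : ℝ) - 1) := Finset.sum_nonneg fun i _ => by
    have : (1 : ℝ) ≤ d i := by exact_mod_cast hd i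
    linarith
  linarith

theorem bdd_many (n k : ℕ) (d : Fin n → ℕ) (hn : 1 ≤ n) (hk : 4 ≤ k) (hd : ∀ i, 2 ≤ d i)
    (h : (1 + ∑ i, (d i - 1)) ^ (4 * k) ≤ ∏ i, d i) :
    Bdd n d ((1 + 2 / (k : ℝ) ^ 2) * lwd n d) :=
  many hk hn d hd h

theorem bdd_bal (C : ℕ) (hC : 1 ≤ C) (n : ℕ) (d : Fin n → ℕ) (a₀ : ℕ) (hn : 6 ≤ n)
    (ha₀ : 40 ≤ a₀) (hd : ∀ i, a₀ ≤ d i ∧ d i ≤ C * a₀) :
    Bdd n d ((1 + 6 * (C : ℝ) ^ 3 * (n : ℝ) ^ 2 / a₀) * lwd n d) := by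
  obtain ⟨t, rfl⟩ : ∃ t, n = 3 + t := ⟨n - 3, by omega⟩
  let σ := Tuple.sort d
  have hσ : Monotone (d ∘ σ) := Tuple.monotone_sort d
  let e : Fin 3 ⊕ Fin t ≃ Fin (3 + t) := finSumFinEquiv.trans σ
  let dd : Fin 3 ⊕ Fin t → ℕ := fun i => d (e i)
  have h01 : dd (Sum.inl 0) ≤ dd (Sum.inl 1) := hσ (by
    show (finSumFinEquiv (Sum.inl (0 : Fin 3)) : Fin (3 + t)) ≤ finSumFinEquiv (Sum.inl 1)
    rw [finSumFinEquiv_apply_left, finSumFinEquiv_apply_left, Fin.le_def]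
    simp)
  have h12 : dd (Sum.inl 1) ≤ dd (Sum.inl 2) := hσ (by
    show (finSumFinEquiv (Sum.inl (1 : Fin 3)) : Fin (3 + t)) ≤ finSumFinEquiv (Sum.inl 2)
    rw [finSumFinEquiv_apply_left, finSumFinEquiv_apply_left, Fin.le_def]
    simp)
  have h2t : ∀ i : Fin t, dd (Sum.inl 2) ≤ dd (Sum.inr i) := fun i => hσ (by
    show (finSumFinEquiv (Sum.inl (2 : Fin 3)) : Fin (3 + t)) ≤ finSumFinEquiv (Sum.inr i)
    rw [finSumFinEquiv_apply_left, finSumFinEquiv_apply_right, Fin.le_def]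
    simp
    omega)
  have hdd : ∀ i, a₀ ≤ dd i ∧ dd i ≤ C * a₀ := fun i => hd _
  set a := dd (Sum.inl 0) with ha
  set b := dd (Sum.inl 1) with hb
  set c := dd (Sum.inl 2) with hc
  obtain ⟨D, hDdef⟩ : ∃ D, D = C * a₀ := ⟨_, rfl⟩
  have haa : a₀ ≤ a := (hdd _).1
  have hcD : c ≤ D := by rw [hDdef]; exact (hdd _).2
  have hDC : D ≤ C * a := by rw [hDdef]; exact Nat.mul_le_mul_left _ haa
  have hsJ : t * (c - 1) ≤ ∑ i : Fin t, (dd (Sum.inr i) - 1) := by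
    calc t * (c - 1) = ∑ _i : Fin t, (c - 1) := by simp
      _ ≤ _ := Finset.sum_le_sum fun i _ => Nat.sub_le_sub_right (h2t i) 1
  have hsJ' : ∑ i : Fin t, (dd (Sum.inr i) - 1) ≤ t * (D - 1) := by
    calc ∑ i : Fin t, (dd (Sum.inr i) - 1) ≤ ∑ _i : Fin t, (D - 1) :=
          Finset.sum_le_sum fun i _ => Nat.sub_le_sub_right (by rw [hDdef]; exact (hdd _).2) 1
      _ = t * (D - 1) := by simp
  have hNJ : c ^ t ≤ ∏ i : Fin t, dd (Sum.inr i) := by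
    calc c ^ t = ∏ _i : Fin t, c := by simp
      _ ≤ _ := Finset.prod_le_prod (fun _ _ => Nat.zero_le _) fun i _ => h2t i
  obtain ⟨h, o, k, hao, -, hkb, hkc, hcell, hcount, hest⟩ := Pool.Agent.H43.TR.est_bal t a b c D _ _
    C hC (by omega) (by omega) h01 h12 hcD hDC hsJ hsJ' hNJ
  obtain ⟨A, hA, hT⟩ := bal_upper dd (by omega) (D := D) (by omega)
    (fun i => by rw [hDdef]; exact (hdd _).2) hao hkb hkc hcell hcount
  refine ⟨h * k * (∏ i : Fin t, dd (Sum.inr i)) + a * b * A, ?_, fun T =>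
    Sums_equiv (fun i => Fin (d i)) e (fun T' => hT T') T⟩
  refine (hest A hA).trans ?_
  have hprod : (∏ i, (d i : ℝ)) = (a : ℝ) * b * c * (∏ i : Fin t, dd (Sum.inr i) : ℕ) := by
    rw [← e.prod_comp, Fintype.prod_sum_type, Fin.prod_univ_three]
    push_cast
    rfl
  have hsum : (∑ i, ((d i : ℝ) - 1)) = (((a : ℝ) - 1) + ((b : ℝ) - 1) + ((c : ℝ) - 1)) +
      (∑ i : Fin t, (dd (Sum.inr i) - 1) : ℕ) := by
    rw [← e.sum_comp, Fintype.sum_sum_type, Fin.sum_univ_three]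
    congr 1
    rw [Nat.cast_sum]
    exact Finset.sum_congr rfl fun i _ => by
      rw [Nat.cast_sub (by have := (hdd (Sum.inr i)).1; omega), Nat.cast_one]
  have hL : (a * b * c * (∏ i : Fin t, dd (Sum.inr i) : ℕ) : ℝ) /
      (1 + (((a : ℝ) - 1) + ((b : ℝ) - 1) + ((c : ℝ) - 1)) +
        (∑ i : Fin t, (dd (Sum.inr i) - 1) : ℕ)) = lwd (3 + t) d := by
    unfold lwd
    rw [hprod, hsum]
    congr 1
    ring
  rw [hL]
  refine mul_le_mul_of_nonneg_right ?_ (lwd_nonneg _ _ fun i => by have := (hd i).1; omega)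
  have h5 : (0 : ℝ) < a₀ := by exact_mod_cast (by omega : 0 < a₀)
  have h6 : (a₀ : ℝ) ≤ a := by exact_mod_cast haa
  have h7 : ((3 + t : ℕ) : ℝ) = t + 3 := by push_cast; ring
  rw [h7]
  gcongr

end Pool.Agent.H93.TR
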