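import Pool.Agent.H93.TR.Blk
import Pool.Agent.H93.TR.Asym

/-!
MP_b12e0e_ag (helper93): the base for formats of fixed order.
-/

set_option autoImplicit false

open Set Function Module

namespace Pool.Agent.H93.TR

open Pool.Agent.H19.TR

section
variable {h k m₁ m₂ o : ℕ} (dd : Fin 3 → ℕ) (e₀ : Fin (dd 0) ≃ (Fin h × Fin 2) ⊕ Fin o)
  (e₁ : Fin (dd 1) ≃ Fin k ⊕ Fin m₁) (e₂ : Fin (dd 2) ≃ Fin k ⊕ Fin m₂)
  (τ : Fin h × Fin k ↪ Fin m₁ × Fin m₂)

/-- the first vector of a point -/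
def y0 (e : Sg h k (dd 1) (dd 2) → ℝ) (j : Fin h × Fin k) : Fin (dd 0) → ℝ := fun a =>
  match e₀ a with
  | Sum.inl (i, b) => if i = j.1 then e (j, Sum.inl b) else 0
  | Sum.inr _ => 0

/-- the points -/
def yp (e : Sg h k (dd 1) (dd 2) → ℝ) (j : Fin h × Fin k) : Par (fun i : Fin 3 => Fin (dd i))
  | 0 => y0 dd e₀ e j
  | 1 => fun c => e (j, Sum.inr (Sum.inl c))
  | 2 => fun c => e (j, Sum.inr (Sum.inr c))

/-- the embedding of a block -/
def eb (i : Fin h) : (Xb (dd 1) (dd 2) → ℝ) →ₗ[ℝ] Ten (fun i : Fin 3 => Fin (dd i)) where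
  toFun F z := match e₀ (z 0) with
    | Sum.inl (i', b) => if i' = i then F (b, z 1, z 2) else 0
    | Sum.inr _ => 0
  map_add' F G := by
    funext z
    simp only [Pi.add_apply]
    rcases e₀ (z 0) with ⟨i', b⟩ | _
    · by_cases hi : i' = i <;> simp [hi]
    · simp
  map_smul' c F := by
    funext z
    simp only [Pi.smul_apply, smul_eq_mul, RingHom.id_apply]
    rcases e₀ (z 0) with ⟨i', b⟩ | _
    · by_cases hi : i' = i <;> simp [hi]
    · simp

theorem sg3 (a : Par (fun i : Fin 3 => Fin (dd i))) (z : (i : Fin 3) → Fin (dd i)) :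
    sg a z = a 0 (z 0) * a 1 (z 1) * a 2 (z 2) := by
  unfold sg
  rw [Fin.prod_univ_three]

theorem eb_T2 (e : Sg h k (dd 1) (dd 2) → ℝ) (i : Fin h) (j : Fin k) (l : Fin (dd 1)) :
    eb dd e₀ i (tp (fun b => e ((i, j), Sum.inl b)) (Pi.single l 1)
      (fun c => e ((i, j), Sum.inr (Sum.inr c)))) =
      sg (update (yp dd e₀ e (i, j)) 1 (Pi.single l 1)) := by
  funext z
  rw [sg3, update_self, update_of_ne (by decide), update_of_ne (by decide)]
  show (match e₀ (z 0) with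
    | Sum.inl (i', b) => if i' = i then tp _ _ _ (b, z 1, z 2) else 0
    | Sum.inr _ => 0) = y0 dd e₀ e (i, j) (z 0) * _ * e ((i, j), Sum.inr (Sum.inr (z 2)))
  unfold y0
  rcases e₀ (z 0) with ⟨i', b⟩ | _
  · by_cases hi : i' = i
    · simp only [hi, if_true, tp]
    · simp [hi]
  · simp

theorem eb_T3 (e : Sg h k (dd 1) (dd 2) → ℝ) (i : Fin h) (j : Fin k) (l : Fin (dd 2)) :
    eb dd e₀ i (tp (fun b => e ((i, j), Sum.inl b)) (fun c => e ((i, j), Sum.inr (Sum.inl c)))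
      (Pi.single l 1)) =
      sg (update (yp dd e₀ e (i, j)) 2 (Pi.single l 1)) := by
  funext z
  rw [sg3, update_self, update_of_ne (by decide), update_of_ne (by decide)]
  show (match e₀ (z 0) with
    | Sum.inl (i', b) => if i' = i then tp _ _ _ (b, z 1, z 2) else 0
    | Sum.inr _ => 0) = y0 dd e₀ e (i, j) (z 0) * e ((i, j), Sum.inr (Sum.inl (z 1))) * _
  unfold y0
  rcases e₀ (z 0) with ⟨i', b⟩ | _
  · by_cases hi : i' = i
    · simp only [hi, if_true, tp]
    · simp [hi]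
  · simp

theorem single_e₀ (i : Fin h) (a : Fin 2) (w : Fin (dd 0)) :
    (Pi.single (e₀.symm (Sum.inl (i, a))) 1 : Fin (dd 0) → ℝ) w =
      match e₀ w with
      | Sum.inl (i', b) => if i' = i then (Pi.single a 1 : Fin 2 → ℝ) b else 0
      | Sum.inr _ => 0 := by
  rw [Pi.single_apply]
  have h1 : w = e₀.symm (Sum.inl (i, a)) ↔ e₀ w = Sum.inl (i, a) := by
    rw [Equiv.eq_symm_apply]
  rcases hw : e₀ w with ⟨i', b⟩ | b
  · rw [hw] at h1
    by_cases hi : i' = i
    · subst hi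
      simp only [if_true, Pi.single_apply]
      by_cases hb : b = a
      · subst hb
        rw [if_pos (h1.2 rfl), if_pos rfl]
      · rw [if_neg (fun h2 => hb (by simpa using h1.1 h2)), if_neg hb]
    · simp only [if_neg hi]
      rw [if_neg (fun h2 => hi (by
        have := h1.1 h2
        simp only [Sum.inl.injEq, Prod.mk.injEq] at this
        exact this.1))]
  · rw [hw] at h1
    simp only
    rw [if_neg (fun h2 => by simpa using h1.1 h2)]

theorem eb_T1 (e : Sg h k (dd 1) (dd 2) → ℝ) (i : Fin h) (j : Fin h × Fin k) (a : Fin 2) :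
    eb dd e₀ i (tp (Pi.single a 1) (fun c => e (j, Sum.inr (Sum.inl c)))
      (fun c => e (j, Sum.inr (Sum.inr c)))) =
      sg (update (yp dd e₀ e j) 0 (Pi.single (e₀.symm (Sum.inl (i, a))) 1)) := by
  funext z
  rw [sg3, update_self, update_of_ne (by decide), update_of_ne (by decide), single_e₀]
  show (match e₀ (z 0) with
    | Sum.inl (i', b) => if i' = i then tp _ _ _ (b, z 1, z 2) else 0
    | Sum.inr _ => 0) = _ * e (j, Sum.inr (Sum.inl (z 1))) * e (j, Sum.inr (Sum.inr (z 2)))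
  rcases e₀ (z 0) with ⟨i', b⟩ | _
  · by_cases hi : i' = i
    · simp only [hi, if_true, tp]
    · simp [hi]
  · simp

/-- words of length three -/
def w3 (a : Fin (dd 0)) (b : Fin (dd 1)) (c : Fin (dd 2)) : (i : Fin 3) → Fin (dd i)
  | 0 => a
  | 1 => b
  | 2 => c

/-- the word of a monomial of a block -/
def wb (i : Fin h) (x : Xb (dd 1) (dd 2)) : (i : Fin 3) → Fin (dd i) :=
  w3 dd (e₀.symm (Sum.inl (i, x.1))) x.2.1 x.2.2

theorem eb_single (i : Fin h) (x : Xb (dd 1) (dd 2)) :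
    eb dd e₀ i (Pi.single x 1) = sg (bs (wb dd e₀ i x)) := by
  obtain ⟨a, l, c⟩ := x
  rw [← tp_single]
  funext z
  rw [sg3]
  show (match e₀ (z 0) with
    | Sum.inl (i', b) => if i' = i then tp _ _ _ (b, z 1, z 2) else 0
    | Sum.inr _ => 0) = (Pi.single (e₀.symm (Sum.inl (i, a))) 1 : Fin (dd 0) → ℝ) (z 0) *
      (Pi.single l 1 : Fin (dd 1) → ℝ) (z 1) * (Pi.single c 1 : Fin (dd 2) → ℝ) (z 2)
  rw [single_e₀]
  rcases e₀ (z 0) with ⟨i', b⟩ | _
  · by_cases hi : i' = i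
    · simp only [hi, if_true, tp]
    · simp [hi]
  · simp

include e₀ e₁ e₂ τ in
/-- the points of the base and the missing monomials -/
theorem base3 :
    ∃ (y : Fin (h * k) → Par (fun i : Fin 3 => Fin (dd i))) (ζ : Type) (_ : Fintype ζ)
      (zm : ζ → (i : Fin 3) → Fin (dd i)),
      Fintype.card ζ ≤ h * (k * m₂ + m₁ * k + 2 * (m₁ * m₂ - (h - 1) * k)) +
        o * (dd 1 * dd 2) ∧
      ⊤ ≤ Submodule.span ℝ
        ({S : Ten (fun i : Fin 3 => Fin (dd i)) |
          ∃ j i c, S = sg (update (y j) i (Pi.single c 1))} ∪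
          range fun u => (sg (bs (zm u)) : Ten (fun i : Fin 3 => Fin (dd i)))) := by
  classical
  obtain ⟨e, he⟩ := exists_blocks e₁ e₂ τ
  refine ⟨fun j => yp dd e₀ e (finProdFinEquiv.symm j),
    (Σ i : Fin h, ZT τ i) ⊕ (Fin o × Fin (dd 1) × Fin (dd 2)), inferInstance,
    Sum.elim (fun s => wb dd e₀ s.1 (zmon e₁ e₂ τ s.1 s.2))
      (fun s => w3 dd (e₀.symm (Sum.inr s.1)) s.2.1 s.2.2), ?_, ?_⟩
  · rw [Fintype.card_sum, Fintype.card_sigma, Fintype.card_prod, Fintype.card_prod,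
      Fintype.card_fin, Fintype.card_fin, Fintype.card_fin]
    have h1 : ∑ i : Fin h, Fintype.card (ZT τ i) ≤
        ∑ _i : Fin h, (k * m₂ + m₁ * k + 2 * (m₁ * m₂ - (h - 1) * k)) :=
      Finset.sum_le_sum fun i _ => card_ZT τ i
    rw [Finset.sum_const, Finset.card_univ, Fintype.card_fin, smul_eq_mul] at h1
    exact Nat.add_le_add_right h1 _
  · set U : Set (Ten (fun i : Fin 3 => Fin (dd i))) :=
      {S : Ten (fun i : Fin 3 => Fin (dd i)) | ∃ j i c,
        S = sg (update (yp dd e₀ e (finProdFinEquiv.symm j)) i (Pi.single c 1))} ∪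
      range fun u => (sg (bs ((Sum.elim (fun s => wb dd e₀ s.1 (zmon e₁ e₂ τ s.1 s.2))
        (fun s => w3 dd (e₀.symm (Sum.inr s.1)) s.2.1 s.2.2) :
        (Σ i : Fin h, ZT τ i) ⊕ (Fin o × Fin (dd 1) × Fin (dd 2)) →
          (i : Fin 3) → Fin (dd i)) u)) : Ten (fun i : Fin 3 => Fin (dd i))) with hU
    have hpt : ∀ (j : Fin h × Fin k) (i : Fin 3) (c : Fin (dd i)),
        sg (update (yp dd e₀ e j) i (Pi.single c 1)) ∈ Submodule.span ℝ U := by
      intro j i c
      refine Submodule.subset_span (Or.inl ⟨finProdFinEquiv j, i, c, ?_⟩)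
      rw [Equiv.symm_apply_apply]
    have hblock : ∀ (i : Fin h) (F : Xb (dd 1) (dd 2) → ℝ),
        eb dd e₀ i F ∈ Submodule.span ℝ U := by
      intro i F
      have h1 := Submodule.mem_map_of_mem (f := eb dd e₀ i) (he i (Submodule.mem_top (x := F)))
      rw [Submodule.map_span] at h1
      refine (Submodule.span_le.2 ?_) h1
      rintro S ⟨S', ⟨g, rfl⟩, rfl⟩
      rcases g with ⟨j, l⟩ | ⟨j, l⟩ | ⟨j, a⟩ | z
      · have h2 := eb_T2 dd e₀ e i j l
        have h3 := hpt (i, j) 1 l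
        rw [← h2] at h3
        exact h3
      · have h2 := eb_T3 dd e₀ e i j l
        have h3 := hpt (i, j) 2 l
        rw [← h2] at h3
        exact h3
      · have h2 := eb_T1 dd e₀ e i j a
        have h3 := hpt j 0 (e₀.symm (Sum.inl (i, a)))
        rw [← h2] at h3
        exact h3
      · show eb dd e₀ i (Pi.single (zmon e₁ e₂ τ i z) 1) ∈ Submodule.span ℝ U
        rw [eb_single]
        exact Submodule.subset_span (Or.inr ⟨Sum.inl ⟨i, z⟩, rfl⟩)
    intro T _
    have h4 : T = ∑ z, T z • sg (bs z) := by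
      funext y
      simp [Finset.sum_apply, sg_bs_apply]
    rw [h4]
    refine Submodule.sum_mem _ fun z _ => Submodule.smul_mem _ _ ?_
    rcases hz : e₀ (z 0) with ⟨i, b⟩ | a
    · have h5 := hblock i (Pi.single (b, z 1, z 2) 1)
      rw [eb_single] at h5
      have h6 : wb dd e₀ i (b, z 1, z 2) = z := by
        funext l
        fin_cases l
        · show e₀.symm (Sum.inl (i, b)) = z 0
          rw [← hz, Equiv.symm_apply_apply]
        · rfl
        · rfl
      rwa [h6] at h5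
    · refine Submodule.subset_span (Or.inr ⟨Sum.inr (a, z 1, z 2), ?_⟩)
      have h6 : w3 dd (e₀.symm (Sum.inr a)) (z 1) (z 2) = z := by
        funext l
        fin_cases l
        · show e₀.symm (Sum.inr a) = z 0
          rw [← hz, Equiv.symm_apply_apply]
        · rfl
        · rfl
      show sg (bs (w3 dd (e₀.symm (Sum.inr a)) (z 1) (z 2))) = sg (bs z)
      rw [h6]

end

/-- the upper bound for a format whose factors are numbered by `Fin 3 ⊕ Fin t` -/
theorem bal_upper {h k o t D : ℕ} (d : Fin 3 ⊕ Fin t → ℕ) (ht : 1 ≤ t) (hD2 : 2 ≤ D)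
    (hD : ∀ i : Fin t, d (Sum.inr i) ≤ D) (ha : d (Sum.inl 0) = 2 * h + o)
    (hkb : k ≤ d (Sum.inl 1)) (hkc : k ≤ d (Sum.inl 2))
    (hcell : h * k ≤ (d (Sum.inl 1) - k) * (d (Sum.inl 2) - k))
    (hcount : h * (k * (d (Sum.inl 2) - k) + (d (Sum.inl 1) - k) * k +
      2 * ((d (Sum.inl 1) - k) * (d (Sum.inl 2) - k) - (h - 1) * k)) +
      o * (d (Sum.inl 1) * d (Sum.inl 2)) ≤ (∑ i : Fin t, (d (Sum.inr i) - 1)) * (h * k)) :
    ∃ A : ℕ, A ≤ 4 * D ^ 2 * t ∧
      ∀ T : Ten (fun i : Fin 3 ⊕ Fin t => Fin (d i)),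
        T ∈ Sums (fun i : Fin 3 ⊕ Fin t => Fin (d i))
          (h * k * (∏ i : Fin t, d (Sum.inr i)) + d (Sum.inl 0) * d (Sum.inl 1) * A) := by
  classical
  have : Nonempty (Fin t) := ⟨⟨0, ht⟩⟩
  let e₀ : Fin (d (Sum.inl 0)) ≃ (Fin h × Fin 2) ⊕ Fin o := Fintype.equivOfCardEq (by
    rw [Fintype.card_sum, Fintype.card_prod, Fintype.card_fin, Fintype.card_fin, Fintype.card_fin,
      Fintype.card_fin, ha, mul_comm])
  let e₁ : Fin (d (Sum.inl 1)) ≃ Fin k ⊕ Fin (d (Sum.inl 1) - k) := Fintype.equivOfCardEq (by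
    rw [Fintype.card_sum, Fintype.card_fin, Fintype.card_fin, Fintype.card_fin]
    omega)
  let e₂ : Fin (d (Sum.inl 2)) ≃ Fin k ⊕ Fin (d (Sum.inl 2) - k) := Fintype.equivOfCardEq (by
    rw [Fintype.card_sum, Fintype.card_fin, Fintype.card_fin, Fintype.card_fin]
    omega)
  obtain ⟨τ⟩ : Nonempty (Fin h × Fin k ↪ Fin (d (Sum.inl 1) - k) × Fin (d (Sum.inl 2) - k)) :=
    Function.Embedding.nonempty_of_card_le (by
      rw [Fintype.card_prod, Fintype.card_prod, Fintype.card_fin, Fintype.card_fin,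
        Fintype.card_fin, Fintype.card_fin]
      exact hcell)
  obtain ⟨y, ζ, _, zm, hζ, hspan⟩ := base3 (fun i : Fin 3 => d (Sum.inl i)) e₀ e₁ e₂ τ
  -- labels
  set e := Nat.clog 2 D with he
  have hqe : D ≤ 2 ^ e := Nat.le_pow_clog (by norm_num) D
  have he1 : 1 ≤ e := Nat.clog_pos (by norm_num) hD2
  have heq : 2 ^ e ≤ 2 * D := by
    have h1 : 2 ^ (e - 1) < D := Nat.pow_pred_clog_lt_self (by norm_num) (by omega)
    calc 2 ^ e = 2 * 2 ^ (e - 1) := by rw [← pow_succ', Nat.sub_add_cancel he1]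
      _ ≤ 2 * D := Nat.mul_le_mul_left _ h1.le
  obtain ⟨A, _, _, φ, h2, hA, hφ⟩ := exists_lab e he1 (fun i : Fin t => Fin (d (Sum.inr i)))
    fun i => by
      rw [Fintype.card_fin]
      exact (hD i).trans hqe
  rw [Fintype.card_fin] at hA
  refine ⟨Fintype.card A, ?_, fun T => ?_⟩
  · calc Fintype.card A ≤ 2 ^ e * (2 ^ e - 1) * t := hA
      _ ≤ (2 * D) * (2 * D) * t := Nat.mul_le_mul_right _ (Nat.mul_le_mul heq (by omega))
      _ = 4 * D ^ 2 * t := by ring
  · have hsd : (sdim fun i : Fin t => Fin (d (Sum.inr i))) = ∑ i : Fin t, (d (Sum.inr i) - 1) := by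
      unfold sdim
      simp
    have h3 := span_upper (α := fun i : Fin 3 ⊕ Fin t => Fin (d i)) (2 : Fin 3) h2 φ hφ y zm
      (by rw [hsd]; exact hζ.trans hcount) hspan T
    have hc1 : Fintype.card ((i : Fin t) → Fin (d (Sum.inr i))) = ∏ i : Fin t, d (Sum.inr i) := by
      rw [Fintype.card_pi]
      exact Finset.prod_congr rfl fun i _ => Fintype.card_fin _
    have hc2 : Fintype.card ((i : {i : Fin 3 // i ≠ 2}) → Fin (d (Sum.inl i.1))) =
        d (Sum.inl 0) * d (Sum.inl 1) := by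
      rw [Fintype.card_pi]
      simp only [Fintype.card_fin]
      have h4 : (∏ i : {i : Fin 3 // i ≠ 2}, d (Sum.inl i.1)) =
          ∏ i ∈ Finset.univ.filter (fun i : Fin 3 => i ≠ 2), d (Sum.inl i) :=
        (Finset.prod_subtype (Finset.univ.filter fun i : Fin 3 => i ≠ 2)
          (p := fun i : Fin 3 => i ≠ 2) (by simp) (fun i => d (Sum.inl i))).symm
      rw [h4, Finset.prod_filter, Fin.prod_univ_three]
      simp
    rw [hc1, hc2] at h3
    exact h3

end Pool.Agent.H93.TR
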