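import Pool.Agent.H93.TR.Bal
import Pool.Agent.H19.TR.LabG

/-!
MP_b12e0e_ag (helper93): the upper bound with labels which may collide.
-/

set_option autoImplicit false

open Set Function Module

namespace Pool.Agent.H93.TR

open Pool.Agent.H19.TR

section
variable {ι₁ ι₂ : Type} [Fintype ι₁] [DecidableEq ι₁] [Fintype ι₂] [DecidableEq ι₂]
  {α₁ : ι₁ → Type} [∀ i, DecidableEq (α₁ i)]
  {α₂ : ι₂ → Type} [∀ i, Fintype (α₂ i)] [∀ i, DecidableEq (α₂ i)]
  {A : Type} (f : ((i : ι₂) → α₂ i) → A) {r : ℕ}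

/-- the special choice at the word `x`: tangent spaces of the `y j` and few basis tensors -/
theorem exists_special_labG {g : ℕ} (hf : LabG f g) (y : Fin r → Par α₁) {ζ : Type} [Fintype ζ]
    (zm : ζ → (i : ι₁) → α₁ i) (hζ : Fintype.card ζ ≤ g * r)
    (hspan : ⊤ ≤ Submodule.span ℝ ({S : Ten α₁ | ∃ j i c, S = sg (update (y j) i (Pi.single c 1))} ∪
      range fun u => (sg (bs (zm u)) : Ten α₁)))
    (x : (i : ι₂) → α₂ i) :
    ∃ q : A → Fin r → Par α₁, ⊤ ≤ Submodule.span ℝ (range (gen f r q x)) := by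
  classical
  obtain ⟨N, hN, hN1, hN2⟩ := hf x
  have h2 : Fintype.card ζ ≤ Fintype.card (N × Fin r) := by
    rw [Fintype.card_prod, Fintype.card_coe, Fintype.card_fin]
    exact hζ.trans (Nat.mul_le_mul_right _ hN)
  obtain ⟨e⟩ := Function.Embedding.nonempty_of_card_le h2
  let q : A → Fin r → Par α₁ := fun c j =>
    if c = f x then y j
    else if h : ∃ u : ζ, f (update x (e u).1.1.1 (e u).1.1.2) = c ∧ (e u).2 = j then
      bs (zm h.choose)
    else y j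
  refine ⟨q, hspan.trans (Submodule.span_mono ?_)⟩
  rintro S (⟨j, i, c, rfl⟩ | ⟨u, rfl⟩)
  · refine ⟨Sum.inl (j, ⟨i, c⟩), ?_⟩
    show sg (update (q (f x) j) i (Pi.single c 1)) = _
    have h4 : q (f x) j = y j := if_pos rfl
    rw [h4]
  · refine ⟨Sum.inr ((e u).1.1, (e u).2), ?_⟩
    show sg (q (f (update x (e u).1.1.1 (e u).1.1.2)) (e u).2) = sg (bs (zm u))
    have h5 : ∃ u' : ζ, f (update x (e u').1.1.1 (e u').1.1.2) =
        f (update x (e u).1.1.1 (e u).1.1.2) ∧ (e u').2 = (e u).2 := ⟨u, rfl, rfl⟩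
    have h6 : q (f (update x (e u).1.1.1 (e u).1.1.2)) (e u).2 = bs (zm h5.choose) := by
      show (if _ = f x then _ else _) = _
      rw [if_neg (hN1 _ (e u).1.2), dif_pos h5]
    have h7 : h5.choose = u := by
      apply e.injective
      have h8 := h5.choose_spec
      refine Prod.ext (Subtype.ext ?_) h8.2
      exact hN2 _ (e h5.choose).1.2 _ (e u).1.2 h8.1
    rw [h6, h7]

end

section
variable {ι₁ ι₂ : Type} [Fintype ι₁] [DecidableEq ι₁] [Fintype ι₂] [DecidableEq ι₂]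
  {α : ι₁ ⊕ ι₂ → Type} [∀ i, Fintype (α i)] [∀ i, DecidableEq (α i)]

/-- the main upper bound, span version, with colliding labels -/
theorem span_upper_labG (i₀ : ι₁) {A : Type} [AddCommGroup A] [Fintype A]
    (h2 : ∀ g : A, g + g = 0) (φ : (i : ι₂) → α (Sum.inr i) → A) {g : ℕ}
    (hφ : LabG (fun x : (i : ι₂) → α (Sum.inr i) => ∑ i, φ i (x i)) g) {r : ℕ}
    (y : Fin r → Par fun i : ι₁ => α (Sum.inl i)) {ζ : Type} [Fintype ζ]
    (zm : ζ → (i : ι₁) → α (Sum.inl i)) (hζ : Fintype.card ζ ≤ g * r)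
    (hspan : ⊤ ≤ Submodule.span ℝ
      ({S : Ten (fun i : ι₁ => α (Sum.inl i)) |
        ∃ j i c, S = sg (update (y j) i (Pi.single c 1))} ∪
        range fun u => (sg (bs (zm u)) : Ten (fun i : ι₁ => α (Sum.inl i))))) (T : Ten α) :
    T ∈ Sums α (r * Fintype.card ((i : ι₂) → α (Sum.inr i)) +
      Fintype.card ((i : {i : ι₁ // i ≠ i₀}) → α (Sum.inl i)) * Fintype.card A) := by
  classical
  have : Nonempty (ι₁ ⊕ ι₂) := ⟨Sum.inl i₀⟩
  set f : ((i : ι₂) → α (Sum.inr i)) → A := fun x => ∑ i, φ i (x i) with hf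
  obtain ⟨p, hp⟩ := exists_generic_span f (exists_special_labG f hφ y zm hζ hspan)
  have hspan' := span_lab f p hp
  have hT0 : (∑ l : ((i : ι₂) → α (Sum.inr i)) × Fin r,
      sg (jn (p (f l.1) l.2) (bs l.1)) : Ten α) ∈
      Sums α (Fintype.card ((i : {i : ι₁ // i ≠ i₀}) → α (Sum.inl i)) * Fintype.card A) := by
    have h3 : (∑ l : ((i : ι₂) → α (Sum.inr i)) × Fin r,
        sg (jn (p (f l.1) l.2) (bs l.1)) : Ten α) = fun y : (i : ι₁ ⊕ ι₂) → α i =>
        (fun z a => ∑ j, sg (p a j) z) (fun i => y (Sum.inl i)) (∑ i, φ i (y (Sum.inr i))) := by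
      funext y
      rw [sum_lab]
    rw [h3]
    exact lab_mem_Sums_free h2 φ i₀ fun z a => ∑ j, sg (p a j) z
  have h4 := all_mem_gen (fun l : ((i : ι₂) → α (Sum.inr i)) × Fin r =>
    jn (p (f l.1) l.2) (bs l.1)) hspan' hT0 T
  rwa [Fintype.card_prod, Fintype.card_fin, mul_comm _ r] at h4

end

/-- the upper bound for a format with five factors -/
theorem bal_upper5 {h k o v e : ℕ} (d : Fin 3 ⊕ Fin 2 → ℕ)
    (hde : ∀ i : Fin 2, d (Sum.inr i) ≤ 2 ^ e) (hve : v ≤ e) (ha : d (Sum.inl 0) = 2 * h + o)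
    (hkb : k ≤ d (Sum.inl 1)) (hkc : k ≤ d (Sum.inl 2))
    (hcell : h * k ≤ (d (Sum.inl 1) - k) * (d (Sum.inl 2) - k))
    (hcount : h * (k * (d (Sum.inl 2) - k) + (d (Sum.inl 1) - k) * k +
      2 * ((d (Sum.inl 1) - k) * (d (Sum.inl 2) - k) - (h - 1) * k)) +
      o * (d (Sum.inl 1) * d (Sum.inl 2)) ≤
        ((d (Sum.inr 0) - 1) + (d (Sum.inr 1) - 1) - (2 ^ v - 1)) * (h * k))
    (T : Ten (fun i : Fin 3 ⊕ Fin 2 => Fin (d i))) :
    T ∈ Sums (fun i : Fin 3 ⊕ Fin 2 => Fin (d i))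
      (h * k * (∏ i : Fin 2, d (Sum.inr i)) +
        d (Sum.inl 0) * d (Sum.inl 1) * (2 ^ e * 2 ^ (e - v))) := by
  classical
  let e₀ : Fin (d (Sum.inl 0)) ≃ (Fin h × Fin 2) ⊕ Fin o := Fintype.equivOfCardEq (by
    rw [Fintype.card_sum, Fintype.card_prod, Fintype.card_fin, Fintype.card_fin, Fintype.card_fin,
      Fintype.card_fin, ha, mul_comm])
  let e₁ : Fin (d (Sum.inl 1)) ≃ Fin k ⊕ Fin (d (Sum.inl 1) - k) := Fintype.equivOfCardEq (by
    rw [Fintype.card_sum, Fintype.card_fin, Fintype.card_fin, Fintype.card_fin]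
    omega)
  let e₂ : Fin (d (Sum.inl 2)) ≃ Fin k ⊕ Fin (d (Sum.inl 2) - k) := Fintype.equivOfCardEq (by
    rw [Fintype.card_sum, Fintype.card_fin, Fintype.card_fin, Fintype.card_fin]
    omega)
  obtain ⟨τ⟩ : Nonempty (Fin h × Fin k ↪ Fin (d (Sum.inl 1) - k) × Fin (d (Sum.inl 2) - k)) :=
    Function.Embedding.nonempty_of_card_le (by
      rw [Fintype.card_prod, Fintype.card_prod, Fintype.card_fin, Fintype.card_fin,
        Fintype.card_fin, Fintype.card_fin]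
      exact hcell)
  obtain ⟨y, ζ, _, zm, hζ, hspan⟩ := base3 (fun i : Fin 3 => d (Sum.inl i)) e₀ e₁ e₂ τ
  obtain ⟨A, _, _, φ, h2, hA, hφ⟩ := exists_labG2 (fun i : Fin 2 => d (Sum.inr i)) v e hde hve
  have h3 := span_upper_labG (α := fun i : Fin 3 ⊕ Fin 2 => Fin (d i)) (2 : Fin 3) h2 φ hφ y zm
    (hζ.trans hcount) hspan T
  have hc1 : Fintype.card ((i : Fin 2) → Fin (d (Sum.inr i))) = ∏ i : Fin 2, d (Sum.inr i) := by
    rw [Fintype.card_pi]
    exact Finset.prod_congr rfl fun i _ => Fintype.card_fin _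
  have hc2 : Fintype.card ((i : {i : Fin 3 // i ≠ 2}) → Fin (d (Sum.inl i.1))) =
      d (Sum.inl 0) * d (Sum.inl 1) := by
    rw [Fintype.card_pi]
    simp only [Fintype.card_fin]
    have h4 : (∏ i : {i : Fin 3 // i ≠ 2}, d (Sum.inl i.1)) =
        ∏ i ∈ Finset.univ.filter (fun i : Fin 3 => i ≠ 2), d (Sum.inl i) :=
      (Finset.prod_subtype (Finset.univ.filter fun i : Fin 3 => i ≠ 2)
        (p := fun i : Fin 3 => i ≠ 2) (by simp) (fun i => d (Sum.inl i))).symm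
    rw [h4, Finset.prod_filter, Fin.prod_univ_three]
    simp
  rw [hc1, hc2, hA] at h3
  exact h3

end Pool.Agent.H93.TR
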