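import Pool.Agent.H93.TR.BalFin
import Pool.Agent.H93.TR.Bal5
import Pool.Agent.H43.TR.Est5Bal

/-!
MP_b12e0e_ag (helper93): the upper bound for balanced formats with five factors.
-/

set_option autoImplicit false

open Set Function Module

namespace Pool.Agent.H93.TR

open Pool.Agent.H19.TR

theorem bdd_bal5 (C : ℕ) (hC : 1 ≤ C) (d : Fin 5 → ℕ) (a₀ : ℕ)
    (ha₀ : 10000 ≤ a₀) (hd : ∀ i, a₀ ≤ d i ∧ d i ≤ C * a₀) :
    Bdd 5 d ((1 + 100 * (C : ℝ) ^ 3 / Real.sqrt a₀) * lwd 5 d) := by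
  let σ := Tuple.sort d
  have hσ : Monotone (d ∘ σ) := Tuple.monotone_sort d
  let e : Fin 3 ⊕ Fin 2 ≃ Fin 5 := finSumFinEquiv.trans σ
  let dd : Fin 3 ⊕ Fin 2 → ℕ := fun i => d (e i)
  have h01 : dd (Sum.inl 0) ≤ dd (Sum.inl 1) := hσ (by
    show (finSumFinEquiv (Sum.inl (0 : Fin 3)) : Fin (3 + 2)) ≤ finSumFinEquiv (Sum.inl 1)
    rw [finSumFinEquiv_apply_left, finSumFinEquiv_apply_left, Fin.le_def]
    simp)
  have h12 : dd (Sum.inl 1) ≤ dd (Sum.inl 2) := hσ (by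
    show (finSumFinEquiv (Sum.inl (1 : Fin 3)) : Fin (3 + 2)) ≤ finSumFinEquiv (Sum.inl 2)
    rw [finSumFinEquiv_apply_left, finSumFinEquiv_apply_left, Fin.le_def]
    simp)
  have h2t : ∀ i : Fin 2, dd (Sum.inl 2) ≤ dd (Sum.inr i) := fun i => hσ (by
    show (finSumFinEquiv (Sum.inl (2 : Fin 3)) : Fin (3 + 2)) ≤ finSumFinEquiv (Sum.inr i)
    rw [finSumFinEquiv_apply_left, finSumFinEquiv_apply_right, Fin.le_def]
    simp
    omega)
  have hdd : ∀ i, a₀ ≤ dd i ∧ dd i ≤ C * a₀ := fun i => hd _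
  set a := dd (Sum.inl 0) with ha
  set b := dd (Sum.inl 1) with hb
  set c := dd (Sum.inl 2) with hc
  obtain ⟨D, hDdef⟩ : ∃ D, D = C * a₀ := ⟨_, rfl⟩
  have haa : a₀ ≤ a := (hdd _).1
  have hcD : c ≤ D := by rw [hDdef]; exact (hdd _).2
  have hDC : D ≤ C * a := by rw [hDdef]; exact Nat.mul_le_mul_left _ haa
  have hsJ : 2 * (c - 1) ≤ ∑ i : Fin 2, (dd (Sum.inr i) - 1) := by
    calc 2 * (c - 1) = ∑ _i : Fin 2, (c - 1) := by simp
      _ ≤ _ := Finset.sum_le_sum fun i _ => Nat.sub_le_sub_right (h2t i) 1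
  have hsJ' : ∑ i : Fin 2, (dd (Sum.inr i) - 1) ≤ 2 * (D - 1) := by
    calc ∑ i : Fin 2, (dd (Sum.inr i) - 1) ≤ ∑ _i : Fin 2, (D - 1) :=
          Finset.sum_le_sum fun i _ => Nat.sub_le_sub_right (by rw [hDdef]; exact (hdd _).2) 1
      _ = 2 * (D - 1) := by simp
  have hNJ : c ^ 2 ≤ ∏ i : Fin 2, dd (Sum.inr i) := by
    calc c ^ 2 = ∏ _i : Fin 2, c := by simp
      _ ≤ _ := Finset.prod_le_prod (fun _ _ => Nat.zero_le _) fun i _ => h2t i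
  obtain ⟨h, o, k, v, ee, hao, -, hkb, hkc, hcell, hDe, hve, hcount, hest⟩ :=
    Pool.Agent.H43.TR.est5_bal a b c D _ _ C hC (by omega) h01 h12 hcD hDC hsJ hsJ' hNJ
  rw [Fin.sum_univ_two] at hcount
  have hT := bal_upper5 dd (e := ee) (v := v)
    (fun i => (by rw [hDdef]; exact (hdd _).2 : dd (Sum.inr i) ≤ D).trans hDe) hve hao hkb hkc
    hcell hcount
  refine ⟨h * k * (∏ i : Fin 2, dd (Sum.inr i)) + a * b * (2 ^ ee * 2 ^ (ee - v)), ?_, fun T =>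
    Sums_equiv (fun i => Fin (d i)) e (fun T' => hT T') T⟩
  refine hest.trans ?_
  have hprod : (∏ i, (d i : ℝ)) = (a : ℝ) * b * c * (∏ i : Fin 2, dd (Sum.inr i) : ℕ) := by
    rw [← e.prod_comp, Fintype.prod_sum_type, Fin.prod_univ_three]
    push_cast
    rfl
  have hsum : (∑ i, ((d i : ℝ) - 1)) = (((a : ℝ) - 1) + ((b : ℝ) - 1) + ((c : ℝ) - 1)) +
      (∑ i : Fin 2, (dd (Sum.inr i) - 1) : ℕ) := by
    rw [← e.sum_comp, Fintype.sum_sum_type, Fin.sum_univ_three]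
    congr 1
    rw [Nat.cast_sum]
    exact Finset.sum_congr rfl fun i _ => by
      rw [Nat.cast_sub (by have := (hdd (Sum.inr i)).1; omega), Nat.cast_one]
  have hL : (a * b * c * (∏ i : Fin 2, dd (Sum.inr i) : ℕ) : ℝ) /
      (1 + (((a : ℝ) - 1) + ((b : ℝ) - 1) + ((c : ℝ) - 1)) +
        (∑ i : Fin 2, (dd (Sum.inr i) - 1) : ℕ)) = lwd 5 d := by
    unfold lwd
    rw [hprod, hsum]
    congr 1
    ring
  rw [hL]
  refine mul_le_mul_of_nonneg_right ?_ (lwd_nonneg _ _ fun i => by have := (hd i).1; omega)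
  have h5 : (0 : ℝ) < a₀ := by exact_mod_cast (by omega : 0 < a₀)
  have h6 : (a₀ : ℝ) ≤ a := by exact_mod_cast haa
  gcongr

end Pool.Agent.H93.TR
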