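import Pool.Agent.H93.TR.Fix

/-!
MP_b12e0e_ag (helper93): products in a threefold tensor product whose tangent spaces are as
independent as possible: blocks of dimension two in the first factor.
-/

set_option autoImplicit false

open Set Function Module

namespace Pool.Agent.H93.TR

open Pool.Agent.H19.TR

section
variable {h k m₁ m₂ b c : ℕ} (e₁ : Fin b ≃ Fin k ⊕ Fin m₁) (e₂ : Fin c ≃ Fin k ⊕ Fin m₂)
  (τ : Fin h × Fin k ↪ Fin m₁ × Fin m₂)

/-- parameters of the points -/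
abbrev Sg (h k b c : ℕ) : Type := (Fin h × Fin k) × (Fin 2 ⊕ (Fin b ⊕ Fin c))

/-- indices of a block -/
abbrev Xb (b c : ℕ) : Type := Fin 2 × Fin b × Fin c

/-- names of the monomials needed in the block `i` -/
abbrev ZT (i : Fin h) : Type :=
  (Fin k × Fin m₂) ⊕ ((Fin m₁ × Fin k) ⊕
    (Fin 2 × {c : Fin m₁ × Fin m₂ // ¬ ∃ p : Fin h × Fin k, p.1 ≠ i ∧ τ p = c}))

/-- the monomials needed in the block `i` -/
def zmon (i : Fin h) : ZT τ i → Xb b c
  | Sum.inl (a, a') => (0, e₁.symm (Sum.inl a), e₂.symm (Sum.inr a'))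
  | Sum.inr (Sum.inl (a, a')) => (0, e₁.symm (Sum.inr a), e₂.symm (Sum.inl a'))
  | Sum.inr (Sum.inr (a, p)) => (a, e₁.symm (Sum.inr p.1.1), e₂.symm (Sum.inr p.1.2))

/-- products of three vectors -/
def tp {R : Type} [CommRing R] (U : Fin 2 → R) (V : Fin b → R) (W : Fin c → R) : Xb b c → R :=
  fun x => U x.1 * V x.2.1 * W x.2.2

/-- names of the vectors available in the block `i` -/
abbrev Gb (b c : ℕ) (i : Fin h) : Type :=
  (Fin k × Fin b) ⊕ ((Fin k × Fin c) ⊕ (((Fin h × Fin k) × Fin 2) ⊕ ZT τ i))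

/-- the vectors available in the block `i` -/
def bv {R : Type} [CommRing R] (i : Fin h) (e : Sg h k b c → R) : Gb τ b c i → Xb b c → R
  | Sum.inl (j, l) => tp (fun b => e ((i, j), Sum.inl b)) (Pi.single l 1)
      (fun c => e ((i, j), Sum.inr (Sum.inr c)))
  | Sum.inr (Sum.inl (j, l)) => tp (fun b => e ((i, j), Sum.inl b))
      (fun c => e ((i, j), Sum.inr (Sum.inl c))) (Pi.single l 1)
  | Sum.inr (Sum.inr (Sum.inl (j, a))) => tp (Pi.single a 1)
      (fun c => e (j, Sum.inr (Sum.inl c))) (fun c => e (j, Sum.inr (Sum.inr c)))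
  | Sum.inr (Sum.inr (Sum.inr z)) => Pi.single (zmon e₁ e₂ τ i z) 1

theorem map_single {X R S : Type} [DecidableEq X] [CommRing R] [CommRing S] (φ : R →+* S)
    (a x : X) : φ ((Pi.single a 1 : X → R) x) = (Pi.single a 1 : X → S) x := by
  by_cases hx : x = a
  · subst hx
    simp
  · simp [Pi.single_eq_of_ne hx]

theorem map_bv {R S : Type} [CommRing R] [CommRing S] (φ : R →+* S) (i : Fin h)
    (e : Sg h k b c → R) (g : Gb τ b c i) (x : Xb b c) :
    φ (bv e₁ e₂ τ i e g x) = bv e₁ e₂ τ i (fun s => φ (e s)) g x := by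
  rcases g with ⟨j, l⟩ | ⟨j, l⟩ | ⟨j, a⟩ | z
  · simp only [bv, tp, map_mul, map_single]
  · simp only [bv, tp, map_mul, map_single]
  · simp only [bv, tp, map_mul, map_single]
  · simp only [bv, map_single]

/-- the special position for the block `i` -/
noncomputable def spb (i : Fin h) : Sg h k b c → ℝ
  | (j, Sum.inl a) => if a = 0 then ((j.2 : ℕ) : ℝ) else 1
  | (j, Sum.inr (Sum.inl l)) =>
      if j.1 = i then (Pi.single (e₁.symm (Sum.inl j.2)) 1 : Fin b → ℝ) l
      else (Pi.single (e₁.symm (Sum.inr (τ j).1)) 1 : Fin b → ℝ) l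
  | (j, Sum.inr (Sum.inr l)) =>
      if j.1 = i then (Pi.single (e₂.symm (Sum.inl j.2)) 1 : Fin c → ℝ) l
      else (Pi.single (e₂.symm (Sum.inr (τ j).2)) 1 : Fin c → ℝ) l

theorem tp_single (a : Fin 2) (l : Fin b) (p : Fin c) :
    tp (Pi.single a 1) (Pi.single l 1) (Pi.single p 1) = (Pi.single (a, l, p) 1 : Xb b c → ℝ) := by
  funext ⟨a', l', p'⟩
  unfold tp
  simp only [Pi.single_apply, Prod.mk.injEq]
  by_cases h1 : a' = a <;> by_cases h2 : l' = l <;> by_cases h3 : p' = p <;> simp [h1, h2, h3]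

theorem tp_two (U : Fin 2 → ℝ) (l : Fin b) (p : Fin c) :
    tp U (Pi.single l 1) (Pi.single p 1) =
      U 0 • (Pi.single (0, l, p) 1 : Xb b c → ℝ) + U 1 • (Pi.single (1, l, p) 1 : Xb b c → ℝ) := by
  rw [← tp_single, ← tp_single]
  funext ⟨a', l', p'⟩
  simp only [tp, Pi.add_apply, Pi.smul_apply, smul_eq_mul, Pi.single_apply]
  fin_cases a' <;> simp

theorem both_mem (S : Submodule ℝ (Xb b c → ℝ)) (s : ℝ) (U : Fin 2 → ℝ) (h0 : U 0 = s)
    (h1 : U 1 = 1) (l : Fin b) (p : Fin c) (hU : tp U (Pi.single l 1) (Pi.single p 1) ∈ S)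
    (hE : (Pi.single (0, l, p) 1 : Xb b c → ℝ) ∈ S) (a : Fin 2) :
    (Pi.single (a, l, p) 1 : Xb b c → ℝ) ∈ S := by
  have h2 : (Pi.single (1, l, p) 1 : Xb b c → ℝ) ∈ S := by
    have h3 : (Pi.single (1, l, p) 1 : Xb b c → ℝ) =
        tp U (Pi.single l 1) (Pi.single p 1) - s • (Pi.single (0, l, p) 1 : Xb b c → ℝ) := by
      rw [tp_two, h0, h1, one_smul, add_sub_cancel_left]
    rw [h3]
    exact S.sub_mem hU (S.smul_mem _ hE)
  fin_cases a
  · exact hE
  · exact h2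

theorem spb_span (i : Fin h) :
    ⊤ ≤ Submodule.span ℝ (range (bv e₁ e₂ τ i (spb e₁ e₂ τ i))) := by
  set S := Submodule.span ℝ (range (bv e₁ e₂ τ i (spb e₁ e₂ τ i))) with hS
  have hmem : ∀ g, bv e₁ e₂ τ i (spb e₁ e₂ τ i) g ∈ S := fun g => Submodule.subset_span ⟨g, rfl⟩
  -- the vectors of the first two kinds
  have hT2 : ∀ (j : Fin k) (l : Fin b),
      tp (fun a : Fin 2 => if a = 0 then ((j : ℕ) : ℝ) else 1) (Pi.single l 1)
        (Pi.single (e₂.symm (Sum.inl j)) 1) ∈ S := by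
    intro j l
    have h1 := hmem (Sum.inl (j, l))
    simpa only [bv, spb, if_true] using h1
  have hT3 : ∀ (j : Fin k) (l : Fin c),
      tp (fun a : Fin 2 => if a = 0 then ((j : ℕ) : ℝ) else 1)
        (Pi.single (e₁.symm (Sum.inl j)) 1) (Pi.single l 1) ∈ S := by
    intro j l
    have h1 := hmem (Sum.inr (Sum.inl (j, l)))
    simpa only [bv, spb, if_true] using h1
  have hT1 : ∀ (j : Fin k) (a : Fin 2),
      (Pi.single (a, e₁.symm (Sum.inl j), e₂.symm (Sum.inl j)) 1 : Xb b c → ℝ) ∈ S := by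
    intro j a
    have h1 := hmem (Sum.inr (Sum.inr (Sum.inl ((i, j), a))))
    rw [← tp_single]
    simpa only [bv, spb, if_true] using h1
  have hT1' : ∀ (p : Fin h × Fin k) (a : Fin 2), p.1 ≠ i →
      (Pi.single (a, e₁.symm (Sum.inr (τ p).1), e₂.symm (Sum.inr (τ p).2)) 1 : Xb b c → ℝ) ∈
        S := by
    intro p a hp
    have h1 := hmem (Sum.inr (Sum.inr (Sum.inl (p, a))))
    rw [← tp_single]
    simpa only [bv, spb, if_neg hp] using h1
  have hZ : ∀ z : ZT τ i, (Pi.single (zmon e₁ e₂ τ i z) 1 : Xb b c → ℝ) ∈ S := fun z =>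
    hmem (Sum.inr (Sum.inr (Sum.inr z)))
  have hall : ∀ (a : Fin 2) (l : Fin b) (p : Fin c),
      (Pi.single (a, l, p) 1 : Xb b c → ℝ) ∈ S := by
    intro t l p
    obtain ⟨l', rfl⟩ := e₁.symm.surjective l
    obtain ⟨p', rfl⟩ := e₂.symm.surjective p
    rcases l' with a | a <;> rcases p' with a' | a'
    · by_cases haa : a = a'
      · subst haa
        exact hT1 a t
      · have h2 := hT2 a' (e₁.symm (Sum.inl a))
        have h3 := hT3 a (e₂.symm (Sum.inl a'))
        have hne : ((a : ℕ) : ℝ) - ((a' : ℕ) : ℝ) ≠ 0 := by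
          rw [sub_ne_zero]
          intro h4
          exact haa (Fin.ext (by exact_mod_cast h4))
        refine both_mem S _ _ (if_pos rfl) (if_neg one_ne_zero) _ _ h2 ?_ t
        have h4 : (Pi.single (0, e₁.symm (Sum.inl a), e₂.symm (Sum.inl a')) 1 : Xb b c → ℝ) =
            (((a : ℕ) : ℝ) - ((a' : ℕ) : ℝ))⁻¹ •
              (tp (fun b : Fin 2 => if b = 0 then ((a : ℕ) : ℝ) else 1)
                (Pi.single (e₁.symm (Sum.inl a)) 1) (Pi.single (e₂.symm (Sum.inl a')) 1) -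
              tp (fun b : Fin 2 => if b = 0 then ((a' : ℕ) : ℝ) else 1)
                (Pi.single (e₁.symm (Sum.inl a)) 1) (Pi.single (e₂.symm (Sum.inl a')) 1)) := by
          rw [tp_two, tp_two]
          simp only [if_true, one_ne_zero, if_false, one_smul]
          rw [add_sub_add_right_eq_sub, ← sub_smul, smul_smul, inv_mul_cancel₀ hne, one_smul]
        rw [h4]
        exact S.smul_mem _ (S.sub_mem h3 h2)
    · exact both_mem S _ _ (if_pos rfl) (if_neg one_ne_zero) _ _ (hT3 a (e₂.symm (Sum.inr a')))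
        (hZ (Sum.inl (a, a'))) t
    · exact both_mem S _ _ (if_pos rfl) (if_neg one_ne_zero) _ _ (hT2 a' (e₁.symm (Sum.inr a)))
        (hZ (Sum.inr (Sum.inl (a, a')))) t
    · by_cases hp : ∃ p : Fin h × Fin k, p.1 ≠ i ∧ τ p = (a, a')
      · obtain ⟨p, hp, hpa⟩ := hp
        have h1 := hT1' p t hp
        rwa [hpa] at h1
      · exact hZ (Sum.inr (Sum.inr (t, ⟨(a, a'), hp⟩)))
  intro T _
  have h4 : T = ∑ x : Xb b c, T x • (Pi.single x 1 : Xb b c → ℝ) := by
    funext w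
    simp [Finset.sum_apply, Pi.single_apply]
  rw [h4]
  exact Submodule.sum_mem _ fun x _ => Submodule.smul_mem _ _ (hall x.1 x.2.1 x.2.2)

/-- one choice for all blocks -/
theorem exists_blocks : ∃ e : Sg h k b c → ℝ, ∀ i : Fin h,
    ⊤ ≤ Submodule.span ℝ (range (bv e₁ e₂ τ i e)) := by
  have hev : ∀ (e : Sg h k b c → ℝ) (i : Fin h),
      (fun (g : Gb τ b c i) (x : Xb b c) =>
        MvPolynomial.eval e (bv e₁ e₂ τ i (fun s => MvPolynomial.X s) g x)) = bv e₁ e₂ τ i e := by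
    intro e i
    funext g x
    rw [map_bv]
    simp only [MvPolynomial.eval_X]
  obtain ⟨e, he⟩ := gen_span (σ := Sg h k b c) (C := Fin h) (X := fun _ => Xb b c)
    (Γ := fun i => Gb τ b c i)
    (fun i g x => bv e₁ e₂ τ i (fun s => MvPolynomial.X s) g x) (fun i => by
      refine ⟨spb e₁ e₂ τ i, ?_⟩
      rw [hev]
      exact spb_span e₁ e₂ τ i)
  refine ⟨e, fun i => ?_⟩
  have h1 := he i
  rwa [hev] at h1


theorem card_ZT (i : Fin h) :
    Fintype.card (ZT τ i) ≤ k * m₂ + m₁ * k + 2 * (m₁ * m₂ - (h - 1) * k) := by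
  classical
  have h1 : (h - 1) * k ≤
      Fintype.card {c : Fin m₁ × Fin m₂ // ∃ p : Fin h × Fin k, p.1 ≠ i ∧ τ p = c} := by
    have h2 : Fintype.card ({i' : Fin h // i' ≠ i} × Fin k) = (h - 1) * k := by
      rw [Fintype.card_prod, Fintype.card_subtype_compl, Fintype.card_subtype_eq, Fintype.card_fin,
        Fintype.card_fin]
    rw [← h2]
    refine Fintype.card_le_of_injective
      (fun p => ⟨τ (p.1.1, p.2), (p.1.1, p.2), p.1.2, rfl⟩) ?_
    rintro ⟨⟨a, ha⟩, b⟩ ⟨⟨a', ha'⟩, b'⟩ hab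
    have h3 := τ.injective (Subtype.ext_iff.1 hab)
    simp only [Prod.mk.injEq] at h3
    obtain ⟨rfl, rfl⟩ := h3
    rfl
  have h4 : Fintype.card {c : Fin m₁ × Fin m₂ // ¬ ∃ p : Fin h × Fin k, p.1 ≠ i ∧ τ p = c} ≤
      m₁ * m₂ - (h - 1) * k := by
    rw [Fintype.card_subtype_compl, Fintype.card_prod, Fintype.card_fin, Fintype.card_fin]
    exact Nat.sub_le_sub_left h1 _
  rw [Fintype.card_sum, Fintype.card_sum, Fintype.card_prod, Fintype.card_prod, Fintype.card_prod,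
    Fintype.card_fin, Fintype.card_fin, Fintype.card_fin, Fintype.card_fin]
  have h6 := Nat.mul_le_mul_left 2 h4
  omega

end

end Pool.Agent.H93.TR
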