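import Pool.Agent.H93.TR.Main

/-!
MP_b12e0e_ag (helper93): genericity in span form; the upper bound from base vectors with
spanning tangent spaces up to few basis tensors.
-/

set_option autoImplicit false

open Set Function Module

namespace Pool.Agent.H93.TR

open Pool.Agent.H19.TR

/-- a spanning family contains a basis -/
theorem exists_basis_sub {X Γ : Type} [Fintype X] [DecidableEq X] (v : Γ → X → ℝ)
    (h : ⊤ ≤ Submodule.span ℝ (range v)) :
    ∃ sp : X → Γ, LinearIndependent ℝ fun z => v (sp z) := by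
  obtain ⟨κ, a, -, hspan, hli⟩ := exists_linearIndependent' ℝ v
  have hb : ⊤ ≤ Submodule.span ℝ (range (v ∘ a)) := by rw [hspan]; exact h
  let b := Basis.mk hli hb
  have : Fintype κ := FiniteDimensional.fintypeBasisIndex b
  have hc : Fintype.card X = Fintype.card κ := by
    rw [← Module.finrank_eq_card_basis b, Module.finrank_fintype_fun_eq_card]
  let e : X ≃ κ := Fintype.equivOfCardEq hc
  exact ⟨a ∘ e, hli.comp e e.injective⟩

/-- genericity -/
theorem gen_span {σ C : Type} [Fintype C] {X : C → Type} [∀ c, Fintype (X c)]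
    [∀ c, DecidableEq (X c)] {Γ : C → Type} (P : ∀ c, Γ c → X c → MvPolynomial σ ℝ)
    (h : ∀ c, ∃ e : σ → ℝ, ⊤ ≤ Submodule.span ℝ
      (range fun (g : Γ c) (x : X c) => MvPolynomial.eval e (P c g x))) :
    ∃ e : σ → ℝ, ∀ c, ⊤ ≤ Submodule.span ℝ
      (range fun (g : Γ c) (x : X c) => MvPolynomial.eval e (P c g x)) := by
  classical
  choose ec hec using h
  choose sp hsp using fun c => exists_basis_sub _ (hec c)
  let M : ∀ c, Matrix (X c) (X c) (MvPolynomial σ ℝ) := fun c => Matrix.of fun z z' => P c (sp c z) z'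
  have hmap : ∀ (c : C) (e : σ → ℝ), MvPolynomial.eval e (M c).det =
      (Matrix.of fun z z' => MvPolynomial.eval e (P c (sp c z) z')).det := by
    intro c e
    rw [RingHom.map_det]
    rfl
  have hne : ∀ c, (M c).det ≠ 0 := by
    intro c h0
    have h1 := hmap c (ec c)
    rw [h0, map_zero] at h1
    have h2 : IsUnit (Matrix.of fun z z' => MvPolynomial.eval (ec c) (P c (sp c z) z')) :=
      Matrix.linearIndependent_rows_iff_isUnit.1 (hsp c)
    rw [Matrix.isUnit_iff_isUnit_det, ← h1] at h2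
    exact not_isUnit_zero h2
  have hprod : (∏ c, (M c).det) ≠ 0 := Finset.prod_ne_zero_iff.2 fun c _ => hne c
  obtain ⟨v, hv⟩ : ∃ v : σ → ℝ, MvPolynomial.eval v (∏ c, (M c).det) ≠ 0 := by
    by_contra hcon
    push Not at hcon
    exact hprod (MvPolynomial.funext fun v => by rw [hcon v, map_zero])
  rw [map_prod, Finset.prod_ne_zero_iff] at hv
  refine ⟨v, fun c => ?_⟩
  have hdet := hv c (Finset.mem_univ c)
  rw [hmap] at hdet
  set N : Matrix (X c) (X c) ℝ :=
    Matrix.of fun z z' => MvPolynomial.eval v (P c (sp c z) z') with hN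
  have hinv : N⁻¹ * N = 1 := Matrix.nonsing_inv_mul _ (isUnit_iff_ne_zero.2 hdet)
  intro T _
  have h4 : T = ∑ z, T z • ∑ z', N⁻¹ z z' •
      (fun x => MvPolynomial.eval v (P c (sp c z') x) : X c → ℝ) := by
    funext w
    have h5 : ∀ z, (∑ z', N⁻¹ z z' •
        (fun x => MvPolynomial.eval v (P c (sp c z') x) : X c → ℝ)) w = if z = w then 1 else 0 := by
      intro z
      have h6 := congrFun (congrFun hinv z) w
      rw [Matrix.mul_apply, Matrix.one_apply] at h6
      rw [Finset.sum_apply]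
      exact h6
    rw [Finset.sum_apply]
    simp only [Pi.smul_apply, h5]
    simp
  rw [h4]
  exact Submodule.sum_mem _ fun z _ => Submodule.smul_mem _ _ (Submodule.sum_mem _ fun z' _ =>
    Submodule.smul_mem _ _ (Submodule.subset_span ⟨sp c z', rfl⟩))

section
variable {ι₁ ι₂ : Type} [Fintype ι₁] [DecidableEq ι₁] [Fintype ι₂] [DecidableEq ι₂]
  {α₁ : ι₁ → Type} [∀ i, Fintype (α₁ i)] [∀ i, DecidableEq (α₁ i)]
  {α₂ : ι₂ → Type} [∀ i, Fintype (α₂ i)] [∀ i, DecidableEq (α₂ i)]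
  {A : Type} (f : ((i : ι₂) → α₂ i) → A) {r : ℕ}

omit [∀ i, DecidableEq (α₂ i)] in
/-- generic choice, span version -/
theorem exists_generic_span
    (hsp : ∀ x : (i : ι₂) → α₂ i, ∃ q : A → Fin r → Par α₁,
      ⊤ ≤ Submodule.span ℝ (range (gen f r q x))) :
    ∃ p : A → Fin r → Par α₁, ∀ (x : (i : ι₂) → α₂ i) (z : (i : ι₁) → α₁ i),
      (sg (bs z) : Ten α₁) ∈ Submodule.span ℝ (range (gen f r p x)) := by
  classical
  let σ : Type := A × Fin r × Sigma α₁
  let Xp : A → Fin r → (i : ι₁) → α₁ i → MvPolynomial σ ℝ :=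
    fun c j i a => MvPolynomial.X (c, j, ⟨i, a⟩)
  have hev : ∀ (e : σ → ℝ) (x : (i : ι₂) → α₂ i),
      (fun (g : Gn α₁ α₂ r) (z : (i : ι₁) → α₁ i) => MvPolynomial.eval e (gen f r Xp x g z)) =
        gen f r (fun c j i a => e (c, j, ⟨i, a⟩)) x := by
    intro e x
    funext g z
    rw [map_gen]
    simp only [Xp, MvPolynomial.eval_X]
  obtain ⟨e, he⟩ := gen_span (σ := σ) (C := (i : ι₂) → α₂ i)
    (X := fun _ => (i : ι₁) → α₁ i) (Γ := fun _ => Gn α₁ α₂ r)
    (fun x g z => gen f r Xp x g z) (fun x => by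
      obtain ⟨q, hq⟩ := hsp x
      refine ⟨fun u => q u.1 u.2.1 u.2.2.1 u.2.2.2, ?_⟩
      rw [hev]
      exact hq)
  refine ⟨fun c j i a => e (c, j, ⟨i, a⟩), fun x z => ?_⟩
  have h1 := he x
  rw [hev] at h1
  exact h1 Submodule.mem_top

omit [∀ i, Fintype (α₁ i)] in
/-- the special choice at the word `x`: tangent spaces of the `y j` and few basis tensors -/
theorem exists_special_span (hf : Lab f) (y : Fin r → Par α₁) {ζ : Type} [Fintype ζ]
    (zm : ζ → (i : ι₁) → α₁ i) (hζ : Fintype.card ζ ≤ sdim α₂ * r)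
    (hspan : ⊤ ≤ Submodule.span ℝ ({S : Ten α₁ | ∃ j i c, S = sg (update (y j) i (Pi.single c 1))} ∪
      range fun u => (sg (bs (zm u)) : Ten α₁)))
    (x : (i : ι₂) → α₂ i) :
    ∃ q : A → Fin r → Par α₁, ⊤ ≤ Submodule.span ℝ (range (gen f r q x)) := by
  classical
  have h2 : Fintype.card ζ ≤ Fintype.card (Nb x × Fin r) := by
    rw [Fintype.card_prod, card_Nb, Fintype.card_fin]
    exact hζ
  obtain ⟨g⟩ := Function.Embedding.nonempty_of_card_le h2
  let q : A → Fin r → Par α₁ := fun c j =>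
    if c = f x then y j
    else if h : ∃ u : ζ, f (update x (g u).1.1.1 (g u).1.1.2) = c ∧ (g u).2 = j then
      bs (zm h.choose)
    else y j
  refine ⟨q, hspan.trans (Submodule.span_mono ?_)⟩
  rintro S (⟨j, i, c, rfl⟩ | ⟨u, rfl⟩)
  · refine ⟨Sum.inl (j, ⟨i, c⟩), ?_⟩
    show sg (update (q (f x) j) i (Pi.single c 1)) = _
    have h4 : q (f x) j = y j := if_pos rfl
    rw [h4]
  · refine ⟨Sum.inr ((g u).1.1, (g u).2), ?_⟩
    show sg (q (f (update x (g u).1.1.1 (g u).1.1.2)) (g u).2) = sg (bs (zm u))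
    have h5 : ∃ u' : ζ, f (update x (g u').1.1.1 (g u').1.1.2) =
        f (update x (g u).1.1.1 (g u).1.1.2) ∧ (g u').2 = (g u).2 := ⟨u, rfl, rfl⟩
    have h6 : q (f (update x (g u).1.1.1 (g u).1.1.2)) (g u).2 = bs (zm h5.choose) := by
      show (if _ = f x then _ else _) = _
      rw [if_neg (hf.1 x _ _ (g u).1.2), dif_pos h5]
    have h7 : h5.choose = u := by
      apply g.injective
      have h8 := h5.choose_spec
      refine Prod.ext (Subtype.ext ?_) h8.2
      exact hf.2 x _ _ _ _ (g h5.choose).1.2 (g u).1.2 h8.1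
    rw [h6, h7]

end

section
variable {ι₁ ι₂ : Type} [Fintype ι₁] [DecidableEq ι₁] [Fintype ι₂] [DecidableEq ι₂]
  {α : ι₁ ⊕ ι₂ → Type} [∀ i, Fintype (α i)] [∀ i, DecidableEq (α i)]

/-- functions of a label are short sums of products; one factor `i₀` is free -/
theorem lab_mem_Sums_free {A : Type} [AddCommGroup A] [Fintype A] [DecidableEq A]
    (h2 : ∀ g : A, g + g = 0) (φ : (i : ι₂) → α (Sum.inr i) → A) (i₀ : ι₁)
    (G : ((i : ι₁) → α (Sum.inl i)) → A → ℝ) :
    (fun y : (i : ι₁ ⊕ ι₂) → α i =>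
      G (fun i => y (Sum.inl i)) (∑ i, φ i (y (Sum.inr i)))) ∈
      Sums α (Fintype.card ((i : {i : ι₁ // i ≠ i₀}) → α (Sum.inl i)) * Fintype.card A) := by
  classical
  have : Nonempty (ι₁ ⊕ ι₂) := ⟨Sum.inl i₀⟩
  have hre : ∀ (ψ : AddChar A ℂ) (g : A), ψ g = ((ψ g).re : ℂ) := by
    intro ψ g
    have h1 : ψ g * ψ g = 1 := by
      rw [← AddChar.map_add_eq_mul, h2, AddChar.map_zero_eq_one]
    rcases mul_self_eq_one_iff.1 h1 with h | h <;> simp [h]
  have hmul : ∀ (ψ : AddChar A ℂ) (g h : A), (ψ (g + h)).re = (ψ g).re * (ψ h).re := by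
    intro ψ g h
    rw [AddChar.map_add_eq_mul, hre ψ g, hre ψ h]
    simp
  let κ := ((i : {i : ι₁ // i ≠ i₀}) → α (Sum.inl i)) × AddChar A ℂ
  have hc : Fintype.card κ =
      Fintype.card ((i : {i : ι₁ // i ≠ i₀}) → α (Sum.inl i)) * Fintype.card A := by
    rw [Fintype.card_prod, AddChar.card_eq]
  -- the word with the value `a` at `i₀`
  let wd : ((i : {i : ι₁ // i ≠ i₀}) → α (Sum.inl i)) → α (Sum.inl i₀) →
      (i : ι₁) → α (Sum.inl i) := fun z a i => if h : i = i₀ then h ▸ a else z ⟨i, h⟩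
  let w₁ : κ → Par (fun i : ι₁ => α (Sum.inl i)) := fun k i =>
    if h : i = i₀ then fun a => ∑ g : A, (Fintype.card A : ℝ)⁻¹ * (k.2 g).re * G (wd k.1 (h ▸ a)) g
    else Pi.single (k.1 ⟨i, h⟩) 1
  let v : κ → Par α := fun k => jn (w₁ k) fun i a => (k.2 (φ i a)).re
  have hS := sum_smul_mem_Sums (α := α) (fun _ : κ => (1 : ℝ)) v
  rw [hc] at hS
  have heq : (fun y : (i : ι₁ ⊕ ι₂) → α i =>
      G (fun i => y (Sum.inl i)) (∑ i, φ i (y (Sum.inr i)))) = ∑ l, (1 : ℝ) • sg (v l) := by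
    funext y
    rw [Finset.sum_apply, Fintype.sum_prod_type]
    set z : (i : ι₁) → α (Sum.inl i) := fun i => y (Sum.inl i) with hz
    set a : A := ∑ i, φ i (y (Sum.inr i)) with ha
    have hw : ∀ (z' : (i : {i : ι₁ // i ≠ i₀}) → α (Sum.inl i)) (ψ : AddChar A ℂ),
        ((1 : ℝ) • sg (v (z', ψ))) y = (if z' = (fun i : {i : ι₁ // i ≠ i₀} => z i.1) then 1 else 0) *
          ∑ g : A, (Fintype.card A : ℝ)⁻¹ * (ψ (a + g)).re * G z g := by
      intro z' ψ
      rw [one_smul]
      show sg (jn (w₁ (z', ψ)) fun i a => (ψ (φ i a)).re) y = _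
      rw [sg_jn]
      have h4 : sg (fun i a => (ψ (φ i a)).re) (fun i => y (Sum.inr i)) = (ψ a).re := by
        have h5 : (∏ i, ψ (φ i (y (Sum.inr i)))) =
            ((∏ i, (ψ (φ i (y (Sum.inr i)))).re : ℝ) : ℂ) := by
          rw [Complex.ofReal_prod]
          exact Finset.prod_congr rfl fun i _ => hre ψ _
        rw [ha, char_sum, h5, Complex.ofReal_re]
        rfl
      rw [h4]
      have h6 : sg (w₁ (z', ψ)) z = w₁ (z', ψ) i₀ (z i₀) *
          ∏ i ∈ Finset.univ.erase i₀, w₁ (z', ψ) i (z i) :=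
        (Finset.mul_prod_erase Finset.univ (fun i => w₁ (z', ψ) i (z i)) (Finset.mem_univ i₀)).symm
      have h7 : w₁ (z', ψ) i₀ (z i₀) =
          ∑ g : A, (Fintype.card A : ℝ)⁻¹ * (ψ g).re * G (wd z' (z i₀)) g := by
        simp only [w₁, dif_pos]
      by_cases h8 : z' = fun i : {i : ι₁ // i ≠ i₀} => z i.1
      · rw [if_pos h8, one_mul]
        have h9 : (∏ i ∈ Finset.univ.erase i₀, w₁ (z', ψ) i (z i)) = 1 := by
          refine Finset.prod_eq_one fun i hi => ?_
          have h10 : i ≠ i₀ := Finset.ne_of_mem_erase hi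
          show (if h : i = i₀ then _ else _ : α (Sum.inl i) → ℝ) (z i) = 1
          rw [dif_neg h10, h8]
          exact Pi.single_eq_same _ _
        have h11 : wd z' (z i₀) = z := by
          funext i
          by_cases h12 : i = i₀
          · subst h12
            simp only [wd, dif_pos]
          · simp only [wd, dif_neg h12, h8]
        rw [h6, h9, mul_one, h7, h11, Finset.sum_mul]
        refine Finset.sum_congr rfl fun g _ => ?_
        rw [hmul]
        ring
      · rw [if_neg h8, zero_mul]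
        obtain ⟨i, hi⟩ := Function.ne_iff.1 h8
        have h9 : (∏ i ∈ Finset.univ.erase i₀, w₁ (z', ψ) i (z i)) = 0 := by
          refine Finset.prod_eq_zero (Finset.mem_erase.2 ⟨i.2, Finset.mem_univ i.1⟩) ?_
          show (if h : i.1 = i₀ then _ else _ : α (Sum.inl i.1) → ℝ) (z i.1) = 0
          rw [dif_neg i.2]
          exact Pi.single_eq_of_ne (Ne.symm hi) _
        rw [h6, h9, mul_zero, zero_mul]
    rw [Finset.sum_eq_single (fun i : {i : ι₁ // i ≠ i₀} => z i.1)]
    · rw [Finset.sum_congr rfl fun ψ _ => hw _ ψ]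
      simp only [if_true, one_mul]
      rw [Finset.sum_comm]
      have h6 : ∀ g : A, ∑ ψ : AddChar A ℂ, (Fintype.card A : ℝ)⁻¹ * (ψ (a + g)).re * G z g =
          (if a + g = 0 then 1 else 0) * G z g := by
        intro g
        rw [delta_eq, Finset.sum_mul]
      rw [Finset.sum_congr rfl fun g _ => h6 g, Finset.sum_eq_single a]
      · rw [h2, if_pos rfl, one_mul]
      · intro g _ hg
        rw [if_neg, zero_mul]
        intro h7
        apply hg
        have h8 : a + g = a + a := by rw [h7, h2]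
        exact add_left_cancel h8
      · intro h
        exact absurd (Finset.mem_univ _) h
    · intro z' _ hz'
      refine Finset.sum_eq_zero fun ψ _ => ?_
      rw [hw, if_neg hz', zero_mul]
    · intro h
      exact absurd (Finset.mem_univ _) h
  rw [heq]
  exact hS

/-- the main upper bound, span version -/
theorem span_upper (i₀ : ι₁) {A : Type} [AddCommGroup A] [Fintype A] (h2 : ∀ g : A, g + g = 0)
    (φ : (i : ι₂) → α (Sum.inr i) → A)
    (hφ : Lab fun x : (i : ι₂) → α (Sum.inr i) => ∑ i, φ i (x i)) {r : ℕ}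
    (y : Fin r → Par fun i : ι₁ => α (Sum.inl i)) {ζ : Type} [Fintype ζ]
    (zm : ζ → (i : ι₁) → α (Sum.inl i))
    (hζ : Fintype.card ζ ≤ (sdim fun i : ι₂ => α (Sum.inr i)) * r)
    (hspan : ⊤ ≤ Submodule.span ℝ
      ({S : Ten (fun i : ι₁ => α (Sum.inl i)) |
        ∃ j i c, S = sg (update (y j) i (Pi.single c 1))} ∪
        range fun u => (sg (bs (zm u)) : Ten (fun i : ι₁ => α (Sum.inl i))))) (T : Ten α) :
    T ∈ Sums α (r * Fintype.card ((i : ι₂) → α (Sum.inr i)) +
      Fintype.card ((i : {i : ι₁ // i ≠ i₀}) → α (Sum.inl i)) * Fintype.card A) := by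
  classical
  have : Nonempty (ι₁ ⊕ ι₂) := ⟨Sum.inl i₀⟩
  set f : ((i : ι₂) → α (Sum.inr i)) → A := fun x => ∑ i, φ i (x i) with hf
  obtain ⟨p, hp⟩ := exists_generic_span f (exists_special_span f hφ y zm hζ hspan)
  have hspan' := span_lab f p hp
  have hT0 : (∑ l : ((i : ι₂) → α (Sum.inr i)) × Fin r,
      sg (jn (p (f l.1) l.2) (bs l.1)) : Ten α) ∈
      Sums α (Fintype.card ((i : {i : ι₁ // i ≠ i₀}) → α (Sum.inl i)) * Fintype.card A) := by
    have h3 : (∑ l : ((i : ι₂) → α (Sum.inr i)) × Fin r,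
        sg (jn (p (f l.1) l.2) (bs l.1)) : Ten α) = fun y : (i : ι₁ ⊕ ι₂) → α i =>
        (fun z a => ∑ j, sg (p a j) z) (fun i => y (Sum.inl i)) (∑ i, φ i (y (Sum.inr i))) := by
      funext y
      rw [sum_lab]
    rw [h3]
    exact lab_mem_Sums_free h2 φ i₀ fun z a => ∑ j, sg (p a j) z
  have h4 := all_mem_gen (fun l : ((i : ι₂) → α (Sum.inr i)) × Fin r =>
    jn (p (f l.1) l.2) (bs l.1)) hspan' hT0 T
  rwa [Fintype.card_prod, Fintype.card_fin, mul_comm _ r] at h4

end

end Pool.Agent.H93.TR
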