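import Pool.Agent.H93.TR.Group

/-!
MP_b12e0e_ag (helper93): formats `d : Fin n → ℕ`; lines of finite vector spaces.
-/

set_option autoImplicit false

open Set Function Module

open scoped LinearAlgebra.Projectivization

namespace Pool.Agent.H93.TR

open Pool.Agent.H19.TR

theorem fmt {n : ℕ} (d : Fin n → ℕ) (α : Fin n → Type) (e : ∀ i, α i ≃ Fin (d i)) {r : ℕ}
    (h : ∀ T : Ten α, T ∈ Sums α r) (T : ((i : Fin n) → Fin (d i)) → ℝ) :
    ∃ v : Fin r → (i : Fin n) → Fin (d i) → ℝ, T = fun x => ∑ k : Fin r, ∏ i : Fin n, v k i (x i) := by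
  obtain ⟨v, hv⟩ := h fun x => T fun i => e i (x i)
  refine ⟨fun j i a => v j i ((e i).symm a), ?_⟩
  funext y
  have h1 := congrFun hv fun i => (e i).symm (y i)
  simp only [Equiv.apply_symm_apply, Finset.sum_apply] at h1
  exact h1

/-- the three upper bounds, for formats -/
theorem upper_fmt {G : Type} [AddCommGroup G] [Finite G] {n : ℕ} (H : Fin n → AddSubgroup G)
    (hH : ∀ g : G, ∃ i, g ∈ H i) (d : Fin n → ℕ) (hd : ∀ i, Nat.card (H i) = d i) :
    (∃ C : ℕ, C * Nat.card G = ∏ i, d i ∧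
      (∀ T : ((i : Fin n) → Fin (d i)) → ℝ,
        ∃ v : Fin (C + (Nat.card G - 1) * n) → (i : Fin n) → Fin (d i) → ℝ,
          T = fun x => ∑ k, ∏ i : Fin n, v k i (x i)) ∧
      (Odd (Nat.card G) → ∀ T : ((i : Fin n) → Fin (d i)) → ℝ,
        ∃ v : Fin (C + (Nat.card G - 1) / 2 * n) → (i : Fin n) → Fin (d i) → ℝ,
          T = fun x => ∑ k, ∏ i : Fin n, v k i (x i)) ∧
      ((∀ g : G, g + g = 0) → ∀ T : ((i : Fin n) → Fin (d i)) → ℝ,
        ∃ v : Fin (C + (Nat.card G - 1)) → (i : Fin n) → Fin (d i) → ℝ,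
          T = fun x => ∑ k, ∏ i : Fin n, v k i (x i))) := by
  classical
  have : Fintype G := Fintype.ofFinite G
  have : ∀ i, Fintype (H i) := fun i => Fintype.ofFinite _
  let e : ∀ i, H i ≃ Fin (d i) := fun i =>
    Fintype.equivFinOfCardEq (by rw [← hd i, Nat.card_eq_fintype_card])
  refine ⟨Fintype.card (Code H), ?_, ?_, ?_, ?_⟩
  · rw [Nat.card_eq_fintype_card, card_code H hH]
    exact Finset.prod_congr rfl fun i _ => by rw [← hd i, Nat.card_eq_fintype_card]
  · rw [Nat.card_eq_fintype_card]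
    have h := upper_all H hH
    rw [Fintype.card_fin] at h
    exact fmt d _ e h
  · intro hodd
    rw [Nat.card_eq_fintype_card] at hodd ⊢
    have h := upper_odd H hodd hH
    rw [Fintype.card_fin] at h
    exact fmt d _ e h
  · intro h2
    rw [Nat.card_eq_fintype_card]
    exact fmt d _ e (upper_two H h2 hH)

/-- a finite vector space is the union of its lines -/
theorem lines (F : Type) [Field F] [Finite F] {q : ℕ} (hq : Nat.card F = q) (m n : ℕ)
    (hm : 1 ≤ m) (hn : ∑ i ∈ Finset.range m, q ^ i ≤ n) :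
    ∃ H : Fin n → AddSubgroup (Fin m → F),
      (∀ g, ∃ i, g ∈ H i) ∧ ∀ i, Nat.card (H i) = q := by
  subst hq
  have hfin : Finite (ℙ F (Fin m → F)) := inferInstance
  have hcard : Nat.card (ℙ F (Fin m → F)) ≤ n :=
    (Projectivization.card_of_finrank F (Fin m → F) (by simp)).trans_le hn
  have hpos : 0 < n := by
    refine lt_of_lt_of_le (Finset.sum_pos (fun i _ => pow_pos Nat.card_pos _) ?_) hn
    exact ⟨0, Finset.mem_range.2 hm⟩
  have hne : Nonempty (ℙ F (Fin m → F)) := by
    refine ⟨Projectivization.mk F (fun _ => 1) fun h => ?_⟩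
    exact one_ne_zero (congrFun h ⟨0, hm⟩)
  obtain ⟨e, he⟩ : ∃ e : Fin n → ℙ F (Fin m → F), Surjective e := by
    let f := Finite.equivFin (ℙ F (Fin m → F))
    have hinj : Injective (Fin.castLE hcard) := Fin.castLE_injective hcard
    have : Nonempty (Fin (Nat.card (ℙ F (Fin m → F)))) := ⟨f hne.some⟩
    exact ⟨fun i => f.symm (Function.invFun (Fin.castLE hcard) i),
      f.symm.surjective.comp (Function.invFun_surjective hinj)⟩
  refine ⟨fun i => (e i).submodule.toAddSubgroup, ?_, ?_⟩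
  · intro g
    by_cases hg : g = 0
    · subst hg
      exact ⟨⟨0, hpos⟩, zero_mem _⟩
    · obtain ⟨i, hi⟩ := he (Projectivization.mk F g hg)
      refine ⟨i, ?_⟩
      show g ∈ (e i).submodule
      rw [hi, Projectivization.submodule_mk]
      exact Submodule.mem_span_singleton_self g
  · intro i
    show Nat.card (e i).submodule = _
    rw [Module.natCard_eq_pow_finrank (K := F), Projectivization.finrank_submodule, pow_one]

theorem geom_nat (q m : ℕ) (hq : 1 ≤ q) :
    (∑ i ∈ Finset.range m, q ^ i) * (q - 1) + 1 = q ^ m := by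
  obtain ⟨a, rfl⟩ : ∃ a, q = a + 1 := ⟨q - 1, by omega⟩
  rw [Nat.add_sub_cancel]
  induction m with
  | zero => simp
  | succ m ih =>
    rw [Finset.sum_range_succ, add_mul, pow_succ, ← ih]
    ring

end Pool.Agent.H93.TR
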