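import Pool.Agent.H93.TR.Upper

/-!
MP_b12e0e_ag (helper93): the trivial bound with one free factor.
-/

set_option autoImplicit false

open Set Function Module

namespace Pool.Agent.H93.TR

open Pool.Agent.H19.TR

/-- the trivial bound: the number of words in the factors different from `i₀` -/
theorem free_mem_Sums {ι : Type} [Fintype ι] [DecidableEq ι] {α : ι → Type}
    [∀ i, Fintype (α i)] [∀ i, DecidableEq (α i)] (i₀ : ι) (T : Ten α) :
    T ∈ Sums α (Fintype.card ((i : {i : ι // i ≠ i₀}) → α i)) := by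
  classical
  have : Nonempty ι := ⟨i₀⟩
  let κ : Type := (i : {i : ι // i ≠ i₀}) → α i
  let wd : κ → α i₀ → (i : ι) → α i := fun z a i => if h : i = i₀ then h ▸ a else z ⟨i, h⟩
  let v : κ → Par α := fun k i =>
    if h : i = i₀ then fun a => T (wd k (h ▸ a)) else Pi.single (k ⟨i, h⟩) 1
  have hS := sum_smul_mem_Sums (α := α) (fun _ : κ => (1 : ℝ)) v
  convert hS using 1
  funext x
  rw [Finset.sum_apply]
  have hw : ∀ z' : κ, ((1 : ℝ) • sg (v z')) x =
      if z' = (fun i : {i : ι // i ≠ i₀} => x i.1) then T x else 0 := by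
    intro z'
    rw [one_smul]
    have h6 : sg (v z') x = v z' i₀ (x i₀) * ∏ i ∈ Finset.univ.erase i₀, v z' i (x i) :=
      (Finset.mul_prod_erase Finset.univ (fun i => v z' i (x i)) (Finset.mem_univ i₀)).symm
    have h7 : v z' i₀ (x i₀) = T (wd z' (x i₀)) := by
      simp only [v, dif_pos]
    by_cases h8 : z' = fun i : {i : ι // i ≠ i₀} => x i.1
    · rw [if_pos h8]
      have h9 : (∏ i ∈ Finset.univ.erase i₀, v z' i (x i)) = 1 := by
        refine Finset.prod_eq_one fun i hi => ?_
        have h10 : i ≠ i₀ := Finset.ne_of_mem_erase hi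
        show (if h : i = i₀ then _ else _ : α i → ℝ) (x i) = 1
        rw [dif_neg h10, h8]
        exact Pi.single_eq_same _ _
      have h11 : wd z' (x i₀) = x := by
        funext i
        by_cases h12 : i = i₀
        · subst h12
          simp only [wd, dif_pos]
        · simp only [wd, dif_neg h12, h8]
      rw [h6, h9, mul_one, h7, h11]
    · rw [if_neg h8]
      obtain ⟨i, hi⟩ := Function.ne_iff.1 h8
      have h9 : (∏ i ∈ Finset.univ.erase i₀, v z' i (x i)) = 0 := by
        refine Finset.prod_eq_zero (Finset.mem_erase.2 ⟨i.2, Finset.mem_univ i.1⟩) ?_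
        show (if h : i.1 = i₀ then _ else _ : α i.1 → ℝ) (x i.1) = 0
        rw [dif_neg i.2]
        exact Pi.single_eq_of_ne (Ne.symm hi) _
      rw [h6, h9, mul_zero]
  rw [Finset.sum_congr rfl fun z _ => hw z,
    Finset.sum_eq_single (fun i : {i : ι // i ≠ i₀} => x i.1)]
  · rw [if_pos rfl]
  · intro z _ hz
    rw [if_neg hz]
  · intro h
    exact absurd (Finset.mem_univ _) h

end Pool.Agent.H93.TR
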