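import Pool.Agent.H93.TR.Main

/-!
MP_b12e0e_ag (helper93): sums of structured points.
-/

set_option autoImplicit false

open Set Function Module

namespace Pool.Agent.H93.TR

open Pool.Agent.H19.TR

/-- the three vectors -/
def tri {α : Fin 3 → Type} (a : α 0 → ℝ) (b : α 1 → ℝ) (c : α 2 → ℝ) : Par α
  | 0 => a
  | 1 => b
  | 2 => c

section
variable {ι₂ : Type} [Fintype ι₂] [DecidableEq ι₂] {α : Fin 3 ⊕ ι₂ → Type}
  [∀ i, Fintype (α i)] [∀ i, DecidableEq (α i)]

omit [∀ i, Fintype (α i)] [∀ i, DecidableEq (α i)] [Fintype ι₂] [DecidableEq ι₂] in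
theorem sg_tri (a : α (Sum.inl 0) → ℝ) (b : α (Sum.inl 1) → ℝ) (c : α (Sum.inl 2) → ℝ)
    (z : (i : Fin 3) → α (Sum.inl i)) :
    sg (tri (α := fun i : Fin 3 => α (Sum.inl i)) a b c) z = a (z 0) * b (z 1) * c (z 2) := by
  unfold sg
  rw [Fin.prod_univ_three]
  rfl

/-- the sum of the points of all gadgets is a short sum of products -/
theorem gadgets_mem_Sums {H U Y V : Type} [Fintype H] [Fintype U] [Fintype Y] [Fintype V]
    (A : ((i : ι₂) → α (Sum.inr i)) → H → U → Y → α (Sum.inl 0) → ℝ)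
    (B : ((i : ι₂) → α (Sum.inr i)) → H → Y → V → α (Sum.inl 1) → ℝ)
    (C : ((i : ι₂) → α (Sum.inr i)) → H → U → Y → α (Sum.inl 2) → ℝ)
    (C' : ((i : ι₂) → α (Sum.inr i)) → H → Y → V → α (Sum.inl 2) → ℝ) :
    (∑ l : ((i : ι₂) → α (Sum.inr i)) × (H × U × Y × V),
      sg (jn (tri (α := fun i : Fin 3 => α (Sum.inl i)) (A l.1 l.2.1 l.2.2.1 l.2.2.2.1)
        (B l.1 l.2.1 l.2.2.2.1 l.2.2.2.2)
        (C l.1 l.2.1 l.2.2.1 l.2.2.2.1 + C' l.1 l.2.1 l.2.2.2.1 l.2.2.2.2)) (bs l.1)) : Ten α) ∈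
      Sums α (Fintype.card ((i : ι₂) → α (Sum.inr i)) *
        (Fintype.card H * Fintype.card Y * (Fintype.card U + Fintype.card V))) := by
  classical
  have : Nonempty (Fin 3 ⊕ ι₂) := ⟨Sum.inl 0⟩
  let W : Type := (i : ι₂) → α (Sum.inr i)
  let κ : Type := W × ((H × Y) × (U ⊕ V))
  let vv : κ → Par α := fun k => match k with
    | (v, ((x, y), Sum.inl i)) => jn (tri (α := fun i : Fin 3 => α (Sum.inl i)) (A v x i y)
        (∑ j, B v x y j) (C v x i y)) (bs v)
    | (v, ((x, y), Sum.inr j)) => jn (tri (α := fun i : Fin 3 => α (Sum.inl i)) (∑ i, A v x i y)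
        (B v x y j) (C' v x y j)) (bs v)
  have h1 := sum_smul_mem_Sums (α := α) (fun _ : κ => (1 : ℝ)) vv
  have h2 : Fintype.card κ = Fintype.card ((i : ι₂) → α (Sum.inr i)) *
      (Fintype.card H * Fintype.card Y * (Fintype.card U + Fintype.card V)) := by
    simp only [κ, W, Fintype.card_prod, Fintype.card_sum]
  rw [h2] at h1
  convert h1 using 1
  funext m
  rw [Finset.sum_apply, Finset.sum_apply, Fintype.sum_prod_type, Fintype.sum_prod_type]
  refine Finset.sum_congr rfl fun v _ => ?_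
  simp only [one_smul]
  have hL : (∑ l : H × U × Y × V, sg (jn (tri (α := fun i : Fin 3 => α (Sum.inl i))
      (A v l.1 l.2.1 l.2.2.1) (B v l.1 l.2.2.1 l.2.2.2)
      (C v l.1 l.2.1 l.2.2.1 + C' v l.1 l.2.2.1 l.2.2.2)) (bs v)) m) =
      ∑ x : H, ∑ y : Y, ∑ i : U, ∑ j : V, A v x i y (m (Sum.inl 0)) * B v x y j (m (Sum.inl 1)) *
        (C v x i y (m (Sum.inl 2)) + C' v x y j (m (Sum.inl 2))) *
        sg (bs v) (fun i => m (Sum.inr i)) := by
    rw [Fintype.sum_prod_type]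
    refine Finset.sum_congr rfl fun x _ => ?_
    rw [Fintype.sum_prod_type]
    simp only [Fintype.sum_prod_type]
    rw [Finset.sum_comm]
    refine Finset.sum_congr rfl fun y _ => Finset.sum_congr rfl fun i _ =>
      Finset.sum_congr rfl fun j _ => ?_
    rw [sg_jn, sg_tri]
    rfl
  have hR : (∑ l : (H × Y) × (U ⊕ V), sg (vv (v, l)) m) =
      ∑ x : H, ∑ y : Y, ((∑ i : U, A v x i y (m (Sum.inl 0)) *
        (∑ j : V, B v x y j (m (Sum.inl 1))) * C v x i y (m (Sum.inl 2)) *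
          sg (bs v) (fun i => m (Sum.inr i))) +
        ∑ j : V, (∑ i : U, A v x i y (m (Sum.inl 0))) * B v x y j (m (Sum.inl 1)) *
          C' v x y j (m (Sum.inl 2)) * sg (bs v) (fun i => m (Sum.inr i))) := by
    rw [Fintype.sum_prod_type, Fintype.sum_prod_type]
    refine Finset.sum_congr rfl fun x _ => Finset.sum_congr rfl fun y _ => ?_
    rw [Fintype.sum_sum_type]
    simp only [vv, sg_jn, sg_tri, Finset.sum_apply]
  rw [hL, hR]
  refine Finset.sum_congr rfl fun x _ => Finset.sum_congr rfl fun y _ => ?_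
  simp only [mul_add, add_mul, Finset.sum_add_distrib, Finset.mul_sum, Finset.sum_mul]
  congr 1
  rw [Finset.sum_comm]

end

end Pool.Agent.H93.TR
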