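import Pool.Agent.H93.TR.Upper
import Pool.Agent.H24.TR.Lab

/-!
MP_b12e0e_ag (helper93): interior points given by labels, generic choices.
-/

set_option autoImplicit false

open Set Function Module

open scoped ContDiff Topology

namespace Pool.Agent.H93.TR

open Pool.Agent.H19.TR

section
variable {ι : Type} [Fintype ι] [DecidableEq ι] {α : ι → Type} [∀ i, Fintype (α i)]
  [∀ i, DecidableEq (α i)]

/-- all tensors close to a sum of products are sums of as many products, if the products with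
one factor replaced span everything -/
theorem range_mem_nhds_gen {κ : Type} [Fintype κ] [DecidableEq κ] (v0 : κ → Par α)
    (hspan : ∀ x : (i : ι) → α i, sg (bs x) ∈ Submodule.span ℝ
      {S : Ten α | ∃ l i h, S = sg (update (v0 l) i h)}) :
    range (fun v : κ → Par α => ∑ l, sg (v l)) ∈ 𝓝 (∑ l, sg (v0 l)) := by
  classical
  set f : (κ → Par α) → Ten α := fun v => ∑ l, sg (v l) with hf
  have hfc : ContDiff ℝ ω f := by
    refine ContDiff.sum fun l _ => ?_
    exact contDiff_sg.comp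
      (ContinuousLinearMap.contDiff (ContinuousLinearMap.proj (R := ℝ) (φ := fun _ : κ => Par α) l))
  have hs : HasStrictFDerivAt f (fderiv ℝ f v0) v0 :=
    hfc.contDiffAt.hasStrictFDerivAt (by simp)
  have hfd : fderiv ℝ f v0 = ∑ l, (fderiv ℝ (sg : Par α → Ten α) (v0 l)).comp
      (ContinuousLinearMap.proj (R := ℝ) (φ := fun _ : κ => Par α) l) := by
    refine HasFDerivAt.fderiv ?_
    refine HasFDerivAt.fun_sum fun l _ => ?_
    have h1 : HasFDerivAt (sg : Par α → Ten α) (fderiv ℝ sg (v0 l))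
        (ContinuousLinearMap.proj (R := ℝ) (φ := fun _ : κ => Par α) l v0) :=
      (contDiff_sg.differentiable (by simp)).differentiableAt.hasFDerivAt
    exact h1.comp v0 (ContinuousLinearMap.hasFDerivAt _)
  have hsub : Submodule.span ℝ {S : Ten α | ∃ l i h, S = sg (update (v0 l) i h)} ≤
      LinearMap.range (fderiv ℝ f v0).toLinearMap := by
    rw [Submodule.span_le]
    rintro S ⟨l, i, h, rfl⟩
    obtain ⟨w, hw⟩ := sg_mem_range (v0 l) i h
    refine ⟨Pi.single l w, ?_⟩
    have h2 : (fderiv ℝ f v0) (Pi.single l w) = fderiv ℝ (sg : Par α → Ten α) (v0 l) w := by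
      rw [hfd, ContinuousLinearMap.sum_apply]
      rw [Finset.sum_eq_single l]
      · simp
      · intro l' _ hl'
        simp [Pi.single_eq_of_ne hl']
      · simp
    exact h2.trans hw
  have hsurj : LinearMap.range (fderiv ℝ f v0).toLinearMap = ⊤ := by
    rw [eq_top_iff]
    intro T _
    have h1 : T = ∑ x, T x • sg (bs x) := by
      funext y
      simp [Finset.sum_apply, sg_bs_apply]
    rw [h1]
    exact Submodule.sum_mem _ fun x _ => Submodule.smul_mem _ _ (hsub (hspan x))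
  have h3 := hs.map_nhds_eq_of_surj hsurj
  have h4 : range f ∈ Filter.map f (𝓝 v0) := Filter.range_mem_map
  rw [h3] at h4
  exact h4

/-- if moreover the sum is also a sum of `ρ` products, all tensors are sums of `card κ + ρ`
products -/
theorem all_mem_gen [Nonempty ι] {κ : Type} [Fintype κ] [DecidableEq κ] (v0 : κ → Par α)
    (hspan : ∀ x : (i : ι) → α i, sg (bs x) ∈ Submodule.span ℝ
      {S : Ten α | ∃ l i h, S = sg (update (v0 l) i h)}) {ρ : ℕ}
    (hS : ∑ l, sg (v0 l) ∈ Sums α ρ) (T : Ten α) :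
    T ∈ Sums α (Fintype.card κ + ρ) := by
  have h1 := range_mem_nhds_gen v0 hspan
  set S : Ten α := ∑ l, sg (v0 l) with hSdef
  set g : ℝ → Ten α := fun ε => ε • T + S with hg
  have hgc : Continuous g := by
    rw [hg]
    fun_prop
  have hg0 : g 0 = S := by simp [hg]
  rw [← hg0] at h1
  have h2 : ∀ᶠ ε in 𝓝[>] (0 : ℝ), g ε ∈ range (fun v : κ → Par α => ∑ l, sg (v l)) :=
    (hgc.continuousAt.eventually_mem h1).filter_mono nhdsWithin_le_nhds
  obtain ⟨ε, ⟨v, hv⟩, hε⟩ := (h2.and self_mem_nhdsWithin).exists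
  have hε' : (0 : ℝ) < ε := hε
  have h3 : T = ε⁻¹ • ((∑ l, sg (v l)) + (-1 : ℝ) • S) := by
    have h4 : (∑ l, sg (v l)) = ε • T + S := hv
    rw [h4, neg_one_smul, add_neg_cancel_right, smul_smul, inv_mul_cancel₀ hε'.ne', one_smul]
  have h5 : ∑ l, sg (v l) ∈ Sums α (Fintype.card κ) := by
    have := sum_smul_mem_Sums (α := α) (fun _ : κ => (1 : ℝ)) v
    simpa using this
  rw [h3]
  exact smul_mem_Sums _ (add_mem_Sums h5 (smul_mem_Sums _ hS))

/-! ### Products over rings -/

/-- products of coordinates over a ring -/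
def sgR {R : Type} [CommRing R] (a : (i : ι) → α i → R) (m : (i : ι) → α i) : R := ∏ i, a i (m i)

omit [DecidableEq ι] [∀ i, Fintype (α i)] [∀ i, DecidableEq (α i)] in
theorem map_sgR {R S : Type} [CommRing R] [CommRing S] (φ : R →+* S) (a : (i : ι) → α i → R)
    (m : (i : ι) → α i) : φ (sgR a m) = sgR (fun i c => φ (a i c)) m := by
  unfold sgR
  rw [map_prod]

omit [Fintype ι] [∀ i, Fintype (α i)] in
theorem map_update {R S : Type} [CommRing R] [CommRing S] (φ : R →+* S)
    (a : (i : ι) → α i → R) (i : ι) (c : α i) :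
    (fun l d => φ (update a i (Pi.single c 1) l d)) =
      update (fun l d => φ (a l d)) i (Pi.single c 1) := by
  funext l d
  by_cases h : l = i
  · subst h
    rw [update_self, update_self]
    by_cases h2 : d = c
    · subst h2
      simp
    · simp [Pi.single_eq_of_ne h2]
  · rw [update_of_ne h, update_of_ne h]

end

/-! ### The vectors available at a word -/

section
variable {ι₁ ι₂ : Type} [Fintype ι₁] [DecidableEq ι₁] [Fintype ι₂] [DecidableEq ι₂]
  {α₁ : ι₁ → Type} [∀ i, Fintype (α₁ i)] [∀ i, DecidableEq (α₁ i)]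
  {α₂ : ι₂ → Type} [∀ i, Fintype (α₂ i)] [∀ i, DecidableEq (α₂ i)]
  {A : Type} [Fintype A] [DecidableEq A] (f : ((i : ι₂) → α₂ i) → A) (r : ℕ)

/-- names of the vectors available at the word `x` -/
abbrev Gn (α₁ : ι₁ → Type) (α₂ : ι₂ → Type) (r : ℕ) : Type :=
  (Fin r × Sigma α₁) ⊕ (Sigma α₂ × Fin r)

/-- the vectors available at the word `x` -/
def gen {R : Type} [CommRing R] (a : A → Fin r → (i : ι₁) → α₁ i → R) (x : (i : ι₂) → α₂ i) :
    Gn α₁ α₂ r → ((i : ι₁) → α₁ i) → R
  | Sum.inl (j, s) => sgR (update (a (f x) j) s.1 (Pi.single s.2 1))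
  | Sum.inr (s, j) => sgR (a (f (update x s.1 s.2)) j)

/-- the square matrix given by a choice `sp` of vectors -/
def Mx {R : Type} [CommRing R] (sp : ((i : ι₂) → α₂ i) → ((i : ι₁) → α₁ i) → Gn α₁ α₂ r)
    (a : A → Fin r → (i : ι₁) → α₁ i → R) (x : (i : ι₂) → α₂ i) :
    Matrix ((i : ι₁) → α₁ i) ((i : ι₁) → α₁ i) R :=
  Matrix.of fun z z' => gen f r a x (sp x z) z'

omit [Fintype ι₂] [∀ i, Fintype (α₁ i)] [∀ i, Fintype (α₂ i)] [∀ i, DecidableEq (α₂ i)]
  [Fintype A] [DecidableEq A] in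
theorem map_gen {R S : Type} [CommRing R] [CommRing S] (φ : R →+* S)
    (a : A → Fin r → (i : ι₁) → α₁ i → R) (x : (i : ι₂) → α₂ i) (g : Gn α₁ α₂ r)
    (z : (i : ι₁) → α₁ i) :
    φ (gen f r a x g z) = gen f r (fun c j i d => φ (a c j i d)) x g z := by
  rcases g with ⟨j, s⟩ | ⟨s, j⟩
  · show φ (sgR (update (a (f x) j) s.1 (Pi.single s.2 1)) z) =
      sgR (update (fun i d => φ (a (f x) j i d)) s.1 (Pi.single s.2 1)) z
    rw [map_sgR, map_update]
  · show φ (sgR (a (f (update x s.1 s.2)) j) z) =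
      sgR (fun i d => φ (a (f (update x s.1 s.2)) j i d)) z
    rw [map_sgR]

omit [∀ i, DecidableEq (α₂ i)] [Fintype A] [DecidableEq A] in
/-- generic choice -/
theorem exists_generic
    (hsp : ∀ x : (i : ι₂) → α₂ i, ∃ (sp : ((i : ι₁) → α₁ i) → Gn α₁ α₂ r)
      (q : A → Fin r → Par α₁), ∀ z, gen f r q x (sp z) = sg (bs z)) :
    ∃ p : A → Fin r → Par α₁, ∀ (x : (i : ι₂) → α₂ i) (z : (i : ι₁) → α₁ i),
      (sg (bs z) : Ten α₁) ∈ Submodule.span ℝ (range (gen f r p x)) := by
  classical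
  choose sp q hq using hsp
  let σ : Type := A × Fin r × Sigma α₁
  let Xp : A → Fin r → (i : ι₁) → α₁ i → MvPolynomial σ ℝ :=
    fun c j i a => MvPolynomial.X (c, j, ⟨i, a⟩)
  have hmap : ∀ (v : σ → ℝ) (x : (i : ι₂) → α₂ i),
      MvPolynomial.eval v (Mx f r sp Xp x).det =
        (Mx f r sp (fun c j i a => v (c, j, ⟨i, a⟩)) x).det := by
    intro v x
    rw [RingHom.map_det]
    congr 1
    ext z z'
    rw [RingHom.mapMatrix_apply, Matrix.map_apply]
    unfold Mx
    rw [Matrix.of_apply, Matrix.of_apply, map_gen]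
    simp only [Xp, MvPolynomial.eval_X]
  have hne : ∀ x, (Mx f r sp Xp x).det ≠ 0 := by
    intro x h0
    have h1 := hmap (fun u => q x u.1 u.2.1 u.2.2.1 u.2.2.2) x
    rw [h0, map_zero] at h1
    have h2 : Mx f r sp (fun c j i a => q x c j i a) x = 1 := by
      ext z z'
      show gen f r (q x) x (sp x z) z' = _
      rw [hq x z, sg_bs_apply, Matrix.one_apply]
    have h3 : (Mx f r sp (fun c j i a => (fun u : σ => q x u.1 u.2.1 u.2.2.1 u.2.2.2)
        (c, j, ⟨i, a⟩)) x) = 1 := h2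
    rw [h3, Matrix.det_one] at h1
    exact zero_ne_one h1
  have hprod : (∏ x, (Mx f r sp Xp x).det) ≠ 0 := Finset.prod_ne_zero_iff.2 fun x _ => hne x
  obtain ⟨v, hv⟩ : ∃ v : σ → ℝ, MvPolynomial.eval v (∏ x, (Mx f r sp Xp x).det) ≠ 0 := by
    by_contra hcon
    push Not at hcon
    exact hprod (MvPolynomial.funext fun v => by rw [hcon v, map_zero])
  rw [map_prod, Finset.prod_ne_zero_iff] at hv
  refine ⟨fun c j i a => v (c, j, ⟨i, a⟩), fun x z => ?_⟩
  set p : A → Fin r → Par α₁ := fun c j i a => v (c, j, ⟨i, a⟩) with hp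
  have hdet : (Mx f r sp p x).det ≠ 0 := by
    rw [← hmap v x]
    exact hv x (Finset.mem_univ x)
  have hunit : IsUnit (Mx f r sp p x).det := isUnit_iff_ne_zero.2 hdet
  have hinv : (Mx f r sp p x)⁻¹ * Mx f r sp p x = 1 := Matrix.nonsing_inv_mul _ hunit
  have h4 : (sg (bs z) : Ten α₁) = ∑ z', (Mx f r sp p x)⁻¹ z z' • gen f r p x (sp x z') := by
    funext w
    have h5 := congrFun (congrFun hinv z) w
    rw [Matrix.mul_apply, Matrix.one_apply] at h5
    rw [sg_bs_apply, Finset.sum_apply]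
    exact h5.symm
  rw [h4]
  exact Submodule.sum_mem _ fun z' _ => Submodule.smul_mem _ _
    (Submodule.subset_span ⟨_, rfl⟩)

end

end Pool.Agent.H93.TR
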