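import Pool.Agent.H93.TR.Main

/-!
MP_b12e0e_ag (helper93): a greedy choice of words, and the upper bound obtained from it.
-/

set_option autoImplicit false

open Set Function Module

namespace Pool.Agent.H93.TR

open Pool.Agent.H19.TR

section
variable {ι : Type} [Fintype ι] [DecidableEq ι] {α : ι → Type} [∀ i, Fintype (α i)]
  [∀ i, DecidableEq (α i)]

/-- the word `z` is at distance at most one from `y` -/
def Near (y z : (i : ι) → α i) : Prop := ∃ i c, z = update y i c

omit [Fintype ι] [∀ i, Fintype (α i)] [∀ i, DecidableEq (α i)] in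
theorem Near.symm {y z : (i : ι) → α i} (h : Near y z) : Near z y := by
  obtain ⟨i, c, rfl⟩ := h
  exact ⟨i, y i, by rw [update_idem, update_eq_self]⟩

theorem card_ball [Nonempty ι] (y : (i : ι) → α i) [DecidablePred (Near y)] :
    1 + sdim α ≤ (Finset.univ.filter (Near y)).card := by
  classical
  have h := card_near (r := 1) (fun _ => y) fun j j' _ _ _ _ _ => Subsingleton.elim j j'
  rw [one_mul] at h
  refine h.trans (le_of_eq ?_)
  rw [Fintype.card_subtype]
  congr 1
  ext z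
  rw [Finset.mem_filter, Finset.mem_filter]
  exact ⟨fun ⟨h1, _, i, c, hz⟩ => ⟨h1, i, c, hz⟩, fun ⟨h1, i, c, hz⟩ => ⟨h1, 0, i, c, hz⟩⟩

/-- one step: some ball contains its share of `U` -/
theorem exists_ball [Nonempty ι] [Nonempty ((i : ι) → α i)] (U : Finset ((i : ι) → α i)) :
    ∃ (y : (i : ι) → α i) (V : Finset ((i : ι) → α i)), V ⊆ U ∧ (∀ z ∈ V, Near y z) ∧
      U.card * (1 + sdim α) ≤ V.card * Fintype.card ((i : ι) → α i) := by
  classical
  by_contra hcon
  push Not at hcon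
  have hcon' : ∀ y, (U.filter (Near y)).card * Fintype.card ((i : ι) → α i) <
      U.card * (1 + sdim α) := fun y =>
    hcon y _ (Finset.filter_subset _ _) fun z hz => (Finset.mem_filter.1 hz).2
  have h1 : ∑ y : (i : ι) → α i, (U.filter (Near y)).card * Fintype.card ((i : ι) → α i) <
      ∑ _y : (i : ι) → α i, U.card * (1 + sdim α) :=
    Finset.sum_lt_sum_of_nonempty Finset.univ_nonempty fun y _ => hcon' y
  rw [Finset.sum_const, Finset.card_univ, smul_eq_mul, ← Finset.sum_mul] at h1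
  have h2 : ∑ y : (i : ι) → α i, (U.filter (Near y)).card =
      ∑ u ∈ U, (Finset.univ.filter fun y => Near y u).card := by
    simp only [Finset.card_filter]
    rw [Finset.sum_comm]
  have h3 : U.card * (1 + sdim α) ≤ ∑ u ∈ U, (Finset.univ.filter fun y => Near y u).card := by
    rw [← smul_eq_mul, ← Finset.sum_const]
    refine Finset.sum_le_sum fun u _ => ?_
    refine (card_ball u).trans (Finset.card_le_card ?_)
    intro y hy
    rw [Finset.mem_filter] at hy ⊢
    exact ⟨hy.1, hy.2.symm⟩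
  rw [← h2] at h3
  have h4 := Nat.mul_le_mul_right (Fintype.card ((i : ι) → α i)) h3
  rw [mul_comm (U.card * (1 + sdim α))] at h4
  omega

/-- the greedy choice -/
theorem exists_greedy [Nonempty ι] [Nonempty ((i : ι) → α i)] (r : ℕ) :
    ∃ (y : ℕ → (i : ι) → α i) (U : Finset ((i : ι) → α i)),
      (∀ z, z ∉ U → ∃ j < r, Near (y j) z) ∧
      (U.card : ℝ) ≤ Fintype.card ((i : ι) → α i) *
          (1 - r * ((1 + sdim α : ℕ) / Fintype.card ((i : ι) → α i) : ℝ) +
            (r * ((1 + sdim α : ℕ) / Fintype.card ((i : ι) → α i) : ℝ)) ^ 2 / 2) := by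
  classical
  set N := Fintype.card ((i : ι) → α i) with hN
  have hNpos : (0 : ℝ) < N := by exact_mod_cast Fintype.card_pos
  set β : ℝ := ((1 + sdim α : ℕ) / N : ℝ) with hβ
  have hβ0 : 0 ≤ β := by positivity
  have hβ1 : β ≤ 1 := by
    rw [hβ, div_le_one hNpos]
    have y0 : (i : ι) → α i := Classical.arbitrary _
    have h1 := (card_ball y0).trans (Finset.card_filter_le _ _)
    rw [Finset.card_univ] at h1
    exact_mod_cast h1
  induction r with
  | zero =>
    refine ⟨fun _ => Classical.arbitrary _, Finset.univ, fun z hz => absurd (Finset.mem_univ z) hz,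
      ?_⟩
    rw [Finset.card_univ]
    simp [hN]
  | succ r ih =>
    obtain ⟨y, U, hy, hUc⟩ := ih
    obtain ⟨w, V, hVU, hVw, hw⟩ := exists_ball U
    refine ⟨update y r w, U \ V, fun z hz => ?_, ?_⟩
    · rw [Finset.mem_sdiff, not_and_or, not_not] at hz
      rcases hz with hz | hz
      · obtain ⟨j, hj, hjz⟩ := hy z hz
        refine ⟨j, by omega, ?_⟩
        rwa [update_of_ne hj.ne]
      · refine ⟨r, by omega, ?_⟩
        rw [update_self]
        exact hVw z hz
    have h2 : (U \ V).card + V.card = U.card := Finset.card_sdiff_add_card_eq_card hVU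
    have h3 : (U.card : ℝ) * β ≤ V.card := by
      rw [hβ, mul_div_assoc', div_le_iff₀ hNpos]
      exact_mod_cast hw
    have h5 : ((U \ V).card : ℝ) ≤ U.card * (1 - β) := by
      have : ((U \ V).card : ℝ) + V.card = U.card := by exact_mod_cast h2
      linarith
    refine h5.trans ?_
    have h6 : (U.card : ℝ) * (1 - β) ≤ (N * (1 - r * β + (r * β) ^ 2 / 2)) * (1 - β) :=
      mul_le_mul_of_nonneg_right hUc (by linarith)
    refine h6.trans ?_
    have hr0 : (0 : ℝ) ≤ r := Nat.cast_nonneg r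
    have h7 : (1 - r * β + (r * β) ^ 2 / 2) * (1 - β) ≤
        1 - (r + 1) * β + ((r + 1) * β) ^ 2 / 2 := by
      have h8 : 0 ≤ (r * β) ^ 2 / 2 * β + β ^ 2 / 2 := by positivity
      nlinarith
    push_cast
    rw [mul_assoc]
    exact mul_le_mul_of_nonneg_left h7 hNpos.le

end

section
variable {ι₁ ι₂ : Type} [Fintype ι₁] [DecidableEq ι₁] [Fintype ι₂] [DecidableEq ι₂]
  {α₁ : ι₁ → Type} [∀ i, Fintype (α₁ i)] [∀ i, DecidableEq (α₁ i)]
  {α₂ : ι₂ → Type} [∀ i, Fintype (α₂ i)] [∀ i, DecidableEq (α₂ i)]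
  {A : Type} (f : ((i : ι₂) → α₂ i) → A) {r : ℕ}

/-- the special choice of vectors at the word `x`, if few words are not near to the `y j` -/
theorem exists_special_gen (hf : Lab f) (y : Fin r → (i : ι₁) → α₁ i)
    (U : Finset ((i : ι₁) → α₁ i)) (hyU : ∀ z, z ∉ U → ∃ j i c, z = update (y j) i c)
    (hU : U.card ≤ sdim α₂ * r) (x : (i : ι₂) → α₂ i) :
    ∃ (sp : ((i : ι₁) → α₁ i) → Gn α₁ α₂ r) (q : A → Fin r → Par α₁),
      ∀ z, gen f r q x (sp z) = sg (bs z) := by
  classical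
  have h2 : Fintype.card {z : (i : ι₁) → α₁ i // ¬ ∃ j i c, z = update (y j) i c} ≤
      Fintype.card (Nb x × Fin r) := by
    rw [Fintype.card_prod, card_Nb, Fintype.card_fin]
    refine le_trans ?_ hU
    rw [Fintype.card_subtype]
    refine Finset.card_le_card fun z hz => ?_
    rw [Finset.mem_filter] at hz
    by_contra hzU
    exact hz.2 (hyU z hzU)
  obtain ⟨g⟩ := Function.Embedding.nonempty_of_card_le h2
  let sp : ((i : ι₁) → α₁ i) → Gn α₁ α₂ r := fun z =>
    if h : ∃ j i c, z = update (y j) i c then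
      Sum.inl (h.choose, ⟨h.choose_spec.choose, h.choose_spec.choose_spec.choose⟩)
    else Sum.inr ((g ⟨z, h⟩).1.1, (g ⟨z, h⟩).2)
  let q : A → Fin r → Par α₁ := fun c j =>
    if c = f x then bs (y j)
    else if h : ∃ u : {z : (i : ι₁) → α₁ i // ¬ ∃ j i c, z = update (y j) i c},
      f (update x (g u).1.1.1 (g u).1.1.2) = c ∧ (g u).2 = j then bs h.choose.1
    else bs (y j)
  refine ⟨sp, q, fun z => ?_⟩
  by_cases h : ∃ j i c, z = update (y j) i c
  · have h3 : sp z = Sum.inl (h.choose, ⟨h.choose_spec.choose,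
        h.choose_spec.choose_spec.choose⟩) := dif_pos h
    rw [h3]
    show sg (update (q (f x) h.choose) h.choose_spec.choose
      (Pi.single h.choose_spec.choose_spec.choose 1)) = sg (bs z)
    have h4 : q (f x) h.choose = bs (y h.choose) := if_pos rfl
    rw [h4, ← bs_update, ← h.choose_spec.choose_spec.choose_spec]
  · have h3 : sp z = Sum.inr ((g ⟨z, h⟩).1.1, (g ⟨z, h⟩).2) := dif_neg h
    rw [h3]
    show sg (q (f (update x (g ⟨z, h⟩).1.1.1 (g ⟨z, h⟩).1.1.2)) (g ⟨z, h⟩).2) = sg (bs z)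
    have h5 : ∃ u : {z : (i : ι₁) → α₁ i // ¬ ∃ j i c, z = update (y j) i c},
      f (update x (g u).1.1.1 (g u).1.1.2) =
        f (update x (g ⟨z, h⟩).1.1.1 (g ⟨z, h⟩).1.1.2) ∧ (g u).2 = (g ⟨z, h⟩).2 :=
      ⟨⟨z, h⟩, rfl, rfl⟩
    have h6 : q (f (update x (g ⟨z, h⟩).1.1.1 (g ⟨z, h⟩).1.1.2)) (g ⟨z, h⟩).2 =
        bs h5.choose.1 := by
      show (if _ = f x then _ else _) = _
      rw [if_neg (hf.1 x _ _ (g ⟨z, h⟩).1.2), dif_pos h5]
    have h7 : h5.choose = ⟨z, h⟩ := by
      apply g.injective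
      have h8 := h5.choose_spec
      refine Prod.ext (Subtype.ext ?_) h8.2
      exact hf.2 x _ _ _ _ (g h5.choose).1.2 (g ⟨z, h⟩).1.2 h8.1
    rw [h6, h7]

end

section
variable {ι₁ ι₂ : Type} [Fintype ι₁] [DecidableEq ι₁] [Fintype ι₂] [DecidableEq ι₂]
  {α : ι₁ ⊕ ι₂ → Type} [∀ i, Fintype (α i)] [∀ i, DecidableEq (α i)]

/-- the upper bound from the greedy choice -/
theorem greedy_upper [Nonempty ι₁] [Nonempty ((i : ι₁) → α (Sum.inl i))]
    {A : Type} [AddCommGroup A] [Fintype A] (h2 : ∀ g : A, g + g = 0)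
    (φ : (i : ι₂) → α (Sum.inr i) → A)
    (hφ : Lab fun x : (i : ι₂) → α (Sum.inr i) => ∑ i, φ i (x i)) {r : ℕ}
    (hr : (Fintype.card ((i : ι₁) → α (Sum.inl i)) : ℝ) +
      (r * (1 + sdim fun i : ι₁ => α (Sum.inl i)) : ℝ) ^ 2 /
        (2 * Fintype.card ((i : ι₁) → α (Sum.inl i))) ≤ r * (1 + sdim α)) (T : Ten α) :
    T ∈ Sums α (r * Fintype.card ((i : ι₂) → α (Sum.inr i)) +
      Fintype.card ((i : ι₁) → α (Sum.inl i)) * Fintype.card A) := by
  classical
  have hs : sdim α = sdim (fun i : ι₁ => α (Sum.inl i)) + sdim fun i : ι₂ => α (Sum.inr i) := by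
    unfold sdim
    rw [Fintype.sum_sum_type]
  obtain ⟨y, U, hy, hy'⟩ := exists_greedy (α := fun i : ι₁ => α (Sum.inl i)) r
  set f : ((i : ι₂) → α (Sum.inr i)) → A := fun x => ∑ i, φ i (x i) with hf
  set N₁ := Fintype.card ((i : ι₁) → α (Sum.inl i)) with hN₁
  have hNpos : (0 : ℝ) < N₁ := by exact_mod_cast Fintype.card_pos
  have hU : U.card ≤ (sdim fun i : ι₂ => α (Sum.inr i)) * r := by
    have h3 : (N₁ : ℝ) * (1 - r * ((1 + sdim (fun i : ι₁ => α (Sum.inl i)) : ℕ) / N₁ : ℝ) +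
        (r * ((1 + sdim (fun i : ι₁ => α (Sum.inl i)) : ℕ) / N₁ : ℝ)) ^ 2 / 2) ≤
        (sdim fun i : ι₂ => α (Sum.inr i)) * r := by
      rw [hs] at hr
      push_cast at hr ⊢
      have h4 : (N₁ : ℝ) * (1 - r * ((1 + (sdim fun i : ι₁ => α (Sum.inl i)) : ℝ) / N₁) +
        (r * ((1 + (sdim fun i : ι₁ => α (Sum.inl i)) : ℝ) / N₁)) ^ 2 / 2) =
        N₁ + (r * (1 + sdim fun i : ι₁ => α (Sum.inl i)) : ℝ) ^ 2 / (2 * N₁) -
          r * (1 + sdim fun i : ι₁ => α (Sum.inl i)) := by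
        field_simp
        ring
      rw [h4]
      nlinarith
    exact_mod_cast hy'.trans h3
  obtain ⟨p, hp⟩ := exists_generic f r
    (exists_special_gen f hφ (fun j : Fin r => y j) U
      (fun z hz => by
        obtain ⟨j, hj, i, c, hc⟩ := hy z hz
        exact ⟨⟨j, hj⟩, i, c, hc⟩) hU)
  have hspan := span_lab f p hp
  have hT0 : (∑ l : ((i : ι₂) → α (Sum.inr i)) × Fin r,
      sg (jn (p (f l.1) l.2) (bs l.1)) : Ten α) ∈
      Sums α (Fintype.card ((i : ι₁) → α (Sum.inl i)) * Fintype.card A) := by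
    have h3 : (∑ l : ((i : ι₂) → α (Sum.inr i)) × Fin r,
        sg (jn (p (f l.1) l.2) (bs l.1)) : Ten α) = fun y : (i : ι₁ ⊕ ι₂) → α i =>
        (fun z a => ∑ j, sg (p a j) z) (fun i => y (Sum.inl i)) (∑ i, φ i (y (Sum.inr i))) := by
      funext y
      rw [sum_lab]
    rw [h3]
    exact lab_mem_Sums h2 φ fun z a => ∑ j, sg (p a j) z
  have h4 := all_mem_gen (fun l : ((i : ι₂) → α (Sum.inr i)) × Fin r =>
    jn (p (f l.1) l.2) (bs l.1)) hspan hT0 T
  rwa [Fintype.card_prod, Fintype.card_fin, mul_comm _ r] at h4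

end

end Pool.Agent.H93.TR
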