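import Pool.Agent.H93.TR.Spec
import Pool.Agent.H93.TR.Group

/-!
MP_b12e0e_ag (helper93): the upper bound for formats split into two parts.
-/

set_option autoImplicit false

open Set Function Module

namespace Pool.Agent.H93.TR

open Pool.Agent.H19.TR

section
variable {ι₁ ι₂ : Type} [Fintype ι₁] [DecidableEq ι₁] [Fintype ι₂] [DecidableEq ι₂]
  {α : ι₁ ⊕ ι₂ → Type} [∀ i, Fintype (α i)] [∀ i, DecidableEq (α i)]

/-- joining parameters -/
def jn (p : Par fun i : ι₁ => α (Sum.inl i)) (w : Par fun i : ι₂ => α (Sum.inr i)) : Par α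
  | Sum.inl i => p i
  | Sum.inr i => w i

omit [DecidableEq ι₁] [DecidableEq ι₂] [∀ i, Fintype (α i)] [∀ i, DecidableEq (α i)] in
theorem sg_jn (p : Par fun i : ι₁ => α (Sum.inl i)) (w : Par fun i : ι₂ => α (Sum.inr i))
    (x : (i : ι₁ ⊕ ι₂) → α i) :
    sg (jn p w) x = sg p (fun i => x (Sum.inl i)) * sg w (fun i => x (Sum.inr i)) := by
  unfold sg
  rw [Fintype.prod_sum_type]
  rfl

omit [Fintype ι₁] [Fintype ι₂] [∀ i, Fintype (α i)] [∀ i, DecidableEq (α i)] in
theorem update_jn_inl (p : Par fun i : ι₁ => α (Sum.inl i))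
    (w : Par fun i : ι₂ => α (Sum.inr i)) (i : ι₁) (h : α (Sum.inl i) → ℝ) :
    update (jn p w) (Sum.inl i) h = jn (update p i h) w := by
  funext l
  rcases l with l | l
  · by_cases hl : l = i
    · subst hl
      rw [update_self]
      exact (update_self (β := fun i : ι₁ => α (Sum.inl i) → ℝ) l h p).symm
    · rw [update_of_ne (fun h' => hl (Sum.inl_injective h'))]
      exact (update_of_ne (β := fun i : ι₁ => α (Sum.inl i) → ℝ) hl h p).symm
  · rw [update_of_ne Sum.inr_ne_inl]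
    rfl

omit [Fintype ι₁] [Fintype ι₂] [∀ i, Fintype (α i)] [∀ i, DecidableEq (α i)] in
theorem update_jn_inr (p : Par fun i : ι₁ => α (Sum.inl i))
    (w : Par fun i : ι₂ => α (Sum.inr i)) (i : ι₂) (h : α (Sum.inr i) → ℝ) :
    update (jn p w) (Sum.inr i) h = jn p (update w i h) := by
  funext l
  rcases l with l | l
  · rw [update_of_ne Sum.inl_ne_inr]
    rfl
  · by_cases hl : l = i
    · subst hl
      rw [update_self]
      exact (update_self (β := fun i : ι₂ => α (Sum.inr i) → ℝ) l h w).symm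
    · rw [update_of_ne (fun h' => hl (Sum.inr_injective h'))]
      exact (update_of_ne (β := fun i : ι₂ => α (Sum.inr i) → ℝ) hl h w).symm

/-- the product with a basis tensor of the second part -/
def tm (x : (i : ι₂) → α (Sum.inr i)) :
    Ten (fun i : ι₁ => α (Sum.inl i)) →ₗ[ℝ] Ten α where
  toFun S y := S (fun i => y (Sum.inl i)) * sg (bs x) fun i => y (Sum.inr i)
  map_add' S S' := by
    funext y
    simp [add_mul]
  map_smul' c S := by
    funext y
    simp [mul_assoc]

omit [DecidableEq ι₁] [DecidableEq ι₂] [∀ i, Fintype (α i)] in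
theorem tm_sg (x : (i : ι₂) → α (Sum.inr i)) (p : Par fun i : ι₁ => α (Sum.inl i)) :
    tm x (sg p) = sg (jn p (bs x)) := by
  funext y
  rw [sg_jn]
  rfl

omit [Fintype ι₁] [Fintype ι₂] [DecidableEq ι₁] [DecidableEq ι₂] [∀ i, Fintype (α i)] in
theorem bs_jn (x : (i : ι₁ ⊕ ι₂) → α i) :
    bs x = jn (bs fun i => x (Sum.inl i)) (bs fun i => x (Sum.inr i)) := by
  funext l
  rcases l with l | l <;> rfl

omit [∀ i, Fintype (α i)] in
/-- the span condition for the tensor given by labels -/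
theorem span_lab {A : Type} (f : ((i : ι₂) → α (Sum.inr i)) → A) {r : ℕ}
    (p : A → Fin r → Par fun i : ι₁ => α (Sum.inl i))
    (hp : ∀ (x : (i : ι₂) → α (Sum.inr i)) (z : (i : ι₁) → α (Sum.inl i)),
      sg (bs z) ∈ Submodule.span ℝ (range (gen f r p x)))
    (y : (i : ι₁ ⊕ ι₂) → α i) :
    sg (bs y) ∈ Submodule.span ℝ {S : Ten α | ∃ (l : ((i : ι₂) → α (Sum.inr i)) × Fin r)
      (i : ι₁ ⊕ ι₂) (h : α i → ℝ), S = sg (update (jn (p (f l.1) l.2) (bs l.1)) i h)} := by
  set x : (i : ι₂) → α (Sum.inr i) := fun i => y (Sum.inr i) with hx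
  set z : (i : ι₁) → α (Sum.inl i) := fun i => y (Sum.inl i) with hz
  have h1 : sg (bs y) = tm x (sg (bs z)) := by
    rw [tm_sg, bs_jn]
  rw [h1]
  have h2 := Submodule.mem_map_of_mem (f := tm x) (hp x z)
  rw [Submodule.map_span] at h2
  refine Submodule.span_mono ?_ h2
  rintro S ⟨S', ⟨g, rfl⟩, rfl⟩
  rcases g with ⟨j, s⟩ | ⟨s, j⟩
  · refine ⟨(x, j), Sum.inl s.1, Pi.single s.2 1, ?_⟩
    rw [update_jn_inl, ← tm_sg]
    rfl
  · refine ⟨(update x s.1 s.2, j), Sum.inr s.1, Pi.single (x s.1) 1, ?_⟩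
    rw [update_jn_inr, ← bs_update, update_idem, update_eq_self, ← tm_sg]
    rfl

omit [DecidableEq ι₁] in
/-- the value of the tensor given by labels -/
theorem sum_lab {A : Type} (f : ((i : ι₂) → α (Sum.inr i)) → A) {r : ℕ}
    (p : A → Fin r → Par fun i : ι₁ => α (Sum.inl i)) (y : (i : ι₁ ⊕ ι₂) → α i) :
    (∑ l : ((i : ι₂) → α (Sum.inr i)) × Fin r, sg (jn (p (f l.1) l.2) (bs l.1)) : Ten α) y =
      ∑ j, sg (p (f fun i => y (Sum.inr i)) j) fun i => y (Sum.inl i) := by
  rw [Finset.sum_apply, Fintype.sum_prod_type,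
    Finset.sum_eq_single (fun i => y (Sum.inr i))]
  · refine Finset.sum_congr rfl fun j _ => ?_
    rw [sg_jn, sg_bs_apply, if_pos rfl, mul_one]
  · intro x _ hx
    refine Finset.sum_eq_zero fun j _ => ?_
    rw [sg_jn, sg_bs_apply, if_neg hx, mul_zero]
  · intro h
    exact absurd (Finset.mem_univ _) h

/-- functions of a label are short sums of products -/
theorem lab_mem_Sums {A : Type} [AddCommGroup A] [Fintype A] [DecidableEq A]
    (h2 : ∀ g : A, g + g = 0) (φ : (i : ι₂) → α (Sum.inr i) → A) [Nonempty (ι₁ ⊕ ι₂)]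
    (G : ((i : ι₁) → α (Sum.inl i)) → A → ℝ) :
    (fun y : (i : ι₁ ⊕ ι₂) → α i =>
      G (fun i => y (Sum.inl i)) (∑ i, φ i (y (Sum.inr i)))) ∈
      Sums α (Fintype.card ((i : ι₁) → α (Sum.inl i)) * Fintype.card A) := by
  classical
  have hre : ∀ (ψ : AddChar A ℂ) (g : A), ψ g = ((ψ g).re : ℂ) := by
    intro ψ g
    have h1 : ψ g * ψ g = 1 := by
      rw [← AddChar.map_add_eq_mul, h2, AddChar.map_zero_eq_one]
    rcases mul_self_eq_one_iff.1 h1 with h | h <;> simp [h]
  have hmul : ∀ (ψ : AddChar A ℂ) (g h : A), (ψ (g + h)).re = (ψ g).re * (ψ h).re := by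
    intro ψ g h
    rw [AddChar.map_add_eq_mul, hre ψ g, hre ψ h]
    simp
  let κ := ((i : ι₁) → α (Sum.inl i)) × AddChar A ℂ
  have hc : Fintype.card κ = Fintype.card ((i : ι₁) → α (Sum.inl i)) * Fintype.card A := by
    rw [Fintype.card_prod, AddChar.card_eq]
  let v : κ → Par α := fun k => jn (bs k.1) fun i a => (k.2 (φ i a)).re
  let c : κ → ℝ := fun k => ∑ g : A, (Fintype.card A : ℝ)⁻¹ * (k.2 g).re * G k.1 g
  have hS := sum_smul_mem_Sums (α := α) c v
  rw [hc] at hS
  have heq : (fun y : (i : ι₁ ⊕ ι₂) → α i =>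
      G (fun i => y (Sum.inl i)) (∑ i, φ i (y (Sum.inr i)))) = ∑ l, c l • sg (v l) := by
    funext y
    rw [Finset.sum_apply, Fintype.sum_prod_type, Finset.sum_eq_single (fun i => y (Sum.inl i))]
    · set z : (i : ι₁) → α (Sum.inl i) := fun i => y (Sum.inl i) with hz
      set a : A := ∑ i, φ i (y (Sum.inr i)) with ha
      have h3 : ∀ ψ : AddChar A ℂ, (c (z, ψ) • sg (v (z, ψ))) y =
          ∑ g : A, (Fintype.card A : ℝ)⁻¹ * (ψ (a + g)).re * G z g := by
        intro ψ
        rw [Pi.smul_apply, smul_eq_mul]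
        show c (z, ψ) * sg (jn (bs z) fun i a => (ψ (φ i a)).re) y = _
        rw [sg_jn, sg_bs_apply, if_pos rfl, one_mul]
        have h4 : sg (fun i a => (ψ (φ i a)).re) (fun i => y (Sum.inr i)) = (ψ a).re := by
          have h5 : (∏ i, ψ (φ i (y (Sum.inr i)))) =
              ((∏ i, (ψ (φ i (y (Sum.inr i)))).re : ℝ) : ℂ) := by
            rw [Complex.ofReal_prod]
            exact Finset.prod_congr rfl fun i _ => hre ψ _
          rw [ha, char_sum, h5, Complex.ofReal_re]
          rfl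
        rw [h4, Finset.sum_mul]
        refine Finset.sum_congr rfl fun g _ => ?_
        show (Fintype.card A : ℝ)⁻¹ * (ψ g).re * G z g * (ψ a).re = _
        rw [hmul]
        ring
      rw [Finset.sum_congr rfl fun ψ _ => h3 ψ, Finset.sum_comm]
      have h6 : ∀ g : A, ∑ ψ : AddChar A ℂ, (Fintype.card A : ℝ)⁻¹ * (ψ (a + g)).re * G z g =
          (if a + g = 0 then 1 else 0) * G z g := by
        intro g
        rw [delta_eq, Finset.sum_mul]
      rw [Finset.sum_congr rfl fun g _ => h6 g, Finset.sum_eq_single a]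
      · rw [h2, if_pos rfl, one_mul]
      · intro g _ hg
        rw [if_neg, zero_mul]
        intro h7
        apply hg
        have h8 : a + g = a + a := by rw [h7, h2]
        exact add_left_cancel h8
      · intro h
        exact absurd (Finset.mem_univ _) h
    · intro z _ hz
      refine Finset.sum_eq_zero fun ψ _ => ?_
      rw [Pi.smul_apply, smul_eq_mul]
      show c (z, ψ) * sg (jn (bs z) fun i a => (ψ (φ i a)).re) y = _
      rw [sg_jn, sg_bs_apply, if_neg hz, zero_mul, mul_zero]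
    · intro h
      exact absurd (Finset.mem_univ _) h
  rw [heq]
  exact hS

/-- the main upper bound -/
theorem main_upper [Nonempty ι₁] {A₁ : Type} [Fintype A₁]
    {F : ((i : ι₁) → α (Sum.inl i)) → A₁} (hF : Lab F)
    {A : Type} [AddCommGroup A] [Fintype A] (h2 : ∀ g : A, g + g = 0)
    (φ : (i : ι₂) → α (Sum.inr i) → A)
    (hφ : Lab fun x : (i : ι₂) → α (Sum.inr i) => ∑ i, φ i (x i)) {r : ℕ}
    (hA₁ : Fintype.card A₁ ≤ 1 + sdim α)
    (hr : r * (1 + sdim α) ≤ Fintype.card ((i : ι₁) → α (Sum.inl i)) + sdim α)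
    (hr' : Fintype.card ((i : ι₁) → α (Sum.inl i)) ≤ r * (1 + sdim α)) (T : Ten α) :
    T ∈ Sums α (r * Fintype.card ((i : ι₂) → α (Sum.inr i)) +
      Fintype.card ((i : ι₁) → α (Sum.inl i)) * Fintype.card A) := by
  classical
  obtain ⟨y, hy⟩ := exists_code hF hA₁ (r := r) (by omega)
  have hs : sdim α = sdim (fun i : ι₁ => α (Sum.inl i)) + sdim fun i : ι₂ => α (Sum.inr i) := by
    unfold sdim
    rw [Fintype.sum_sum_type]
  set f : ((i : ι₂) → α (Sum.inr i)) → A := fun x => ∑ i, φ i (x i) with hf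
  obtain ⟨p, hp⟩ := exists_generic f r
    (exists_special f hφ y hy (by rw [add_assoc, ← hs]; exact hr'))
  have hspan := span_lab f p hp
  have hT0 : (∑ l : ((i : ι₂) → α (Sum.inr i)) × Fin r,
      sg (jn (p (f l.1) l.2) (bs l.1)) : Ten α) ∈
      Sums α (Fintype.card ((i : ι₁) → α (Sum.inl i)) * Fintype.card A) := by
    have h3 : (∑ l : ((i : ι₂) → α (Sum.inr i)) × Fin r,
        sg (jn (p (f l.1) l.2) (bs l.1)) : Ten α) = fun y : (i : ι₁ ⊕ ι₂) → α i =>
        (fun z a => ∑ j, sg (p a j) z) (fun i => y (Sum.inl i)) (∑ i, φ i (y (Sum.inr i))) := by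
      funext y
      rw [sum_lab]
    rw [h3]
    exact lab_mem_Sums h2 φ fun z a => ∑ j, sg (p a j) z
  have h4 := all_mem_gen (fun l : ((i : ι₂) → α (Sum.inr i)) × Fin r =>
    jn (p (f l.1) l.2) (bs l.1)) hspan hT0 T
  rwa [Fintype.card_prod, Fintype.card_fin, mul_comm _ r] at h4

end

end Pool.Agent.H93.TR
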