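import Pool.Agent.H93.TR.Gen

/-!
MP_b12e0e_ag (helper93): codes from labels, the special choice of vectors, the main upper bound.
-/

set_option autoImplicit false

open Set Function Module

namespace Pool.Agent.H93.TR

open Pool.Agent.H19.TR

section
variable {ι : Type} [Fintype ι] [DecidableEq ι] {α : ι → Type} [∀ i, Fintype (α i)]
  [∀ i, DecidableEq (α i)]

/-- names of the neighbours of the word `x` -/
abbrev Nb (x : (i : ι) → α i) : Type := {s : Sigma α // s.2 ≠ x s.1}

omit [DecidableEq ι] in
theorem card_Nb (x : (i : ι) → α i) : Fintype.card (Nb x) = sdim α := by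
  have e : Nb x ≃ (Σ i, {a : α i // a ≠ x i}) :=
    { toFun := fun s => ⟨s.1.1, s.1.2, s.2⟩
      invFun := fun s => ⟨⟨s.1, s.2.1⟩, s.2.2⟩
      left_inv := fun _ => rfl
      right_inv := fun _ => rfl }
  rw [Fintype.card_congr e, Fintype.card_sigma]
  unfold sdim
  refine Finset.sum_congr rfl fun i _ => ?_
  rw [Fintype.card_subtype_compl, Fintype.card_subtype_eq]

omit [Fintype ι] [∀ i, Fintype (α i)] [∀ i, DecidableEq (α i)] in
/-- fibres of labels are codes -/
theorem Lab.eq_of_update {A : Type} {F : ((i : ι) → α i) → A} (hF : Lab F)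
    {y y' : (i : ι) → α i} (h : F y = F y') {i i' : ι} {a : α i} {a' : α i'}
    (hu : update y i a = update y' i' a') : y = y' := by
  set z := update y i a with hz
  have h1 : y = update z i (y i) := by
    rw [hz, update_idem, update_eq_self]
  have h2 : y' = update z i' (y' i') := by
    rw [hu, update_idem, update_eq_self]
  by_cases h3 : y i = z i
  · have h4 : y = z := by rw [h1, h3, update_eq_self]
    by_cases h5 : y' i' = z i'
    · rw [h4, h2, h5, update_eq_self]
    · exfalso
      refine hF.1 z i' (y' i') h5 ?_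
      rw [← h2, ← h, h4]
  · by_cases h5 : y' i' = z i'
    · exfalso
      have h4 : y' = z := by rw [h2, h5, update_eq_self]
      refine hF.1 z i (y i) h3 ?_
      rw [← h1, h, h4]
    · have h6 := hF.2 z i i' (y i) (y' i') h3 h5 (by rw [← h1, ← h2, h])
      obtain ⟨rfl, h7⟩ := Sigma.mk.inj_iff.1 h6
      rw [h1, h2, eq_of_heq h7]

/-- the words near a code -/
theorem card_near {r : ℕ} (y : Fin r → (i : ι) → α i) [Nonempty ι]
    (hy : ∀ j j' i i' a a', update (y j) i a = update (y j') i' a' → j = j') :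
    r * (1 + sdim α) ≤ Fintype.card {z : (i : ι) → α i // ∃ j i c, z = update (y j) i c} := by
  classical
  obtain ⟨i0⟩ := (inferInstance : Nonempty ι)
  let g : (Σ j : Fin r, Option (Nb (y j))) →
      {z : (i : ι) → α i // ∃ j i c, z = update (y j) i c} := fun s =>
    match s with
    | ⟨j, none⟩ => ⟨y j, j, i0, y j i0, by simp⟩
    | ⟨j, some s⟩ => ⟨update (y j) s.1.1 s.1.2, j, s.1.1, s.1.2, rfl⟩
  have hg : Injective g := by
    rintro ⟨j, o⟩ ⟨j', o'⟩ h
    have hj : j = j' := by
      have h1 := congrArg Subtype.val h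
      cases o with
      | none =>
        cases o' with
        | none =>
          have h2 : y j = y j' := h1
          exact hy j j' i0 i0 (y j i0) (y j' i0) (by simpa using h2)
        | some t =>
          have h2 : y j = update (y j') t.1.1 t.1.2 := h1
          exact hy j j' i0 t.1.1 (y j i0) t.1.2 (by simpa using h2)
      | some s =>
        cases o' with
        | none =>
          have h2 : update (y j) s.1.1 s.1.2 = y j' := h1
          exact hy j j' s.1.1 i0 s.1.2 (y j' i0) (by simpa using h2)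
        | some t =>
          have h2 : update (y j) s.1.1 s.1.2 = update (y j') t.1.1 t.1.2 := h1
          exact hy j j' _ _ _ _ h2
    subst hj
    congr 1
    have h1 := congrArg Subtype.val h
    cases o with
    | none =>
      cases o' with
      | none => rfl
      | some t =>
        have h2 : y j = update (y j) t.1.1 t.1.2 := h1
        have h3 := congrFun h2 t.1.1
        rw [update_self] at h3
        exact absurd h3.symm t.2
    | some s =>
      cases o' with
      | none =>
        have h2 : update (y j) s.1.1 s.1.2 = y j := h1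
        have h3 := congrFun h2 s.1.1
        rw [update_self] at h3
        exact absurd h3 s.2
      | some t =>
        have h2 : update (y j) s.1.1 s.1.2 = update (y j) t.1.1 t.1.2 := h1
        congr 1
        obtain ⟨⟨i, a⟩, ha⟩ := s
        obtain ⟨⟨i', a'⟩, ha'⟩ := t
        have h3 := congrFun h2 i
        simp only [update_self] at h3
        have hi : i = i' := by
          by_contra hne
          rw [update_of_ne hne] at h3
          exact ha h3
        subst hi
        rw [update_self] at h3
        subst h3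
        rfl
  have h1 := Fintype.card_le_of_injective g hg
  rw [Fintype.card_sigma] at h1
  simp only [Fintype.card_option, card_Nb] at h1
  rw [Finset.sum_const, Finset.card_univ, Fintype.card_fin, smul_eq_mul, add_comm] at h1
  exact h1

omit [∀ i, DecidableEq (α i)] in
/-- codes from labels -/
theorem exists_code {A : Type} [Fintype A] {F : ((i : ι) → α i) → A} (hF : Lab F) {r B : ℕ}
    (hA : Fintype.card A ≤ B) (hr : r * B < Fintype.card ((i : ι) → α i) + B) :
    ∃ y : Fin r → (i : ι) → α i,
      ∀ j j' i i' a a', update (y j) i a = update (y j') i' a' → j = j' := by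
  classical
  rcases Nat.eq_zero_or_pos r with rfl | hr0
  · exact ⟨fun j => j.elim0, fun j => j.elim0⟩
  have h1 : Fintype.card A * (r - 1) < Fintype.card ((i : ι) → α i) := by
    have h2 : (r - 1) * B < Fintype.card ((i : ι) → α i) := by
      obtain ⟨k, rfl⟩ := Nat.exists_eq_succ_of_ne_zero hr0.ne'
      rw [Nat.succ_mul] at hr
      simpa using hr
    exact lt_of_le_of_lt (by rw [mul_comm]; exact Nat.mul_le_mul_left _ hA) h2
  obtain ⟨a, ha⟩ := Fintype.exists_lt_card_fiber_of_mul_lt_card F h1
  have h3 : r ≤ Fintype.card {x // F x = a} := by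
    rw [Fintype.card_subtype]
    omega
  obtain ⟨e⟩ : Nonempty (Fin r ↪ {x // F x = a}) :=
    Function.Embedding.nonempty_of_card_le (by rw [Fintype.card_fin]; exact h3)
  refine ⟨fun j => (e j).1, fun j j' i i' b b' hu => ?_⟩
  have h4 := hF.eq_of_update ((e j).2.trans (e j').2.symm) hu
  exact e.injective (Subtype.ext h4)

end

section
variable {ι₁ ι₂ : Type} [Fintype ι₁] [DecidableEq ι₁] [Fintype ι₂] [DecidableEq ι₂]
  {α₁ : ι₁ → Type} [∀ i, Fintype (α₁ i)] [∀ i, DecidableEq (α₁ i)]
  {α₂ : ι₂ → Type} [∀ i, Fintype (α₂ i)] [∀ i, DecidableEq (α₂ i)]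
  {A : Type} [DecidableEq A] (f : ((i : ι₂) → α₂ i) → A) {r : ℕ}

omit [DecidableEq A] in
/-- the special choice of vectors at the word `x` -/
theorem exists_special [Nonempty ι₁] (hf : Lab f) (y : Fin r → (i : ι₁) → α₁ i)
    (hy : ∀ j j' i i' a a', update (y j) i a = update (y j') i' a' → j = j')
    (hN : Fintype.card ((i : ι₁) → α₁ i) ≤ r * (1 + sdim α₁ + sdim α₂))
    (x : (i : ι₂) → α₂ i) :
    ∃ (sp : ((i : ι₁) → α₁ i) → Gn α₁ α₂ r) (q : A → Fin r → Par α₁),
      ∀ z, gen f r q x (sp z) = sg (bs z) := by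
  classical
  have h1 := card_near y hy
  have h2 : Fintype.card {z : (i : ι₁) → α₁ i // ¬ ∃ j i c, z = update (y j) i c} ≤
      Fintype.card (Nb x × Fin r) := by
    rw [Fintype.card_subtype_compl, Fintype.card_prod, card_Nb, Fintype.card_fin]
    rw [Nat.sub_le_iff_le_add]
    refine hN.trans ?_
    calc r * (1 + sdim α₁ + sdim α₂) = sdim α₂ * r + r * (1 + sdim α₁) := by ring
      _ ≤ _ := Nat.add_le_add_left h1 _
  obtain ⟨g⟩ := Function.Embedding.nonempty_of_card_le h2
  let sp : ((i : ι₁) → α₁ i) → Gn α₁ α₂ r := fun z =>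
    if h : ∃ j i c, z = update (y j) i c then
      Sum.inl (h.choose, ⟨h.choose_spec.choose, h.choose_spec.choose_spec.choose⟩)
    else Sum.inr ((g ⟨z, h⟩).1.1, (g ⟨z, h⟩).2)
  let q : A → Fin r → Par α₁ := fun c j =>
    if c = f x then bs (y j)
    else if h : ∃ u : {z : (i : ι₁) → α₁ i // ¬ ∃ j i c, z = update (y j) i c},
      f (update x (g u).1.1.1 (g u).1.1.2) = c ∧ (g u).2 = j then bs h.choose.1
    else bs (y j)
  refine ⟨sp, q, fun z => ?_⟩
  by_cases h : ∃ j i c, z = update (y j) i c
  · have h3 : sp z = Sum.inl (h.choose, ⟨h.choose_spec.choose,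
        h.choose_spec.choose_spec.choose⟩) := dif_pos h
    rw [h3]
    show sg (update (q (f x) h.choose) h.choose_spec.choose
      (Pi.single h.choose_spec.choose_spec.choose 1)) = sg (bs z)
    have h4 : q (f x) h.choose = bs (y h.choose) := if_pos rfl
    rw [h4, ← bs_update, ← h.choose_spec.choose_spec.choose_spec]
  · have h3 : sp z = Sum.inr ((g ⟨z, h⟩).1.1, (g ⟨z, h⟩).2) := dif_neg h
    rw [h3]
    show sg (q (f (update x (g ⟨z, h⟩).1.1.1 (g ⟨z, h⟩).1.1.2)) (g ⟨z, h⟩).2) = sg (bs z)
    have h5 : ∃ u : {z : (i : ι₁) → α₁ i // ¬ ∃ j i c, z = update (y j) i c},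
      f (update x (g u).1.1.1 (g u).1.1.2) =
        f (update x (g ⟨z, h⟩).1.1.1 (g ⟨z, h⟩).1.1.2) ∧ (g u).2 = (g ⟨z, h⟩).2 :=
      ⟨⟨z, h⟩, rfl, rfl⟩
    have h6 : q (f (update x (g ⟨z, h⟩).1.1.1 (g ⟨z, h⟩).1.1.2)) (g ⟨z, h⟩).2 =
        bs h5.choose.1 := by
      show (if _ = f x then _ else _) = _
      rw [if_neg (hf.1 x _ _ (g ⟨z, h⟩).1.2), dif_pos h5]
    have h7 : h5.choose = ⟨z, h⟩ := by
      apply g.injective
      have h8 := h5.choose_spec
      refine Prod.ext (Subtype.ext ?_) h8.2
      exact hf.2 x _ _ _ _ (g h5.choose).1.2 (g ⟨z, h⟩).1.2 h8.1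
    rw [h6, h7]

end

end Pool.Agent.H93.TR
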