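import Pool.Agent.H93.TR.Fix
import Pool.Agent.H93.TR.Blk
import Pool.Agent.H93.TR.Gadget
import Pool.Agent.H43.TR.BlockG

/-!
MP_b12e0e_ag (helper93): formats with three large dimensions, structured points.
-/

set_option autoImplicit false

open Set Function Module

namespace Pool.Agent.H93.TR

open Pool.Agent.H19.TR

/-- names of the vectors of a block -/
abbrev G3 {ι₂ : Type} (α₂ : ι₂ → Type) (H U Y V B C : Type) : Type :=
  (Y × V × B) ⊕ (Y × V × C) ⊕ (H × U × Y × V × Fin 2) ⊕ (Sigma α₂ × Y × V)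

section
variable {ι₂ : Type} [DecidableEq ι₂] {α₂ : ι₂ → Type}
  {H U Y V B C : Type} [DecidableEq B] [DecidableEq C]

/-- the vectors of a block -/
def vec {R : Type} [CommRing R] (a : ((i : ι₂) → α₂ i) → H → U → Y → Fin 2 → R)
    (b : ((i : ι₂) → α₂ i) → H → Y → V → B → R) (c : ((i : ι₂) → α₂ i) → H → U → Y → C → R)
    (c' : ((i : ι₂) → α₂ i) → H → Y → V → C → R) (v : (i : ι₂) → α₂ i) (x₀ : H) (i₀ : U) :
    G3 α₂ H U Y V B C → Fin 2 × B × C → R
  | Sum.inl (y, j, l) => fun z =>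
      a v x₀ i₀ y z.1 * (Pi.single l 1 : B → R) z.2.1 * (c v x₀ i₀ y z.2.2 + c' v x₀ y j z.2.2)
  | Sum.inr (Sum.inl (y, j, l)) => fun z =>
      a v x₀ i₀ y z.1 * b v x₀ y j z.2.1 * (Pi.single l 1 : C → R) z.2.2
  | Sum.inr (Sum.inr (Sum.inl (x, i, y, j, e))) => fun z =>
      (Pi.single e 1 : Fin 2 → R) z.1 * b v x y j z.2.1 * (c v x i y z.2.2 + c' v x y j z.2.2)
  | Sum.inr (Sum.inr (Sum.inr (s, y, j))) => fun z =>
      a (update v s.1 s.2) x₀ i₀ y z.1 * b (update v s.1 s.2) x₀ y j z.2.1 *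
        (c (update v s.1 s.2) x₀ i₀ y z.2.2 + c' (update v s.1 s.2) x₀ y j z.2.2)

theorem map_vec {R S : Type} [CommRing R] [CommRing S] (φ : R →+* S)
    (a : ((i : ι₂) → α₂ i) → H → U → Y → Fin 2 → R)
    (b : ((i : ι₂) → α₂ i) → H → Y → V → B → R) (c : ((i : ι₂) → α₂ i) → H → U → Y → C → R)
    (c' : ((i : ι₂) → α₂ i) → H → Y → V → C → R) (v : (i : ι₂) → α₂ i) (x₀ : H) (i₀ : U)
    (g : G3 α₂ H U Y V B C) (z : Fin 2 × B × C) :
    φ (vec a b c c' v x₀ i₀ g z) = vec (fun v x i y e => φ (a v x i y e))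
      (fun v x y j t => φ (b v x y j t)) (fun v x i y t => φ (c v x i y t))
      (fun v x y j t => φ (c' v x y j t)) v x₀ i₀ g z := by
  rcases g with ⟨y, j, l⟩ | ⟨y, j, l⟩ | ⟨x, i, y, j, e⟩ | ⟨s, y, j⟩ <;>
    simp only [vec, map_mul, map_add, map_single]

/-- generic choice -/
theorem exists_gen3 [Fintype ι₂] [∀ i, Fintype (α₂ i)] [Fintype H] [Fintype U] [Fintype B]
    [Fintype C]
    (hsp : ∀ (v : (i : ι₂) → α₂ i) (x₀ : H) (i₀ : U),
      ∃ (a : ((i : ι₂) → α₂ i) → H → U → Y → Fin 2 → ℝ)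
        (b : ((i : ι₂) → α₂ i) → H → Y → V → B → ℝ) (c : ((i : ι₂) → α₂ i) → H → U → Y → C → ℝ)
        (c' : ((i : ι₂) → α₂ i) → H → Y → V → C → ℝ),
        ⊤ ≤ Submodule.span ℝ (range (vec a b c c' v x₀ i₀))) :
    ∃ (a : ((i : ι₂) → α₂ i) → H → U → Y → Fin 2 → ℝ)
      (b : ((i : ι₂) → α₂ i) → H → Y → V → B → ℝ) (c : ((i : ι₂) → α₂ i) → H → U → Y → C → ℝ)
      (c' : ((i : ι₂) → α₂ i) → H → Y → V → C → ℝ),
      ∀ (v : (i : ι₂) → α₂ i) (x₀ : H) (i₀ : U),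
        ⊤ ≤ Submodule.span ℝ (range (vec a b c c' v x₀ i₀)) := by
  classical
  let W : Type := (i : ι₂) → α₂ i
  let σ : Type := (W × H × U × Y × Fin 2) ⊕ (W × H × Y × V × B) ⊕ (W × H × U × Y × C) ⊕
    (W × H × Y × V × C)
  let Xa : W → H → U → Y → Fin 2 → MvPolynomial σ ℝ := fun v x i y e =>
    MvPolynomial.X (Sum.inl (v, x, i, y, e))
  let Xb : W → H → Y → V → B → MvPolynomial σ ℝ := fun v x y j t =>
    MvPolynomial.X (Sum.inr (Sum.inl (v, x, y, j, t)))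
  let Xc : W → H → U → Y → C → MvPolynomial σ ℝ := fun v x i y t =>
    MvPolynomial.X (Sum.inr (Sum.inr (Sum.inl (v, x, i, y, t))))
  let Xd : W → H → Y → V → C → MvPolynomial σ ℝ := fun v x y j t =>
    MvPolynomial.X (Sum.inr (Sum.inr (Sum.inr (v, x, y, j, t))))
  have hev : ∀ (e : σ → ℝ) (k : W × H × U),
      (fun (g : G3 α₂ H U Y V B C) (z : Fin 2 × B × C) =>
        MvPolynomial.eval e (vec Xa Xb Xc Xd k.1 k.2.1 k.2.2 g z)) =
        vec (fun v x i y t => e (Sum.inl (v, x, i, y, t)))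
          (fun v x y j t => e (Sum.inr (Sum.inl (v, x, y, j, t))))
          (fun v x i y t => e (Sum.inr (Sum.inr (Sum.inl (v, x, i, y, t)))))
          (fun v x y j t => e (Sum.inr (Sum.inr (Sum.inr (v, x, y, j, t))))) k.1 k.2.1 k.2.2 := by
    intro e k
    funext g z
    rw [map_vec]
    simp only [Xa, Xb, Xc, Xd, MvPolynomial.eval_X]
  obtain ⟨e, he⟩ := gen_span (σ := σ) (C := W × H × U) (X := fun _ => Fin 2 × B × C)
    (Γ := fun _ => G3 α₂ H U Y V B C)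
    (fun k g z => vec Xa Xb Xc Xd k.1 k.2.1 k.2.2 g z) (fun k => by
      obtain ⟨a, b, c, c', hq⟩ := hsp k.1 k.2.1 k.2.2
      refine ⟨fun t => match t with
        | Sum.inl (v, x, i, y, t) => a v x i y t
        | Sum.inr (Sum.inl (v, x, y, j, t)) => b v x y j t
        | Sum.inr (Sum.inr (Sum.inl (v, x, i, y, t))) => c v x i y t
        | Sum.inr (Sum.inr (Sum.inr (v, x, y, j, t))) => c' v x y j t, ?_⟩
      rw [hev]
      exact hq)
  refine ⟨fun v x i y t => e (Sum.inl (v, x, i, y, t)),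
    fun v x y j t => e (Sum.inr (Sum.inl (v, x, y, j, t))),
    fun v x i y t => e (Sum.inr (Sum.inr (Sum.inl (v, x, i, y, t)))),
    fun v x y j t => e (Sum.inr (Sum.inr (Sum.inr (v, x, y, j, t)))), fun v x₀ i₀ => ?_⟩
  have h1 := he (v, x₀, i₀)
  rw [hev] at h1
  exact h1

end

section
variable {ι₂ : Type} [Fintype ι₂] [DecidableEq ι₂] {α₂ : ι₂ → Type} [∀ i, Fintype (α₂ i)]
  [∀ i, DecidableEq (α₂ i)]

/-- neighbours are different from the word -/
theorem update_ne_self {v : (i : ι₂) → α₂ i} (s : Nb v) : update v s.1.1 s.1.2 ≠ v := by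
  intro h
  have h1 := congrFun h s.1.1
  rw [update_self] at h1
  exact s.2 h1

/-- neighbours are different -/
theorem update_inj {v : (i : ι₂) → α₂ i} {s s' : Nb v}
    (h : update v s.1.1 s.1.2 = update v s'.1.1 s'.1.2) : s = s' := by
  obtain ⟨⟨i, a⟩, hs⟩ := s
  obtain ⟨⟨i', a'⟩, hs'⟩ := s'
  simp only at h hs hs'
  by_cases hi : i = i'
  · subst hi
    have h1 := congrFun h i
    rw [update_self, update_self] at h1
    subst h1
    rfl
  · exfalso
    have h1 := congrFun h i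
    rw [update_self, update_of_ne hi] at h1
    exact hs h1

/-- the special choice in a block -/
theorem special3 {h w p q u : ℕ} (hh : 1 ≤ h)
    (hcount : u * (p * q + w * (p + q) + 2 * w) ≤
      u * ((h - 1) * (2 * w)) + w * sdim α₂) (v : (i : ι₂) → α₂ i) (x₀ : Fin h) (i₀ : Fin u) :
    ∃ (a : ((i : ι₂) → α₂ i) → Fin h → Fin u → Fin w × Fin 2 → Fin 2 → ℝ)
      (b : ((i : ι₂) → α₂ i) → Fin h → Fin w × Fin 2 → Fin u →
        ((Fin w × Fin 2) × Fin u) ⊕ (Fin p × Fin u) → ℝ)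
      (c : ((i : ι₂) → α₂ i) → Fin h → Fin u → Fin w × Fin 2 →
        ((Fin w × Fin 2) × Fin u) ⊕ (Fin q × Fin u) → ℝ)
      (c' : ((i : ι₂) → α₂ i) → Fin h → Fin w × Fin 2 → Fin u →
        ((Fin w × Fin 2) × Fin u) ⊕ (Fin q × Fin u) → ℝ),
      ⊤ ≤ Submodule.span ℝ (range (vec a b c c' v x₀ i₀)) := by
  classical
  have hcG : Fintype.card ({x : Fin h // x ≠ x₀} × (Fin w × Fin 2)) = (h - 1) * (2 * w) := by
    rw [Fintype.card_prod, Fintype.card_prod, Fintype.card_subtype_compl,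
      Fintype.card_subtype_eq, Fintype.card_fin, Fintype.card_fin, Fintype.card_fin, mul_comm w 2]
  obtain ⟨A, bg, cg, An, bn, cn, hspan⟩ :=
    Pool.Agent.H43.TR.block_span (w := w) (p := p) (q := q) (u := u)
    (G := {x : Fin h // x ≠ x₀} × (Fin w × Fin 2)) (S := Nb v)
    (by rw [hcG, card_Nb]; exact hcount)
  refine ⟨fun v' _ _ y => if v' = v then A y else
      if hs : ∃ s : Nb v, update v s.1.1 s.1.2 = v' then An hs.choose y else 0,
    fun v' x y j => if v' = v then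
        (if hx : x = x₀ then Pi.single (Sum.inl (y, j)) 1 else bg (⟨x, hx⟩, y) j) else
      if hs : ∃ s : Nb v, update v s.1.1 s.1.2 = v' then bn hs.choose y j else 0,
    fun v' x i y => if v' = v then (if hx : x = x₀ then 0 else cg (⟨x, hx⟩, y) i) else
      if hs : ∃ s : Nb v, update v s.1.1 s.1.2 = v' then cn hs.choose y else 0,
    fun v' x y j => if v' = v then (if x = x₀ then Pi.single (Sum.inl (y, j)) 1 else 0) else 0,
    hspan.trans (Submodule.span_mono ?_)⟩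
  rintro F (((⟨y, j, l, rfl⟩ | ⟨y, j, l, rfl⟩) | ⟨g, i, j, e, rfl⟩) | ⟨s, y, j, rfl⟩)
  · refine ⟨Sum.inl (y, j, l), ?_⟩
    funext z
    simp [vec]
  · refine ⟨Sum.inr (Sum.inl (y, j, l)), ?_⟩
    funext z
    simp [vec]
  · refine ⟨Sum.inr (Sum.inr (Sum.inl (g.1.1, i, g.2, j, e))), ?_⟩
    funext z
    have hg : g.1.1 ≠ x₀ := g.1.2
    simp [vec, hg]
  · refine ⟨Sum.inr (Sum.inr (Sum.inr (s.1, y, j))), ?_⟩
    funext z
    have h1 : update v s.1.1 s.1.2 ≠ v := update_ne_self s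
    have h2 : ∃ s' : Nb v, update v s'.1.1 s'.1.2 = update v s.1.1 s.1.2 := ⟨s, rfl⟩
    have h3 : h2.choose = s := update_inj h2.choose_spec
    have h4 : ∀ {β : Type} (f : Nb v → β) (o : β),
        (if hs : ∃ s' : Nb v, update v s'.1.1 s'.1.2 = update v s.1.1 s.1.2 then f hs.choose
          else o) = f s := by
      intro β f o
      rw [dif_pos h2, h3]
    simp only [vec, if_neg h1, h4 (fun s => An s y), h4 (fun s => bn s y j), h4 (fun s => cn s y)]
    simp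

end

/-! ### From blocks to the whole format -/

section
variable {ι₂ : Type} [Fintype ι₂] [DecidableEq ι₂] {α : Fin 3 ⊕ ι₂ → Type}
  [∀ i, Fintype (α i)] [∀ i, DecidableEq (α i)]
  {H U Y V B C : Type} [DecidableEq H] [DecidableEq U] [DecidableEq B] [DecidableEq C]
  (e₀ : α (Sum.inl 0) ≃ (H × U) × Fin 2) (e₁ : α (Sum.inl 1) ≃ B) (e₂ : α (Sum.inl 2) ≃ C)

/-- the embedding of a block -/
def em (v : (i : ι₂) → α (Sum.inr i)) (β : H × U) : (Fin 2 × B × C → ℝ) →ₗ[ℝ] Ten α where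
  toFun F y := sg (bs v) (fun i => y (Sum.inr i)) *
    if (e₀ (y (Sum.inl 0))).1 = β then
      F ((e₀ (y (Sum.inl 0))).2, e₁ (y (Sum.inl 1)), e₂ (y (Sum.inl 2))) else 0
  map_add' F G := by
    funext y
    by_cases h : (e₀ (y (Sum.inl 0))).1 = β <;> simp [h, mul_add]
  map_smul' c F := by
    funext y
    by_cases h : (e₀ (y (Sum.inl 0))).1 = β
    · simp only [h, if_true, Pi.smul_apply, smul_eq_mul, RingHom.id_apply]
      ring
    · simp [h]

omit [∀ i, Fintype (α i)] [∀ i, DecidableEq (α i)] [Fintype ι₂] [DecidableEq ι₂] in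
theorem update_tri0 (a a' : α (Sum.inl 0) → ℝ) (b : α (Sum.inl 1) → ℝ) (c : α (Sum.inl 2) → ℝ) :
    update (tri (α := fun i : Fin 3 => α (Sum.inl i)) a b c) 0 a' = tri a' b c := by
  funext l
  fin_cases l <;> rfl

omit [∀ i, Fintype (α i)] [∀ i, DecidableEq (α i)] [Fintype ι₂] [DecidableEq ι₂] in
theorem update_tri1 (a : α (Sum.inl 0) → ℝ) (b b' : α (Sum.inl 1) → ℝ) (c : α (Sum.inl 2) → ℝ) :
    update (tri (α := fun i : Fin 3 => α (Sum.inl i)) a b c) 1 b' = tri a b' c := by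
  funext l
  fin_cases l <;> rfl

omit [∀ i, Fintype (α i)] [∀ i, DecidableEq (α i)] [Fintype ι₂] [DecidableEq ι₂] in
theorem update_tri2 (a : α (Sum.inl 0) → ℝ) (b : α (Sum.inl 1) → ℝ) (c c' : α (Sum.inl 2) → ℝ) :
    update (tri (α := fun i : Fin 3 => α (Sum.inl i)) a b c) 2 c' = tri a b c' := by
  funext l
  fin_cases l <;> rfl

/-- the points -/
def pt3 (a : ((i : ι₂) → α (Sum.inr i)) → H → U → Y → Fin 2 → ℝ)
    (b : ((i : ι₂) → α (Sum.inr i)) → H → Y → V → B → ℝ)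
    (c : ((i : ι₂) → α (Sum.inr i)) → H → U → Y → C → ℝ)
    (c' : ((i : ι₂) → α (Sum.inr i)) → H → Y → V → C → ℝ)
    (l : ((i : ι₂) → α (Sum.inr i)) × (H × U × Y × V)) : Par α :=
  jn (tri (α := fun i : Fin 3 => α (Sum.inl i))
    (fun t => if (e₀ t).1 = (l.2.1, l.2.2.1) then a l.1 l.2.1 l.2.2.1 l.2.2.2.1 (e₀ t).2 else 0)
    (fun t => b l.1 l.2.1 l.2.2.2.1 l.2.2.2.2 (e₁ t))
    ((fun t => c l.1 l.2.1 l.2.2.1 l.2.2.2.1 (e₂ t)) +
      fun t => c' l.1 l.2.1 l.2.2.2.1 l.2.2.2.2 (e₂ t))) (bs l.1)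

/-- the vectors of a block are tangent vectors -/
theorem em_vec (a : ((i : ι₂) → α (Sum.inr i)) → H → U → Y → Fin 2 → ℝ)
    (b : ((i : ι₂) → α (Sum.inr i)) → H → Y → V → B → ℝ)
    (c : ((i : ι₂) → α (Sum.inr i)) → H → U → Y → C → ℝ)
    (c' : ((i : ι₂) → α (Sum.inr i)) → H → Y → V → C → ℝ)
    (v : (i : ι₂) → α (Sum.inr i)) (x₀ : H) (i₀ : U)
    (g : G3 (fun i : ι₂ => α (Sum.inr i)) H U Y V B C) :
    ∃ (l : ((i : ι₂) → α (Sum.inr i)) × (H × U × Y × V)) (i : Fin 3 ⊕ ι₂) (h : α i → ℝ),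
      em e₀ e₁ e₂ v (x₀, i₀) (vec a b c c' v x₀ i₀ g) =
        sg (update (pt3 e₀ e₁ e₂ a b c c' l) i h) := by
  rcases g with ⟨y, j, l⟩ | ⟨y, j, l⟩ | ⟨x, i, y, j, e⟩ | ⟨s, y, j⟩
  · refine ⟨(v, (x₀, i₀, y, j)), Sum.inl 1, fun t => (Pi.single l 1 : B → ℝ) (e₁ t), ?_⟩
    funext m
    unfold pt3
    rw [update_jn_inl, update_tri1, sg_jn, sg_tri]
    by_cases h : (e₀ (m (Sum.inl 0))).1 = (x₀, i₀)
    · simp only [em, vec, LinearMap.coe_mk, AddHom.coe_mk, if_pos h, Pi.add_apply]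
      ring
    · simp only [em, vec, LinearMap.coe_mk, AddHom.coe_mk, if_neg h]
      ring
  · refine ⟨(v, (x₀, i₀, y, j)), Sum.inl 2, fun t => (Pi.single l 1 : C → ℝ) (e₂ t), ?_⟩
    funext m
    unfold pt3
    rw [update_jn_inl, update_tri2, sg_jn, sg_tri]
    by_cases h : (e₀ (m (Sum.inl 0))).1 = (x₀, i₀)
    · simp only [em, vec, LinearMap.coe_mk, AddHom.coe_mk, if_pos h]
      ring
    · simp only [em, vec, LinearMap.coe_mk, AddHom.coe_mk, if_neg h]
      ring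
  · refine ⟨(v, (x, i, y, j)), Sum.inl 0, fun t => if (e₀ t).1 = (x₀, i₀) then
      (Pi.single e 1 : Fin 2 → ℝ) (e₀ t).2 else 0, ?_⟩
    funext m
    unfold pt3
    rw [update_jn_inl, update_tri0, sg_jn, sg_tri]
    by_cases h : (e₀ (m (Sum.inl 0))).1 = (x₀, i₀)
    · simp only [em, vec, LinearMap.coe_mk, AddHom.coe_mk, if_pos h, Pi.add_apply]
      ring
    · simp only [em, vec, LinearMap.coe_mk, AddHom.coe_mk, if_neg h]
      ring
  · refine ⟨(update v s.1 s.2, (x₀, i₀, y, j)), Sum.inr s.1, Pi.single (v s.1) 1, ?_⟩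
    funext m
    unfold pt3
    rw [update_jn_inr, ← bs_update, update_idem, update_eq_self, sg_jn, sg_tri]
    by_cases h : (e₀ (m (Sum.inl 0))).1 = (x₀, i₀)
    · simp only [em, vec, LinearMap.coe_mk, AddHom.coe_mk, if_pos h, Pi.add_apply]
      ring
    · simp only [em, vec, LinearMap.coe_mk, AddHom.coe_mk, if_neg h]
      ring

/-- the span condition -/
theorem span3 (a : ((i : ι₂) → α (Sum.inr i)) → H → U → Y → Fin 2 → ℝ)
    (b : ((i : ι₂) → α (Sum.inr i)) → H → Y → V → B → ℝ)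
    (c : ((i : ι₂) → α (Sum.inr i)) → H → U → Y → C → ℝ)
    (c' : ((i : ι₂) → α (Sum.inr i)) → H → Y → V → C → ℝ)
    (hsp : ∀ (v : (i : ι₂) → α (Sum.inr i)) (x₀ : H) (i₀ : U),
      ⊤ ≤ Submodule.span ℝ (range (vec a b c c' v x₀ i₀))) (m : (i : Fin 3 ⊕ ι₂) → α i) :
    sg (bs m) ∈ Submodule.span ℝ {S : Ten α | ∃ l i h,
      S = sg (update (pt3 e₀ e₁ e₂ a b c c' l) i h)} := by
  set v : (i : ι₂) → α (Sum.inr i) := fun i => m (Sum.inr i) with hv
  set β : H × U := (e₀ (m (Sum.inl 0))).1 with hβ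
  have h1 : sg (bs m) = em e₀ e₁ e₂ v β
      (Pi.single ((e₀ (m (Sum.inl 0))).2, e₁ (m (Sum.inl 1)), e₂ (m (Sum.inl 2))) 1) := by
    funext y
    rw [bs_jn, sg_jn]
    simp only [em, LinearMap.coe_mk, AddHom.coe_mk]
    rw [mul_comm]
    congr 1
    rw [sg_bs_apply]
    by_cases h : (e₀ (y (Sum.inl 0))).1 = β
    · rw [if_pos h, Pi.single_apply]
      refine if_congr ?_ rfl rfl
      constructor
      · intro h2
        have h3 : m (Sum.inl 0) = y (Sum.inl 0) := congrFun h2 0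
        have h4 : m (Sum.inl 1) = y (Sum.inl 1) := congrFun h2 1
        have h5 : m (Sum.inl 2) = y (Sum.inl 2) := congrFun h2 2
        rw [h3, h4, h5]
      · intro h2
        obtain ⟨h3, h4, h5⟩ := (by simpa [Prod.ext_iff] using h2 :
          (e₀ (y (Sum.inl 0))).2 = (e₀ (m (Sum.inl 0))).2 ∧
            y (Sum.inl 1) = m (Sum.inl 1) ∧ y (Sum.inl 2) = m (Sum.inl 2))
        have h6 : e₀ (m (Sum.inl 0)) = e₀ (y (Sum.inl 0)) := Prod.ext (by rw [h]) h3.symm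
        have h7 := e₀.injective h6
        funext l
        fin_cases l
        · exact h7
        · exact h4.symm
        · exact h5.symm
    · rw [if_neg h, if_neg]
      intro h2
      apply h
      have h3 : m (Sum.inl 0) = y (Sum.inl 0) := congrFun h2 0
      rw [hβ, h3]
  rw [h1]
  have h2 := Submodule.mem_map_of_mem (f := em e₀ e₁ e₂ v β)
    (hsp v β.1 β.2 (Submodule.mem_top (x := (Pi.single ((e₀ (m (Sum.inl 0))).2,
      e₁ (m (Sum.inl 1)), e₂ (m (Sum.inl 2))) 1 : Fin 2 × B × C → ℝ))))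
  rw [Submodule.map_span] at h2
  refine Submodule.span_mono ?_ h2
  rintro S ⟨S', ⟨g, rfl⟩, rfl⟩
  obtain ⟨l, i, h, hS⟩ := em_vec e₀ e₁ e₂ a b c c' v β.1 β.2 g
  exact ⟨l, i, h, hS⟩

end

/-- the upper bound for truncated formats -/
theorem three_upper {ι₂ : Type} [Fintype ι₂] [DecidableEq ι₂] {α : Fin 3 ⊕ ι₂ → Type}
    [∀ i, Fintype (α i)] [∀ i, DecidableEq (α i)] {h w p q u : ℕ} (hh : 1 ≤ h)
    (ha : Fintype.card (α (Sum.inl 0)) = 2 * (u * h))
    (hb : Fintype.card (α (Sum.inl 1)) = u * (2 * w + p))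
    (hc : Fintype.card (α (Sum.inl 2)) = u * (2 * w + q))
    (hcount : u * (p * q + w * (p + q) + 2 * w) ≤
      u * ((h - 1) * (2 * w)) + w * sdim (fun i : ι₂ => α (Sum.inr i))) (T : Ten α) :
    T ∈ Sums α (Fintype.card ((i : ι₂) → α (Sum.inr i)) *
      (h * u * (2 * w) * u + h * (2 * w) * (2 * u))) := by
  classical
  have e₀ : α (Sum.inl 0) ≃ (Fin h × Fin u) × Fin 2 := Fintype.equivOfCardEq (by
    rw [ha, Fintype.card_prod, Fintype.card_prod, Fintype.card_fin, Fintype.card_fin,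
      Fintype.card_fin]
    ring)
  have e₁ : α (Sum.inl 1) ≃ ((Fin w × Fin 2) × Fin u) ⊕ (Fin p × Fin u) :=
    Fintype.equivOfCardEq (by
      rw [hb, Fintype.card_sum, Fintype.card_prod, Fintype.card_prod, Fintype.card_prod,
        Fintype.card_fin, Fintype.card_fin, Fintype.card_fin, Fintype.card_fin]
      ring)
  have e₂ : α (Sum.inl 2) ≃ ((Fin w × Fin 2) × Fin u) ⊕ (Fin q × Fin u) :=
    Fintype.equivOfCardEq (by
      rw [hc, Fintype.card_sum, Fintype.card_prod, Fintype.card_prod, Fintype.card_prod,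
        Fintype.card_fin, Fintype.card_fin, Fintype.card_fin, Fintype.card_fin]
      ring)
  obtain ⟨a, b, c, c', hsp⟩ := exists_gen3 (ι₂ := ι₂) (α₂ := fun i => α (Sum.inr i))
    (H := Fin h) (U := Fin u) (Y := Fin w × Fin 2) (V := Fin u)
    (B := ((Fin w × Fin 2) × Fin u) ⊕ (Fin p × Fin u))
    (C := ((Fin w × Fin 2) × Fin u) ⊕ (Fin q × Fin u)) (special3 hh hcount)
  have h1 := all_mem_gen (pt3 e₀ e₁ e₂ a b c c') (span3 e₀ e₁ e₂ a b c c' hsp)
    (gadgets_mem_Sums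
      (fun v x i y t => if (e₀ t).1 = (x, i) then a v x i y (e₀ t).2 else 0)
      (fun v x y j t => b v x y j (e₁ t)) (fun v x i y t => c v x i y (e₂ t))
      (fun v x y j t => c' v x y j (e₂ t))) T
  have h2 : Fintype.card (((i : ι₂) → α (Sum.inr i)) × (Fin h × Fin u × (Fin w × Fin 2) × Fin u)) +
      Fintype.card ((i : ι₂) → α (Sum.inr i)) * (Fintype.card (Fin h) *
        Fintype.card (Fin w × Fin 2) * (Fintype.card (Fin u) + Fintype.card (Fin u))) =
      Fintype.card ((i : ι₂) → α (Sum.inr i)) *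
        (h * u * (2 * w) * u + h * (2 * w) * (2 * u)) := by
    simp only [Fintype.card_prod, Fintype.card_fin]
    ring
  rw [h2] at h1
  exact h1

end Pool.Agent.H93.TR
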