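import Pool.Agent.H93.TR.BalFin
import Pool.Agent.H93.TR.Three
import Pool.Agent.H93.TR.Free
import Pool.Agent.H31.TR.Est3
import Pool.Agent.H43.TR.Extend

/-!
MP_b12e0e_ag (helper93): formats with three large dimensions, the upper bound.
-/

set_option autoImplicit false

open Set Function Module

namespace Pool.Agent.H93.TR

open Pool.Agent.H19.TR Pool.Agent.H43.TR

section
variable {ι₂ : Type} [Fintype ι₂] [DecidableEq ι₂]

theorem prod_erase_two (f : Fin 3 ⊕ ι₂ → ℕ) (x y : Fin 3) :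
    ∏ i ∈ (Finset.univ.erase (Sum.inl x)).erase (Sum.inl y), f i =
      (∏ i : Fin 3, if i ≠ x ∧ i ≠ y then f (Sum.inl i) else 1) * ∏ i : ι₂, f (Sum.inr i) := by
  have h1 : (Finset.univ.erase (Sum.inl x : Fin 3 ⊕ ι₂)).erase (Sum.inl y) =
      Finset.univ.filter fun i => i ≠ Sum.inl x ∧ i ≠ Sum.inl y := by
    ext i
    simp [and_comm]
  rw [h1, Finset.prod_filter, Fintype.prod_sum_type]
  congr 1
  refine Finset.prod_congr rfl fun i _ => ?_
  simp

/-- the upper bound, all formats -/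
theorem three_upper_ext (d : Fin 3 ⊕ ι₂ → ℕ) {h w p q u oa ob oc : ℕ} (hh : 1 ≤ h)
    (ha : d (Sum.inl 0) = 2 * (u * h) + oa) (hb : d (Sum.inl 1) = u * (2 * w + p) + ob)
    (hc : d (Sum.inl 2) = u * (2 * w + q) + oc)
    (hcount : u * (p * q + w * (p + q) + 2 * w) ≤
      u * ((h - 1) * (2 * w)) + w * ∑ i : ι₂, (d (Sum.inr i) - 1))
    (T : Ten fun i => Fin (d i)) :
    T ∈ Sums (fun i => Fin (d i)) ((∏ i : ι₂, d (Sum.inr i)) *
      (h * u * (2 * w) * u + h * (2 * w) * (2 * u)) +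
      oc * (u * (2 * w + p) * ∏ i : ι₂, d (Sum.inr i)) +
      ob * (d (Sum.inl 2) * ∏ i : ι₂, d (Sum.inr i)) +
      oa * (d (Sum.inl 2) * ∏ i : ι₂, d (Sum.inr i))) := by
  set d₂ : Fin 3 ⊕ ι₂ → ℕ := update d (Sum.inl 0) (2 * (u * h)) with hd₂
  set d₁ : Fin 3 ⊕ ι₂ → ℕ := update d₂ (Sum.inl 1) (u * (2 * w + p)) with hd₁
  set d₀ : Fin 3 ⊕ ι₂ → ℕ := update d₁ (Sum.inl 2) (u * (2 * w + q)) with hd₀
  have hr₀ : ∀ i : ι₂, d₀ (Sum.inr i) = d (Sum.inr i) := fun i => by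
    simp [hd₀, hd₁, hd₂]
  have h0 : ∀ T : Ten fun i => Fin (d₀ i), T ∈ Sums (fun i => Fin (d₀ i))
      ((∏ i : ι₂, d (Sum.inr i)) * (h * u * (2 * w) * u + h * (2 * w) * (2 * u))) := by
    intro T
    have h1 := three_upper (α := fun i : Fin 3 ⊕ ι₂ => Fin (d₀ i)) (h := h) (w := w) (p := p)
      (q := q) (u := u) hh (by rw [Fintype.card_fin]; simp [hd₀, hd₁, hd₂])
      (by rw [Fintype.card_fin]; simp [hd₀, hd₁]) (by rw [Fintype.card_fin]; simp [hd₀])
      (by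
        have h2 : (sdim fun i : ι₂ => Fin (d₀ (Sum.inr i))) = ∑ i : ι₂, (d (Sum.inr i) - 1) := by
          unfold sdim
          simp [hr₀]
        rw [h2]
        exact hcount) T
    have h3 : Fintype.card ((i : ι₂) → Fin (d₀ (Sum.inr i))) = ∏ i : ι₂, d (Sum.inr i) := by
      rw [Fintype.card_pi]
      exact Finset.prod_congr rfl fun i _ => by rw [Fintype.card_fin, hr₀]
    rw [h3] at h1
    exact h1
  have h1 := Sums_extend d₁ (Sum.inl 2) (Sum.inl 0) (by simp) (u * (2 * w + q)) oc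
    (by simp [hd₁, hd₂, hc]) h0
  have p1 : ∏ i ∈ (Finset.univ.erase (Sum.inl 2)).erase (Sum.inl 0), d₁ i =
      u * (2 * w + p) * ∏ i : ι₂, d (Sum.inr i) := by
    rw [prod_erase_two, Fin.prod_univ_three]
    simp [hd₁, hd₂]
  rw [p1] at h1
  have h2 := Sums_extend d₂ (Sum.inl 1) (Sum.inl 0) (by simp) (u * (2 * w + p)) ob
    (by simp [hd₂, hb]) h1
  have p2 : ∏ i ∈ (Finset.univ.erase (Sum.inl 1)).erase (Sum.inl 0), d₂ i =
      d (Sum.inl 2) * ∏ i : ι₂, d (Sum.inr i) := by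
    rw [prod_erase_two, Fin.prod_univ_three]
    simp [hd₂]
  rw [p2] at h2
  have h3 := Sums_extend d (Sum.inl 0) (Sum.inl 1) (by simp) (2 * (u * h)) oa ha h2 T
  have p3 : ∏ i ∈ (Finset.univ.erase (Sum.inl 0)).erase (Sum.inl 1), d i =
      d (Sum.inl 2) * ∏ i : ι₂, d (Sum.inr i) := by
    rw [prod_erase_two, Fin.prod_univ_three]
    simp
  rw [p3] at h3
  exact h3

end

/-- the upper bound if the dimension of the Segre cone is small compared with the product of two of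
the three large dimensions -/
theorem bdd_three (ε : ℝ) (hε : 0 < ε) : ∃ K m₀ : ℕ, ∀ (n : ℕ) (d : Fin n → ℕ) (i j k : Fin n),
    i ≠ j → i ≠ k → j ≠ k → (∀ l, 2 ≤ d l) → (∀ l, l ≠ i → l ≠ j → l ≠ k → d l ≤ d k) →
    d k ≤ d j → d j ≤ d i → m₀ ≤ d k → K * (1 + ∑ l, (d l - 1)) ≤ d j * d k →
    Bdd n d ((1 + ε) * lwd n d) := by
  obtain ⟨u, K, m₀, hu, hest⟩ := Pool.Agent.H31.TR.est_three ε hε
  refine ⟨K, m₀, fun n d i j k hij hik hjk hd _ hkj hji hm hK => ?_⟩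
  let ι₂ : Type := {l : Fin n // l ≠ i ∧ l ≠ j ∧ l ≠ k}
  let f : Fin 3 ⊕ ι₂ → Fin n := Sum.elim ![i, j, k] Subtype.val
  have hf : Bijective f := by
    constructor
    · rintro (x | x) (y | y) hxy
      · congr 1
        fin_cases x <;> fin_cases y <;> simp_all [f]
      · exfalso
        have := y.2
        fin_cases x <;> simp [f] at hxy <;> simp [← hxy] at this
      · exfalso
        have := x.2
        fin_cases y <;> simp [f] at hxy <;> simp [hxy] at this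
      · congr 1
        exact Subtype.ext hxy
    · intro l
      by_cases h1 : l = i
      · exact ⟨Sum.inl 0, h1.symm⟩
      by_cases h2 : l = j
      · exact ⟨Sum.inl 1, h2.symm⟩
      by_cases h3 : l = k
      · exact ⟨Sum.inl 2, h3.symm⟩
      exact ⟨Sum.inr ⟨l, h1, h2, h3⟩, rfl⟩
  let e : Fin 3 ⊕ ι₂ ≃ Fin n := Equiv.ofBijective f hf
  let dd : Fin 3 ⊕ ι₂ → ℕ := fun l => d (e l)
  have hsum : ∑ l, (d l - 1) = ((d i - 1) + (d j - 1) + (d k - 1)) +
      ∑ l : ι₂, (dd (Sum.inr l) - 1) := by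
    rw [← e.sum_comp, Fintype.sum_sum_type, Fin.sum_univ_three]
    rfl
  have hprod : (∏ l, (d l : ℝ)) = (d i : ℝ) * d j * d k * (∏ l : ι₂, dd (Sum.inr l) : ℕ) := by
    rw [← e.prod_comp, Fintype.prod_sum_type, Fin.prod_univ_three]
    push_cast
    rfl
  have hsumR : (∑ l, ((d l : ℝ) - 1)) = (((d i : ℝ) - 1) + ((d j : ℝ) - 1) + ((d k : ℝ) - 1)) +
      (∑ l : ι₂, (dd (Sum.inr l) - 1) : ℕ) := by
    rw [← e.sum_comp, Fintype.sum_sum_type, Fin.sum_univ_three]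
    congr 1
    rw [Nat.cast_sum]
    exact Finset.sum_congr rfl fun l _ => by
      rw [Nat.cast_sub (by have := hd (e (Sum.inr l)); show 1 ≤ d (e (Sum.inr l)); omega),
        Nat.cast_one]
  obtain ⟨h, w, p, q, oa, ob, oc, ha, hb, hc, hh, hcount, hle⟩ := hest (d i) (d j) (d k)
    (∑ l : ι₂, (dd (Sum.inr l) - 1)) (∏ l : ι₂, dd (Sum.inr l)) hm hkj hji (by
      rw [add_assoc, ← hsum]
      exact hK)
  have hT := three_upper_ext dd hh ha hb hc hcount
  refine ⟨_, ?_, fun T => Sums_equiv (fun i => Fin (d i)) e (fun T' => hT T') T⟩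
  have hL : (d i * d j * d k * (∏ l : ι₂, dd (Sum.inr l) : ℕ) : ℝ) /
      (1 + (((d i : ℝ) - 1) + ((d j : ℝ) - 1) + ((d k : ℝ) - 1)) +
        (∑ l : ι₂, (dd (Sum.inr l) - 1) : ℕ)) = lwd n d := by
    unfold lwd
    rw [hprod, hsumR]
    congr 1
    ring
  rw [hL] at hle
  refine le_trans ?_ hle
  have h5 : u * (2 * w + p) ≤ d j := by omega
  have h6 : dd (Sum.inl 2) = d k := rfl
  have h7 : (∏ i : ι₂, dd (Sum.inr i)) * (h * u * (2 * w) * u + h * (2 * w) * (2 * u)) +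
      oc * (u * (2 * w + p) * ∏ i : ι₂, dd (Sum.inr i)) +
      ob * (dd (Sum.inl 2) * ∏ i : ι₂, dd (Sum.inr i)) +
      oa * (dd (Sum.inl 2) * ∏ i : ι₂, dd (Sum.inr i)) ≤
      (∏ l : ι₂, dd (Sum.inr l)) * (h * u * (2 * w) * u + h * (2 * w) * (2 * u)) +
        (oa * d k + ob * d k + oc * d j) * ∏ l : ι₂, dd (Sum.inr l) := by
    rw [h6]
    have h8 := Nat.mul_le_mul_left oc (Nat.mul_le_mul_right (∏ i : ι₂, dd (Sum.inr i)) h5)
    nlinarith [h8]
  exact_mod_cast h7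

/-- the trivial bound -/
theorem bdd_triv (n : ℕ) (d : Fin n → ℕ) (i : Fin n) (hd : ∀ j, 2 ≤ d j) :
    Bdd n d ((∏ j, (d j : ℝ)) / d i) := by
  refine ⟨_, ?_, fun T => free_mem_Sums i T⟩
  have h1 : Fintype.card ((j : {j : Fin n // j ≠ i}) → Fin (d j)) =
      ∏ j ∈ Finset.univ.erase i, d j := by
    rw [Fintype.card_pi]
    simp only [Fintype.card_fin]
    exact (Finset.prod_subtype (Finset.univ.erase i) (p := fun j => j ≠ i) (by simp)
      (fun j => d j)).symm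
  have h2 : (0 : ℝ) < d i := by
    have := hd i
    exact_mod_cast (by omega : 0 < d i)
  rw [h1, le_div_iff₀ h2]
  rw [← Finset.prod_erase_mul _ _ (Finset.mem_univ i)]
  push_cast
  exact le_rfl

theorem lwd_nonneg' (n : ℕ) (d : Fin n → ℕ) : 0 ≤ lwd n d := by
  by_cases h : ∀ i, 1 ≤ d i
  · exact lwd_nonneg n d h
  · push Not at h
    obtain ⟨i, hi⟩ := h
    have h0 : d i = 0 := by omega
    unfold lwd
    rw [Finset.prod_eq_zero (Finset.mem_univ i) (by rw [h0, Nat.cast_zero]), zero_div]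

end Pool.Agent.H93.TR
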