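import Pool.Agent.H19.TR.Transfer

/-!
MP_b12e0e_ag (helper93): sums of basis products along a covering code are interior points.
-/

set_option autoImplicit false

open Set Function Module

open scoped ContDiff Topology

namespace Pool.Agent.H93.TR

open Pool.Agent.H19.TR

section
variable {ι : Type} [Fintype ι] [DecidableEq ι] {α : ι → Type} [∀ i, Fintype (α i)]
  [∀ i, DecidableEq (α i)]

/-- the parameter of a basis tensor -/
def bs (m : (i : ι) → α i) : Par α := fun i => Pi.single (m i) 1

omit [DecidableEq ι] [∀ i, Fintype (α i)] in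
theorem sg_bs_apply (m x : (i : ι) → α i) : sg (bs m) x = if m = x then 1 else 0 := by
  unfold sg bs
  split_ifs with h
  · subst h
    simp
  · obtain ⟨i, hi⟩ := Function.ne_iff.1 h
    exact Finset.prod_eq_zero (Finset.mem_univ i) (Pi.single_eq_of_ne (Ne.symm hi) _)

omit [Fintype ι] [∀ i, Fintype (α i)] in
theorem bs_update (m : (i : ι) → α i) (i : ι) (a : α i) :
    bs (update m i a) = update (bs m) i (Pi.single a 1) := by
  funext l
  by_cases h : l = i
  · subst h
    simp [bs]
  · simp [bs, update_of_ne h]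

/-- all tensors close to a sum of basis tensors along a covering code are sums of as many
products -/
theorem range_mem_nhds {κ : Type} [Fintype κ] [DecidableEq κ] (c : κ → (i : ι) → α i)
    (hcov : ∀ x : (i : ι) → α i, ∃ l i a, x = update (c l) i a) :
    range (fun v : κ → Par α => ∑ l, sg (v l)) ∈ 𝓝 (∑ l, sg (bs (c l))) := by
  classical
  set f : (κ → Par α) → Ten α := fun v => ∑ l, sg (v l) with hf
  have hfc : ContDiff ℝ ω f := by
    refine ContDiff.sum fun l _ => ?_
    exact contDiff_sg.comp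
      (ContinuousLinearMap.contDiff (ContinuousLinearMap.proj (R := ℝ) (φ := fun _ : κ => Par α) l))
  set v0 : κ → Par α := fun l => bs (c l) with hv0
  have hs : HasStrictFDerivAt f (fderiv ℝ f v0) v0 :=
    hfc.contDiffAt.hasStrictFDerivAt (by simp)
  have hfd : fderiv ℝ f v0 = ∑ l, (fderiv ℝ (sg : Par α → Ten α) (v0 l)).comp
      (ContinuousLinearMap.proj (R := ℝ) (φ := fun _ : κ => Par α) l) := by
    refine HasFDerivAt.fderiv ?_
    refine HasFDerivAt.fun_sum fun l _ => ?_
    have h1 : HasFDerivAt (sg : Par α → Ten α) (fderiv ℝ sg (v0 l))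
        (ContinuousLinearMap.proj (R := ℝ) (φ := fun _ : κ => Par α) l v0) :=
      (contDiff_sg.differentiable (by simp)).differentiableAt.hasFDerivAt
    exact h1.comp v0 (ContinuousLinearMap.hasFDerivAt _)
  have hsurj : LinearMap.range (fderiv ℝ f v0).toLinearMap = ⊤ := by
    rw [eq_top_iff]
    intro T _
    have h1 : T = ∑ x, T x • sg (bs x) := by
      funext y
      simp [Finset.sum_apply, sg_bs_apply]
    rw [h1]
    refine Submodule.sum_mem _ fun x _ => Submodule.smul_mem _ _ ?_
    obtain ⟨l, i, a, hx⟩ := hcov x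
    rw [hx, bs_update]
    obtain ⟨w, hw⟩ := sg_mem_range (bs (c l)) i (Pi.single a 1)
    refine ⟨Pi.single l w, ?_⟩
    have h2 : (fderiv ℝ f v0) (Pi.single l w) = fderiv ℝ (sg : Par α → Ten α) (v0 l) w := by
      rw [hfd, ContinuousLinearMap.sum_apply]
      rw [Finset.sum_eq_single l]
      · simp
      · intro l' _ hl'
        simp [Pi.single_eq_of_ne hl']
      · simp
    exact h2.trans hw
  have h3 := hs.map_nhds_eq_of_surj hsurj
  have h4 : range f ∈ Filter.map f (𝓝 v0) := Filter.range_mem_map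
  rw [h3] at h4
  exact h4

/-! ### Sums of `r` products -/

/-- the tensors which are sums of `r` products -/
def Sums (α : ι → Type) (r : ℕ) : Set (Ten α) := {T | ∃ v : Fin r → Par α, T = ∑ j, sg (v j)}

omit [∀ i, Fintype (α i)] [∀ i, DecidableEq (α i)] in
theorem smul_sg (i0 : ι) (c : ℝ) (a : Par α) : c • sg a = sg (update a i0 (c • a i0)) := by
  funext m
  have h6 : sg a m = a i0 (m i0) * ∏ l ∈ Finset.univ.erase i0, a l (m l) := by
    rw [← sg_update, update_eq_self]
  rw [Pi.smul_apply, sg_update, h6, Pi.smul_apply, smul_eq_mul, smul_eq_mul, mul_assoc]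

omit [∀ i, Fintype (α i)] [∀ i, DecidableEq (α i)] in
theorem sum_smul_mem_Sums [Nonempty ι] {κ : Type} [Fintype κ] (c : κ → ℝ) (v : κ → Par α) :
    ∑ l, c l • sg (v l) ∈ Sums α (Fintype.card κ) := by
  obtain ⟨i0⟩ := (inferInstance : Nonempty ι)
  let e : Fin (Fintype.card κ) ≃ κ := (Fintype.equivFin κ).symm
  refine ⟨fun j => update (v (e j)) i0 (c (e j) • v (e j) i0), ?_⟩
  rw [← e.sum_comp]
  exact Finset.sum_congr rfl fun j _ => smul_sg i0 _ _

omit [∀ i, Fintype (α i)] [∀ i, DecidableEq (α i)] in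
theorem smul_mem_Sums [Nonempty ι] {r : ℕ} {T : Ten α} (c : ℝ) (hT : T ∈ Sums α r) :
    c • T ∈ Sums α r := by
  obtain ⟨v, rfl⟩ := hT
  have := sum_smul_mem_Sums (α := α) (fun _ : Fin r => c) v
  rwa [Fintype.card_fin, ← Finset.smul_sum] at this

omit [DecidableEq ι] [∀ i, Fintype (α i)] [∀ i, DecidableEq (α i)] in
theorem add_mem_Sums {r s : ℕ} {S T : Ten α} (hS : S ∈ Sums α r) (hT : T ∈ Sums α s) :
    S + T ∈ Sums α (r + s) := by
  obtain ⟨v, rfl⟩ := hS
  obtain ⟨w, rfl⟩ := hT
  refine ⟨Fin.append v w, ?_⟩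
  rw [Fin.sum_univ_add]
  congr 1
  · exact Finset.sum_congr rfl fun j _ => by rw [Fin.append_left]
  · exact Finset.sum_congr rfl fun j _ => by rw [Fin.append_right]

omit [DecidableEq ι] [∀ i, Fintype (α i)] [∀ i, DecidableEq (α i)] in
theorem zero_mem_Sums [Nonempty ι] (r : ℕ) : (0 : Ten α) ∈ Sums α r := by
  obtain ⟨i0⟩ := (inferInstance : Nonempty ι)
  refine ⟨fun _ _ _ => 0, ?_⟩
  funext m
  rw [Finset.sum_apply]
  refine (Finset.sum_eq_zero fun j _ => ?_).symm
  exact Finset.prod_eq_zero (Finset.mem_univ i0) rfl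

/-! ### Change of bases -/

/-- the action of matrices on the factors -/
def act (M : (i : ι) → Matrix (α i) (α i) ℝ) (T : Ten α) : Ten α :=
  fun y => ∑ x, (∏ i, M i (y i) (x i)) * T x

omit [∀ i, DecidableEq (α i)] in
theorem act_sg (M : (i : ι) → Matrix (α i) (α i) ℝ) (a : Par α) :
    act M (sg a) = sg fun i => (M i).mulVec (a i) := by
  funext y
  unfold act sg
  simp only [← Finset.prod_mul_distrib]
  simp only [Matrix.mulVec, dotProduct]
  rw [Finset.prod_univ_sum, Fintype.piFinset_univ]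

omit [∀ i, DecidableEq (α i)] in
theorem act_act (M M' : (i : ι) → Matrix (α i) (α i) ℝ) (T : Ten α) :
    act M (act M' T) = act (fun i => M i * M' i) T := by
  funext y
  unfold act
  simp only [Finset.mul_sum]
  rw [Finset.sum_comm]
  refine Finset.sum_congr rfl fun x _ => ?_
  simp only [Matrix.mul_apply]
  rw [Finset.prod_univ_sum, Fintype.piFinset_univ, Finset.sum_mul]
  refine Finset.sum_congr rfl fun z _ => ?_
  rw [Finset.prod_mul_distrib]
  ring

theorem act_one (T : Ten α) : act (fun i => (1 : Matrix (α i) (α i) ℝ)) T = T := by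
  funext y
  unfold act
  rw [Finset.sum_eq_single y]
  · simp
  · intro x _ hx
    obtain ⟨i, hi⟩ := Function.ne_iff.1 hx
    rw [Finset.prod_eq_zero (Finset.mem_univ i), zero_mul]
    exact Matrix.one_apply_ne (Ne.symm hi)
  · simp

omit [∀ i, DecidableEq (α i)] in
theorem act_mem_Sums (M : (i : ι) → Matrix (α i) (α i) ℝ) {r : ℕ} {T : Ten α}
    (hT : T ∈ Sums α r) : act M T ∈ Sums α r := by
  obtain ⟨v, rfl⟩ := hT
  refine ⟨fun j i => (M i).mulVec (v j i), ?_⟩
  have h1 : act M (∑ j, sg (v j)) = ∑ j, act M (sg (v j)) := by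
    funext y
    unfold act
    simp only [Finset.sum_apply, Finset.mul_sum]
    rw [Finset.sum_comm]
  rw [h1]
  exact Finset.sum_congr rfl fun j _ => act_sg M _

/-! ### The degeneration -/

/-- the matrix with ones in the column `c` -/
def colOne {β : Type} [DecidableEq β] (c : β) : Matrix β β ℝ :=
  Matrix.of fun _ z => if z = c then 1 else 0

theorem colOne_mul {β : Type} [Fintype β] [DecidableEq β] (c : β) :
    colOne c * colOne c = colOne c := by
  ext y z
  rw [Matrix.mul_apply]
  simp [colOne]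

/-- the family of matrices -/
def fam {β : Type} [DecidableEq β] (c : β) (ε : ℝ) : Matrix β β ℝ := colOne c + ε • 1

/-- the inverse matrices -/
noncomputable def famInv {β : Type} [DecidableEq β] (c : β) (ε : ℝ) : Matrix β β ℝ :=
  ε⁻¹ • (1 - (1 + ε)⁻¹ • colOne c)

theorem famInv_mul {β : Type} [Fintype β] [DecidableEq β] (c : β) {ε : ℝ} (hε : 0 < ε) :
    famInv c ε * fam c ε = 1 := by
  unfold famInv fam
  have h1 : (1 - (1 + ε)⁻¹ • colOne c) * (colOne c + ε • 1) = ε • (1 : Matrix β β ℝ) := by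
    rw [mul_add, sub_mul, one_mul, smul_mul_assoc, colOne_mul, mul_smul_comm, mul_one, smul_sub,
      smul_smul]
    have h2 : (1 + ε)⁻¹ • colOne c + (ε * (1 + ε)⁻¹) • colOne c = colOne c := by
      rw [← add_smul]
      have : (1 + ε)⁻¹ + ε * (1 + ε)⁻¹ = 1 := by field_simp
      rw [this, one_smul]
    have h3 : colOne c - (1 + ε)⁻¹ • colOne c + (ε • (1 : Matrix β β ℝ) -
        (ε * (1 + ε)⁻¹) • colOne c) = colOne c - ((1 + ε)⁻¹ • colOne c +
          (ε * (1 + ε)⁻¹) • colOne c) + ε • 1 := by abel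
    rw [h3, h2, sub_self, zero_add]
  rw [smul_mul_assoc, h1, smul_smul, inv_mul_cancel₀ hε.ne', one_smul]

theorem continuous_act_fam (x : (i : ι) → α i) (T : Ten α) :
    Continuous fun ε : ℝ => act (fun i => fam (x i) ε) T := by
  unfold act
  refine continuous_pi fun y => ?_
  refine continuous_finset_sum _ fun z _ => ?_
  refine Continuous.mul (continuous_finset_prod _ fun i _ => ?_) continuous_const
  unfold fam
  simp only [Matrix.add_apply, Matrix.smul_apply, smul_eq_mul]
  fun_prop

theorem act_fam_zero (x : (i : ι) → α i) (T : Ten α) :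
    act (fun i => fam (x i) 0) T = T x • sg (fun _ _ => 1) := by
  funext y
  unfold act
  rw [Finset.sum_eq_single x]
  · simp [fam, colOne, sg]
  · intro z _ hz
    obtain ⟨i, hi⟩ := Function.ne_iff.1 hz
    rw [Finset.prod_eq_zero (Finset.mem_univ i), zero_mul]
    simp [fam, colOne, hi]
  · simp

/-- The main step: if the sum of the basis tensors along a covering code `c` is, up to the
tensor `b • (1, .., 1) ⊗ .. ⊗ (1, .., 1)`, a sum of `ρ` products, then all tensors are sums of
`card κ + ρ` products. -/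
theorem all_mem [Nonempty ι] {κ : Type} [Fintype κ] [DecidableEq κ] (c : κ → (i : ι) → α i)
    (hcov : ∀ x : (i : ι) → α i, ∃ l i a, x = update (c l) i a) {ρ : ℕ} {b : ℝ} (hb : b ≠ 0)
    {S : Ten α} (hS : S ∈ Sums α ρ)
    (h0 : ∑ l, sg (bs (c l)) = b • sg (fun _ _ => 1) + S) (T : Ten α) :
    T ∈ Sums α (Fintype.card κ + ρ) := by
  by_cases hT : T = 0
  · rw [hT]
    exact zero_mem_Sums _
  obtain ⟨x, hx⟩ := Function.ne_iff.1 hT
  rw [Pi.zero_apply] at hx
  have h1 := range_mem_nhds c hcov
  -- the path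
  set g : ℝ → Ten α := fun ε => (b / T x) • act (fun i => fam (x i) ε) T + S with hg
  have hgc : Continuous g := by
    have h := continuous_act_fam x T
    rw [hg]
    fun_prop
  have hg0 : g 0 = ∑ l, sg (bs (c l)) := by
    rw [hg, h0]
    show (b / T x) • act (fun i => fam (x i) 0) T + S = _
    rw [act_fam_zero, smul_smul, div_mul_cancel₀ _ hx]
  rw [← hg0] at h1
  have h2 : ∀ᶠ ε in 𝓝[>] (0 : ℝ), g ε ∈ range (fun v : κ → Par α => ∑ l, sg (v l)) :=
    (hgc.continuousAt.eventually_mem h1).filter_mono nhdsWithin_le_nhds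
  obtain ⟨ε, ⟨v, hv⟩, hε⟩ := (h2.and self_mem_nhdsWithin).exists
  have hε' : (0 : ℝ) < ε := hε
  have h3 : act (fun i => fam (x i) ε) T = (T x / b) • ((∑ l, sg (v l)) + (-1 : ℝ) • S) := by
    have h4 : (∑ l, sg (v l)) = (b / T x) • act (fun i => fam (x i) ε) T + S := hv
    rw [h4, neg_one_smul, add_neg_cancel_right, smul_smul]
    have : T x / b * (b / T x) = 1 := by field_simp
    rw [this, one_smul]
  have h5 : ∑ l, sg (v l) ∈ Sums α (Fintype.card κ) := by
    have := sum_smul_mem_Sums (α := α) (fun _ : κ => (1 : ℝ)) v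
    simpa using this
  have h6 : act (fun i => fam (x i) ε) T ∈ Sums α (Fintype.card κ + ρ) := by
    rw [h3]
    exact smul_mem_Sums _ (add_mem_Sums h5 (smul_mem_Sums _ hS))
  have h7 := act_mem_Sums (fun i => famInv (x i) ε) h6
  rw [act_act] at h7
  have h8 : (fun i => famInv (x i) ε * fam (x i) ε) = fun i => (1 : Matrix (α i) (α i) ℝ) := by
    funext i
    exact famInv_mul (x i) hε'
  rwa [h8, act_one] at h7

end

end Pool.Agent.H93.TR
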